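import Pool.Agent.W_MP_68f289_gt.LR

/-!
Density of nontrivial normal subgroups; fragmentation into balls of one radius implies
fragmentation into balls of every radius; explicit descriptions of the sets used in the statements.
-/

open Set Metric Topology commutatorElement Pointwise
open scoped NNReal ContDiff

namespace Pool.Agent.W_MP_68f289_gt

variable {n : ℕ}

/-! ### Density -/

/-- elements supported in `V` -/
def SupIn (L : Subgroup (E n ≃ₜ E n)) (V : Set (E n)) : Subgroup L where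
  carrier := {e | Off e V}
  one_mem' := Off.one _
  mul_mem' ha hb := ha.mul hb
  inv_mem' ha := ha.inv

theorem dense_Mo (hn : 1 ≤ n) {L : Subgroup (E n ≃ₜ E n)} (hL : Big L) {u : E n ≃ₜ E n}
    (hu : IsHam n u) {ε : ℝ} (hε : 0 < ε) :
    ∃ m ∈ Mo L (Bl n), ∀ x : E n, dist (m • x) (u x) < ε := by
  have S := sysL hn hL
  set V : Set (E n) := ball 0 (ε / 2) ∩ Bl n with hV
  have h0V : (0 : E n) ∈ V := ⟨mem_ball_self (by positivity), by rw [mem_Bl, en_zero]; norm_num⟩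
  have hVo : IsOpen V := isOpen_ball.inter isOpen_Bl
  obtain ⟨K, hK, hKB, hfrag⟩ := isHam_frag hL hu
  have hMn := S.Mo_normal
  obtain ⟨δ, hδ, h1⟩ := lebesgue hK (Gr := L) (Q := fun a => IsHam n (a : E n ≃ₜ E n) → Off a K →
      a ∈ SupIn L V ⊔ Mo L (Bl n)) (by
    intro p hp
    obtain ⟨l, _, hlp⟩ := S.transitive (fun p _ => S.LT_Mo p) (hKB hp) h0V.2
    refine ⟨(fun x => l • x) ⁻¹' V, hVo.preimage (continuous_const_smul l), ?_, ?_⟩
    · change l • p ∈ V
      rw [hlp]; exact h0V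
    · intro a ha haH _
      have e1 : Off (l * a * l⁻¹) V := by
        refine (ha.conj l).mono ?_
        rintro _ ⟨x, hx, rfl⟩
        exact hx
      have e2 : ⁅a, l⁆ ∈ Mo L (Bl n) :=
        Subgroup.commutator_mem_commutator (isHam_memL hL haH) (Subgroup.mem_top _)
      have e3 : a = (l * a * l⁻¹) * ((l * a * l⁻¹)⁻¹ * ⁅a, l⁆ * (l * a * l⁻¹)) := by
        rw [commutatorElement_def]; group
      rw [e3]
      refine mul_mem (Subgroup.mem_sup_left e1) (Subgroup.mem_sup_right ?_)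
      have := hMn.conj_mem _ e2 (l * a * l⁻¹)⁻¹
      rwa [inv_inv] at this) (by
    intro a V' ha hd _ haK
    have : a = 1 := by
      apply FaithfulSMul.eq_of_smul_eq_smul (α := E n)
      intro x
      rw [one_smul]
      by_cases hx : x ∈ K
      · exact ha x fun hx' => Set.disjoint_left.1 hd hx' hx
      · exact haK x hx
    rw [this]
    exact one_mem _)
  have h2 : (⟨u, hL.ham u hu⟩ : L) ∈ SupIn L V ⊔ Mo L (Bl n) := by
    refine (Subgroup.closure_le _).2 ?_ (hfrag δ hδ)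
    rintro a ⟨haH, haK, c, hac⟩
    exact h1 a c hac haH haK
  rw [← SetLike.mem_coe, Subgroup.mul_normal] at h2
  obtain ⟨e, he, m, hm, hem⟩ := h2
  refine ⟨m, hm, fun x => ?_⟩
  have h3 : u x = e • (m • x) := by
    have : (⟨u, hL.ham u hu⟩ : L) • x = (e * m) • x := by rw [← hem]
    rw [mul_smul] at this
    exact this
  rw [h3]
  have he' : Off e V := he
  by_cases hx : m • x ∈ V
  · have h4 : e • (m • x) ∈ V := he'.smul_mem hx
    calc dist (m • x) (e • m • x) ≤ dist (m • x) 0 + dist (e • m • x) 0 :=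
          dist_triangle_right _ _ _
      _ < ε / 2 + ε / 2 := add_lt_add hx.1 h4.1
      _ = ε := add_halves ε
  · rw [he' _ hx, dist_self]
    exact hε

/-- elements of `HamBar n` are uniform limits of Hamiltonian diffeomorphisms -/
lemma exists_isHam_near {g : E n ≃ₜ E n} (hg : g ∈ HamBar n) {ε : ℝ} (hε : 0 < ε) :
    ∃ u : E n ≃ₜ E n, IsHam n u ∧ ∀ x, dist (u x) (g x) < ε := by
  obtain ⟨K, _, _, hg⟩ := exists_GS hg
  obtain ⟨u, hu, _, hud⟩ := hg.2 ε hε
  exact ⟨u, hu, hud⟩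

/-- nontrivial normal subgroups are dense -/
theorem dense_normal (hn : 1 ≤ n) {L : Subgroup (E n ≃ₜ E n)} (hL : Big L) (hLH : L ≤ HamBar n)
    {N : Subgroup L} (hN : N.Normal) (hN1 : N ≠ ⊥) (g : L) {ε : ℝ} (hε : 0 < ε) :
    ∃ h ∈ N, ∀ x : E n, dist (h • x) (g • x) < ε := by
  obtain ⟨u, hu, hud⟩ := exists_isHam_near (hLH g.2) (half_pos hε)
  obtain ⟨m, hm, hmx⟩ := dense_Mo hn hL hu (half_pos hε)
  refine ⟨m, (sysL hn hL).Mo_le hN1 (fun a _ b hb => hN.conj_mem b hb a) hm, fun x => ?_⟩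
  calc dist (m • x) (g • x) ≤ dist (m • x) (u x) + dist (u x) (g • x) := dist_triangle _ _ _
    _ < ε / 2 + ε / 2 := add_lt_add (hmx x) (hud x)
    _ = ε := add_halves ε

/-! ### Fragmentation into balls -/

lemma Frg_eq {s : ℝ} (h0 : 0 < s) (h1 : s ≤ 1) : Frg n s = Sml n s h0 h1 := by
  ext g
  constructor
  · rintro ⟨a, b, h⟩
    have h : ∀ x : E n, g • (a • (s • x)) = a • (s • (b • x)) := h
    refine ⟨a, b, ?_⟩
    apply ext_smul
    intro x
    rw [mul_smul, mul_smul, sc_smul, ← h, smul_inv_smul₀ h0.ne', smul_inv_smul]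
  · rintro ⟨a, b, rfl⟩
    refine ⟨a, b, fun x => ?_⟩
    change (a * (sc n s h0 h1).a b * a⁻¹) • (a • (s • x)) = a • (s • (b • x))
    rw [mul_smul, mul_smul, inv_smul_smul, sc_smul, inv_smul_smul₀ h0.ne']

lemma eq_sc {r : ℝ} (h0 : 0 < r) (h1 : r ≤ 1) {f g : G n} :
    (∀ x : E n, g • (r • x) = r • (f • x)) ↔ g = (sc n r h0 h1).a f := by
  constructor
  · intro h
    apply ext_smul
    intro x
    rw [sc_smul, ← h, smul_inv_smul₀ h0.ne']
  · rintro rfl x
    rw [sc_smul, inv_smul_smul₀ h0.ne']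

lemma sc_sc {s t : ℝ} (hs0 : 0 < s) (hs1 : s ≤ 1) (ht0 : 0 < t) (ht1 : t ≤ 1) (hst0 : 0 < s * t)
    (hst1 : s * t ≤ 1) (g : G n) :
    (sc n s hs0 hs1).a ((sc n t ht0 ht1).a g) = (sc n (s * t) hst0 hst1).a g := by
  refine HT.a_comp _ _ _ ?_ ?_ g
  · change (0 : E n) = 0 + s • (0 : E n)
    rw [smul_zero, add_zero]
  · rfl

lemma closure_Sml_normal {s : ℝ} (h0 : 0 < s) (h1 : s ≤ 1) :
    (Subgroup.closure (Sml n s h0 h1)).Normal := by
  rw [closure_Sml]; exact Subgroup.normalClosure_normal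

lemma top_congr {s t : ℝ} (e : s = t) (h0 : 0 < s) (h1 : s ≤ 1) (h0' : 0 < t) (h1' : t ≤ 1)
    (h : Subgroup.closure (Sml n s h0 h1) = ⊤) : Subgroup.closure (Sml n t h0' h1') = ⊤ := by
  subst e
  exact h

/-- one radius suffices -/
theorem fragBalls_of_one {s : ℝ} (h0 : 0 < s) (h1 : s < 1)
    (h : Subgroup.closure (Sml n s h0 h1.le) = ⊤) : FragBalls n := by
  -- the square
  have step : ∀ (t : ℝ) (t0 : 0 < t) (t1 : t < 1), Subgroup.closure (Sml n t t0 t1.le) = ⊤ →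
      ∀ (q0 : 0 < t * t) (q1 : t * t < 1), Subgroup.closure (Sml n (t * t) q0 q1.le) = ⊤ := by
    intro t t0 t1 ht q0 q1
    rw [eq_top_iff, ← ht, Subgroup.closure_le]
    rintro _ ⟨a, b, rfl⟩
    refine (closure_Sml_normal q0 q1.le).conj_mem _ ?_ a
    have hb : b ∈ Subgroup.closure (Sml n t t0 t1.le) := by rw [ht]; trivial
    have h2 : (sc n t t0 t1.le).a b ∈
        (Subgroup.closure (Sml n t t0 t1.le)).map (sc n t t0 t1.le).a :=
      Subgroup.mem_map_of_mem _ hb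
    rw [MonoidHom.map_closure] at h2
    refine Subgroup.closure_mono ?_ h2
    rintro _ ⟨_, ⟨c, d, rfl⟩, rfl⟩
    refine ⟨(sc n t t0 t1.le).a c, d, ?_⟩
    rw [map_mul, map_mul, map_inv, sc_sc t0 t1.le t0 t1.le q0 q1.le]
  have iter : ∀ k : ℕ, ∀ (q0 : 0 < s ^ (2 ^ k)) (q1 : s ^ (2 ^ k) < 1),
      Subgroup.closure (Sml n (s ^ (2 ^ k)) q0 q1.le) = ⊤ := by
    intro k
    induction k with
    | zero =>
      intro q0 q1
      exact top_congr (by simp) h0 h1.le q0 q1.le h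
    | succ k ih =>
      intro q0 q1
      have e : s ^ (2 ^ (k + 1)) = s ^ (2 ^ k) * s ^ (2 ^ k) := by
        rw [pow_succ 2 k, pow_mul]; ring
      have p0 : 0 < s ^ (2 ^ k) := pow_pos h0 _
      have p1 : s ^ (2 ^ k) < 1 := pow_lt_one₀ h0.le h1 (by positivity)
      exact top_congr e.symm (by positivity) (by nlinarith) q0 q1.le
        (step _ p0 p1 (ih p0 p1) (by positivity) (by nlinarith))
  intro t t0 t1
  obtain ⟨k, hk⟩ := exists_pow_lt_of_lt_one t0 h1
  have hk2 : s ^ (2 ^ k) ≤ t :=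
    (pow_le_pow_of_le_one h0.le h1.le (Nat.lt_two_pow_self).le).trans hk.le
  have p0 : 0 < s ^ (2 ^ k) := pow_pos h0 _
  have p1 : s ^ (2 ^ k) < 1 := pow_lt_one₀ h0.le h1 (by positivity)
  rw [eq_top_iff, ← iter k p0 p1]
  apply Subgroup.closure_mono
  rintro _ ⟨a, b, rfl⟩
  have hq0 : 0 < s ^ (2 ^ k) / t := by positivity
  have hq1 : s ^ (2 ^ k) / t ≤ 1 := by rw [div_le_one t0]; exact hk2
  have e : t * (s ^ (2 ^ k) / t) = s ^ (2 ^ k) := by field_simp
  refine ⟨a, (sc n (s ^ (2 ^ k) / t) hq0 hq1).a b, ?_⟩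
  rw [sc_sc t0 t1.le hq0 hq1 (by rw [e]; exact p0) (by rw [e]; exact p1.le)]
  simp only [e]

end Pool.Agent.W_MP_68f289_gt
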