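import Pool.Agent.W_MP_68f289_gt.Gn

/-!
Infinite products with disjoint supports.
-/

open Set Metric Topology commutatorElement
open scoped NNReal ContDiff

namespace Pool.Agent.W_MP_68f289_gt

variable {n : ℕ}

/-- disjoint sets with diameters tending to zero -/
structure Dis (W : ℕ → Set (E n)) : Prop where
  disj : ∀ j k, j ≠ k → Disjoint (W j) (W k)
  small : ∀ ε : ℝ, 0 < ε → ∃ N : ℕ, ∀ k, N ≤ k → ∀ x ∈ W k, ∀ y ∈ W k, dist x y < ε

lemma Dis.eq {W : ℕ → Set (E n)} (hW : Dis W) {j k : ℕ} {x : E n} (hj : x ∈ W j) (hk : x ∈ W k) :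
    j = k := by
  by_contra h
  exact Set.disjoint_left.1 (hW.disj j k h) hj hk

lemma Dis.mono {W W' : ℕ → Set (E n)} (hW : Dis W') (h : ∀ k, W k ⊆ W' k) : Dis W where
  disj j k hjk := (hW.disj j k hjk).mono (h j) (h k)
  small ε hε := by
    obtain ⟨N, hN⟩ := hW.small ε hε
    exact ⟨N, fun k hk x hx y hy => hN k hk x (h k hx) y (h k hy)⟩

lemma Dis.succ {W : ℕ → Set (E n)} (hW : Dis W) : Dis (fun k => W (k + 1)) where
  disj j k hjk := hW.disj _ _ (by omega)
  small ε hε := by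
    obtain ⟨N, hN⟩ := hW.small ε hε
    exact ⟨N, fun k hk x hx y hy => hN (k + 1) (by omega) x hx y hy⟩

/-- sequences of elements with prescribed supports -/
def Sg (W : ℕ → Set (E n)) (R : ℝ) : Subgroup (ℕ → G n) where
  carrier := {g | ∀ k, g k ∈ Gn n R ∧ Off (g k) (W k)}
  one_mem' k := ⟨one_mem _, Off.one _⟩
  mul_mem' ha hb k := ⟨mul_mem (ha k).1 (hb k).1, (ha k).2.mul (hb k).2⟩
  inv_mem' ha k := ⟨inv_mem (ha k).1, (ha k).2.inv⟩

/-- finite products -/
def fp (g : ℕ → G n) : ℕ → G n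
  | 0 => 1
  | N + 1 => fp g N * g N

lemma fp_Gn {W : ℕ → Set (E n)} {R : ℝ} {g : ℕ → G n} (hg : g ∈ Sg W R) (N : ℕ) :
    fp g N ∈ Gn n R := by
  induction N with
  | zero => exact one_mem _
  | succ N ih => exact mul_mem ih (hg N).1

lemma fp_out {W : ℕ → Set (E n)} {R : ℝ} {g : ℕ → G n} (hg : g ∈ Sg W R) (N : ℕ) {x : E n}
    (hx : ∀ k < N, x ∉ W k) : fp g N • x = x := by
  induction N with
  | zero => exact one_smul _ x
  | succ N ih =>
    rw [fp, mul_smul, (hg N).2 x (hx N (Nat.lt_succ_self N))]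
    exact ih fun k hk => hx k (by omega)

lemma fp_in {W : ℕ → Set (E n)} (hW : Dis W) {R : ℝ} {g : ℕ → G n} (hg : g ∈ Sg W R) (N : ℕ)
    {x : E n} {k : ℕ} (hk : k < N) (hx : x ∈ W k) : fp g N • x = g k • x := by
  induction N with
  | zero => omega
  | succ N ih =>
    rw [fp, mul_smul]
    by_cases h : k = N
    · subst h
      apply fp_out hg
      intro j hj hj'
      have := hW.eq ((hg k).2.smul_mem hx) hj'
      omega
    · rw [(hg N).2 x fun h' => h (hW.eq hx h')]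
      exact ih (by omega)

lemma fp_inv_in {W : ℕ → Set (E n)} (hW : Dis W) {R : ℝ} {g : ℕ → G n} (hg : g ∈ Sg W R)
    (N : ℕ) {x : E n} {k : ℕ} (hk : k < N) (hx : x ∈ W k) :
    (fp g N)⁻¹ • x = (g k)⁻¹ • x := by
  rw [inv_smul_eq_iff, fp_in hW hg N hk ((hg k).2.inv.smul_mem hx), smul_inv_smul]

lemma fp_inv_out {W : ℕ → Set (E n)} {R : ℝ} {g : ℕ → G n} (hg : g ∈ Sg W R) (N : ℕ)
    {x : E n} (hx : ∀ k < N, x ∉ W k) : (fp g N)⁻¹ • x = x := by
  rw [inv_smul_eq_iff, fp_out hg N hx]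

open Classical in
/-- the infinite product, as a map -/
noncomputable def pf (W : ℕ → Set (E n)) (g : ℕ → G n) (x : E n) : E n :=
  if h : ∃ k, x ∈ W k then g h.choose • x else x

lemma pf_in {W : ℕ → Set (E n)} (hW : Dis W) (g : ℕ → G n) {k : ℕ} {x : E n} (hx : x ∈ W k) :
    pf W g x = g k • x := by
  have h : ∃ k, x ∈ W k := ⟨k, hx⟩
  rw [pf, dif_pos h]
  have := hW.eq h.choose_spec hx
  rw [this]

lemma pf_out {W : ℕ → Set (E n)} (g : ℕ → G n) {x : E n} (hx : ∀ k, x ∉ W k) :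
    pf W g x = x := by
  rw [pf, dif_neg]
  rintro ⟨k, hk⟩
  exact hx k hk

lemma exists_ip {W : ℕ → Set (E n)} (hW : Dis W) {R : ℝ} (hR0 : 0 ≤ R) (hR1 : R < 1)
    (g : Sg W R) : ∃ h ∈ Gn n R, (∀ k, ∀ x ∈ W k, h • x = g.1 k • x) ∧
      ∀ x : E n, (∀ k, x ∉ W k) → h • x = x := by
  have key : ∀ g : Sg W R, ∀ x, pf W g.1 (pf W (g⁻¹).1 x) = x := by
    intro g x
    by_cases h : ∃ k, x ∈ W k
    · obtain ⟨k, hk⟩ := h
      rw [pf_in hW _ hk]
      have h1 : (g⁻¹).1 k • x ∈ W k := ((g⁻¹).2 k).2.smul_mem hk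
      rw [pf_in hW _ h1]
      change g.1 k • ((g.1 k)⁻¹ • x) = x
      rw [smul_inv_smul]
    · push Not at h
      rw [pf_out _ h, pf_out _ h]
  obtain ⟨h, hh, hhx⟩ := mk_lim hR0 hR1 (P := pf W g.1) (Q := pf W (g⁻¹).1) (key g)
    (fun x => by have := key g⁻¹ x; rwa [inv_inv] at this) (by
      intro ε hε
      obtain ⟨N, hN⟩ := hW.small ε hε
      refine ⟨fp g.1 N, fp_Gn g.2 N, fun x => ?_⟩
      by_cases h : ∃ k, x ∈ W k
      · obtain ⟨k, hk⟩ := h
        rw [pf_in hW _ hk, pf_in hW _ hk]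
        by_cases hkN : k < N
        · rw [fp_in hW g.2 N hkN hk, fp_inv_in hW g.2 N hkN hk]
          change dist (g.1 k • x) (g.1 k • x) < ε ∧ dist ((g.1 k)⁻¹ • x) ((g.1 k)⁻¹ • x) < ε
          rw [dist_self, dist_self]
          exact ⟨hε, hε⟩
        · have h1 : ∀ j < N, x ∉ W j := fun j hj hj' => by
            have := hW.eq hk hj'
            omega
          rw [fp_out g.2 N h1, fp_inv_out g.2 N h1]
          exact ⟨hN k (by omega) _ ((g.2 k).2.smul_mem hk) _ hk,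
            hN k (by omega) _ ((g.2 k).2.inv.smul_mem hk) _ hk⟩
      · push Not at h
        rw [pf_out _ h, pf_out _ h, fp_out g.2 N fun k _ => h k, fp_inv_out g.2 N fun k _ => h k,
          dist_self]
        exact ⟨hε, hε⟩)
  exact ⟨h, hh, fun k x hx => by rw [hhx, pf_in hW _ hx], fun x hx => by rw [hhx, pf_out _ hx]⟩

lemma ext_smul {g h : G n} (e : ∀ x : E n, g • x = h • x) : g = h :=
  FaithfulSMul.eq_of_smul_eq_smul e

/-- infinite products as a homomorphism -/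
noncomputable def ip {W : ℕ → Set (E n)} (hW : Dis W) {R : ℝ} (hR0 : 0 ≤ R) (hR1 : R < 1) :
    Sg W R →* HamBar n where
  toFun g := (exists_ip hW hR0 hR1 g).choose
  map_one' := by
    obtain ⟨_, h1, h2⟩ := (exists_ip hW hR0 hR1 1).choose_spec
    apply ext_smul
    intro x
    by_cases h : ∃ k, x ∈ W k
    · obtain ⟨k, hk⟩ := h
      rw [h1 k x hk]; rfl
    · push Not at h
      rw [h2 x h, one_smul]
  map_mul' a b := by
    obtain ⟨_, h1, h2⟩ := (exists_ip hW hR0 hR1 (a * b)).choose_spec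
    obtain ⟨_, h3, h4⟩ := (exists_ip hW hR0 hR1 a).choose_spec
    obtain ⟨_, h5, h6⟩ := (exists_ip hW hR0 hR1 b).choose_spec
    apply ext_smul
    intro x
    rw [mul_smul]
    by_cases h : ∃ k, x ∈ W k
    · obtain ⟨k, hk⟩ := h
      rw [h1 k x hk, h5 k x hk, h3 k _ ((b.2 k).2.smul_mem hk)]
      change (a.1 k * b.1 k) • x = _
      rw [mul_smul]
    · push Not at h
      rw [h2 x h, h6 x h, h4 x h]

lemma ip_in {W : ℕ → Set (E n)} (hW : Dis W) {R : ℝ} (hR0 : 0 ≤ R) (hR1 : R < 1) (g : Sg W R)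
    {k : ℕ} {x : E n} (hx : x ∈ W k) : ip hW hR0 hR1 g • x = g.1 k • x :=
  (exists_ip hW hR0 hR1 g).choose_spec.2.1 k x hx

lemma ip_out {W : ℕ → Set (E n)} (hW : Dis W) {R : ℝ} (hR0 : 0 ≤ R) (hR1 : R < 1) (g : Sg W R)
    {x : E n} (hx : ∀ k, x ∉ W k) : ip hW hR0 hR1 g • x = x :=
  (exists_ip hW hR0 hR1 g).choose_spec.2.2 x hx

lemma ip_mono {W W' : ℕ → Set (E n)} (hW : Dis W) (hW' : Dis W') {R : ℝ} (hR0 : 0 ≤ R)
    (hR1 : R < 1) (g : Sg W R) (g' : Sg W' R) (e : g.1 = g'.1) (h : ∀ k, W k ⊆ W' k) :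
    ip hW hR0 hR1 g = ip hW' hR0 hR1 g' := by
  apply ext_smul
  intro x
  by_cases hx : ∃ k, x ∈ W k
  · obtain ⟨k, hk⟩ := hx
    rw [ip_in hW hR0 hR1 g hk, ip_in hW' hR0 hR1 g' (h k hk), e]
  · push Not at hx
    rw [ip_out hW hR0 hR1 g hx]
    by_cases hx' : ∃ k, x ∈ W' k
    · obtain ⟨k, hk⟩ := hx'
      rw [ip_in hW' hR0 hR1 g' hk, ← e, (g.2 k).2 x (hx k)]
    · push Not at hx'
      rw [ip_out hW' hR0 hR1 g' hx']

lemma ip_succ {W : ℕ → Set (E n)} (hW : Dis W) {R : ℝ} (hR0 : 0 ≤ R) (hR1 : R < 1) (g : Sg W R)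
    (g' : Sg (fun k => W (k + 1)) R) (e : ∀ k, g.1 (k + 1) = g'.1 k) :
    ip hW hR0 hR1 g = g.1 0 * ip hW.succ hR0 hR1 g' := by
  apply ext_smul
  intro x
  rw [mul_smul]
  by_cases hx : ∃ k, x ∈ W k
  · obtain ⟨k, hk⟩ := hx
    rw [ip_in hW hR0 hR1 g hk]
    rcases k with _ | k
    · rw [ip_out]
      intro j hj
      have := hW.eq hk hj
      omega
    · rw [ip_in hW.succ hR0 hR1 g' (k := k) hk, ← e]
      rw [(g.2 0).2]
      intro h0
      have := hW.eq ((g.2 (k + 1)).2.smul_mem hk) h0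
      omega
  · push Not at hx
    rw [ip_out hW hR0 hR1 g hx, ip_out hW.succ hR0 hR1 g' fun k => hx (k + 1), (g.2 0).2 x (hx 0)]

/-! ### Products of commutators -/

/-- products of `m` commutators of elements of `H` -/
def CW {Gr : Type*} [Group Gr] (H : Subgroup Gr) (m : ℕ) (w : Gr) : Prop :=
  ∃ l : List (Gr × Gr), l.length = m ∧ (∀ p ∈ l, p.1 ∈ H ∧ p.2 ∈ H) ∧
    w = (l.map fun p => ⁅p.1, p.2⁆).prod

lemma CW_conj {Gr : Type*} [Group Gr] {H : Subgroup Gr} {m : ℕ} {w : Gr} (hw : CW H m w) {x : Gr}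
    (hx : x ∈ H) : CW H m (x * w * x⁻¹) := by
  obtain ⟨l, hl, hlH, rfl⟩ := hw
  refine ⟨l.map fun p => (x * p.1 * x⁻¹, x * p.2 * x⁻¹), by rw [List.length_map, hl], ?_, ?_⟩
  · intro p hp
    obtain ⟨q, hq, rfl⟩ := List.mem_map.1 hp
    exact ⟨mul_mem (mul_mem hx (hlH q hq).1) (inv_mem hx),
      mul_mem (mul_mem hx (hlH q hq).2) (inv_mem hx)⟩
  · rw [List.map_map]
    have h1 : x * (List.map (fun p : Gr × Gr => ⁅p.1, p.2⁆) l).prod * x⁻¹ =
        MulAut.conj x (List.map (fun p : Gr × Gr => ⁅p.1, p.2⁆) l).prod := rfl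
    rw [h1, map_list_prod, List.map_map]
    congr 1
    apply List.map_congr_left
    intro p _
    simp only [Function.comp_apply, MulAut.conj_apply, commutatorElement_def]
    group

lemma CW_conjs {Gr : Type*} [Group Gr] {H : Subgroup Gr} (l : List (Gr × Gr))
    (hl : ∀ p ∈ l, p.1 ∈ H ∧ p.2 ∈ H) :
    CW H l.length ((l.map fun p => p.1 * p.2 * p.1⁻¹).prod * (l.map fun p => p.2).prod⁻¹) := by
  induction l with
  | nil => exact ⟨[], rfl, by simp, by simp⟩
  | cons p l ih =>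
    have hp := hl p (by simp)
    have ih' := ih fun q hq => hl q (by simp [hq])
    obtain ⟨l', hl', hlH', e⟩ := CW_conj ih' hp.2
    refine ⟨(p.1, p.2) :: l', by simp [hl'], ?_, ?_⟩
    · intro q hq
      rcases List.mem_cons.1 hq with rfl | hq
      · exact hp
      · exact hlH' q hq
    · rw [List.map_cons, List.prod_cons, List.map_cons, List.prod_cons, List.map_cons,
        List.prod_cons, ← e]
      simp only [commutatorElement_def]
      group

lemma ip_comm {W : ℕ → Set (E n)} (hW : Dis W) {R : ℝ} (hR0 : 0 ≤ R) (hR1 : R < 1) (w : Sg W R)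
    {m : ℕ} (hw : ∀ k, ∃ l : List (G n × G n), l.length = m ∧
      (∀ p ∈ l, (p.1 ∈ Gn n R ∧ Off p.1 (W k)) ∧ (p.2 ∈ Gn n R ∧ Off p.2 (W k))) ∧
      w.1 k = (l.map fun p => ⁅p.1, p.2⁆).prod) : ip hW hR0 hR1 w ∈ commutator (G n) := by
  choose l hl hlm hlw using hw
  set X : Fin m → Sg W R := fun i => ⟨fun k => ((l k).get (i.cast (hl k).symm)).1,
    fun k => (hlm k _ (List.get_mem (l k) _)).1⟩ with hX
  set Y : Fin m → Sg W R := fun i => ⟨fun k => ((l k).get (i.cast (hl k).symm)).2,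
    fun k => (hlm k _ (List.get_mem (l k) _)).2⟩ with hY
  have e : w = ((List.finRange m).map fun i => ⁅X i, Y i⁆).prod := by
    apply Subtype.ext
    funext k
    rw [hlw k]
    set ev : Sg W R →* HamBar n := (Pi.evalMonoidHom (fun _ : ℕ => HamBar n) k).comp
      (Sg W R).subtype with hev
    have h1 : (((List.finRange m).map fun i => ⁅X i, Y i⁆).prod : Sg W R).1 k =
        ev ((List.finRange m).map fun i => ⁅X i, Y i⁆).prod := rfl
    rw [h1, map_list_prod, List.map_map]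
    congr 1
    have h2 : (List.finRange m).map (ev ∘ fun i => ⁅X i, Y i⁆) =
        (List.finRange m).map ((fun p : G n × G n => ⁅p.1, p.2⁆) ∘
          fun i : Fin m => (l k).get (i.cast (hl k).symm)) := by
      apply List.map_congr_left
      intro i _
      simp only [Function.comp_apply, map_commutatorElement]
      rfl
    rw [h2, ← List.map_map]
    congr 1
    apply List.ext_getElem
    · simp [hl k]
    · intro i h3 h4
      simp
  rw [e, map_list_prod]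
  apply Subgroup.list_prod_mem
  intro y hy
  rw [List.map_map] at hy
  obtain ⟨i, _, rfl⟩ := List.mem_map.1 hy
  rw [Function.comp_apply, map_commutatorElement, commutator_def]
  exact Subgroup.commutator_mem_commutator (Subgroup.mem_top _) (Subgroup.mem_top _)

end Pool.Agent.W_MP_68f289_gt
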