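import Pool.Agent.W_MP_68f289_gt.Ham

/-!
Closure properties of time-one maps of Hamiltonian flows: products, inverses, and conjugation by
homotheties.
-/

open Set Metric Topology
open scoped NNReal ContDiff

namespace Pool.Agent.W_MP_68f289_gt

variable {n : ℕ}

lemma isHam_iff {u : E n ≃ₜ E n} : IsHam n u ↔ ∃ H ψ, HIso n H ψ ∧ ∀ x, u x = ψ 1 x := Iff.rfl

lemma HIso.smooth_t {H : ℝ → E n → ℝ} {ψ : ℝ → E n → E n} (h : HIso n H ψ) (t : ℝ) :
    Differentiable ℝ (H t) :=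
  (h.smooth.comp (contDiff_const.prodMk contDiff_id)).differentiable (by simp)

lemma isHam_one : IsHam n (1 : E n ≃ₜ E n) := by
  rw [isHam_iff]
  refine ⟨fun _ _ => 0, fun _ x => x, ⟨contDiff_const, ⟨∅, isCompact_empty, empty_subset _,
    fun _ _ _ => rfl⟩, fun _ => rfl, fun t x => ?_⟩, fun _ => rfl⟩
  rw [XH_zero]
  exact hasDerivAt_const _ _

/-- the smooth transition function -/
noncomputable abbrev th : ℝ → ℝ := Real.smoothTransition

lemma th_smooth : ContDiff ℝ ((⊤ : ℕ∞) : WithTop ℕ∞) th := Real.smoothTransition.contDiff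

lemma th_comp_smooth (a b : ℝ) :
    ContDiff ℝ ((⊤ : ℕ∞) : WithTop ℕ∞) (fun t : ℝ => th (a * t - b)) :=
  th_smooth.comp ((contDiff_const.mul contDiff_id).sub contDiff_const)

lemma isHam_mul {u v : E n ≃ₜ E n} (hu : IsHam n u) (hv : IsHam n v) : IsHam n (u * v) := by
  rw [isHam_iff] at *
  obtain ⟨Hu, pu, hu, hu1⟩ := hu
  obtain ⟨Hv, pv, hv, hv1⟩ := hv
  set r1 : ℝ → ℝ := fun t => th (3 * t - 0) with hr1
  set r2 : ℝ → ℝ := fun t => th (3 * t - 2) with hr2
  have hr1s : ContDiff ℝ ((⊤ : ℕ∞) : WithTop ℕ∞) r1 := th_comp_smooth 3 0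
  have hr2s : ContDiff ℝ ((⊤ : ℕ∞) : WithTop ℕ∞) r2 := th_comp_smooth 3 2
  have hr1d : ContDiff ℝ ((⊤ : ℕ∞) : WithTop ℕ∞) (deriv r1) := (contDiff_infty_iff_deriv.1 hr1s).2
  have hr2d : ContDiff ℝ ((⊤ : ℕ∞) : WithTop ℕ∞) (deriv r2) := (contDiff_infty_iff_deriv.1 hr2s).2
  have h1 : ∀ t : ℝ, 1 / 3 < t → r1 =ᶠ[𝓝 t] fun _ => 1 := by
    intro t ht
    filter_upwards [Ioi_mem_nhds ht] with s hs
    exact Real.smoothTransition.one_of_one_le (by have : 1 / 3 < s := hs; linarith)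
  have h2 : ∀ t : ℝ, t < 2 / 3 → r2 =ᶠ[𝓝 t] fun _ => 0 := by
    intro t ht
    filter_upwards [Iio_mem_nhds ht] with s hs
    exact Real.smoothTransition.zero_of_nonpos (by have : s < 2 / 3 := hs; linarith)
  have hd1 : ∀ t, HasDerivAt r1 (deriv r1 t) t := fun t =>
    (hr1s.differentiable (by simp) t).hasDerivAt
  have hd2 : ∀ t, HasDerivAt r2 (deriv r2 t) t := fun t =>
    (hr2s.differentiable (by simp) t).hasDerivAt
  refine ⟨fun t x => deriv r1 t * Hv (r1 t) x + deriv r2 t * Hu (r2 t) x,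
    fun t x => pu (r2 t) (pv (r1 t) x), ⟨?_, ?_, ?_, ?_⟩, ?_⟩
  · refine ContDiff.add ?_ ?_
    · exact (hr1d.comp contDiff_fst).mul (hv.smooth.comp ((hr1s.comp contDiff_fst).prodMk contDiff_snd))
    · exact (hr2d.comp contDiff_fst).mul (hu.smooth.comp ((hr2s.comp contDiff_fst).prodMk contDiff_snd))
  · obtain ⟨K, hK, hKB, hKs⟩ := hu.supp
    obtain ⟨K', hK', hKB', hKs'⟩ := hv.supp
    refine ⟨K ∪ K', hK.union hK', union_subset hKB hKB', fun t x hx => ?_⟩
    rw [mem_union, not_or] at hx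
    rw [hKs _ _ hx.1, hKs' _ _ hx.2]; ring
  · intro x
    have e1 : r1 0 = 0 := Real.smoothTransition.zero_of_nonpos (by norm_num)
    have e2 : r2 0 = 0 := Real.smoothTransition.zero_of_nonpos (by norm_num)
    rw [e1, e2, hu.zero, hv.zero]
  · intro t x
    rcases lt_or_ge t (2 / 3) with ht | ht
    · have e0 : r2 t = 0 := (h2 t ht).eq_of_nhds
      have e1 : deriv r2 t = 0 := by rw [(h2 t ht).deriv_eq, deriv_const]
      have e2 : (fun s => pu (r2 s) (pv (r1 s) x)) =ᶠ[𝓝 t] fun s => pv (r1 s) x := by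
        filter_upwards [h2 t ht] with s hs
        rw [hs, hu.zero]
      refine HasDerivAt.congr_of_eventuallyEq ?_ e2
      have e3 : (fun x => deriv r1 t * Hv (r1 t) x + deriv r2 t * Hu (r2 t) x) =
          fun x => deriv r1 t * Hv (r1 t) x := by
        funext y; rw [e1]; ring
      rw [e3, XH_const_mul (hv.smooth_t _ _), e0, hu.zero]
      exact (hv.der (r1 t) x).scomp t (hd1 t)
    · have ht' : 1 / 3 < t := by linarith
      have e0 : r1 t = 1 := (h1 t ht').eq_of_nhds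
      have e1 : deriv r1 t = 0 := by rw [(h1 t ht').deriv_eq, deriv_const]
      have e2 : (fun s => pu (r2 s) (pv (r1 s) x)) =ᶠ[𝓝 t] fun s => pu (r2 s) (pv 1 x) := by
        filter_upwards [h1 t ht'] with s hs
        rw [hs]
      refine HasDerivAt.congr_of_eventuallyEq ?_ e2
      have e3 : (fun x => deriv r1 t * Hv (r1 t) x + deriv r2 t * Hu (r2 t) x) =
          fun x => deriv r2 t * Hu (r2 t) x := by
        funext y; rw [e1]; ring
      rw [e3, XH_const_mul (hu.smooth_t _ _), e0]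
      exact (hu.der (r2 t) (pv 1 x)).scomp t (hd2 t)
  · intro x
    have e1 : r1 1 = 1 := Real.smoothTransition.one_of_one_le (by norm_num)
    have e2 : r2 1 = 1 := Real.smoothTransition.one_of_one_le (by norm_num)
    change u (v x) = pu (r2 1) (pv (r1 1) x)
    rw [e1, e2, ← hv1, ← hu1]

lemma isHam_inv {u : E n ≃ₜ E n} (hu : IsHam n u) : IsHam n u⁻¹ := by
  rw [isHam_iff] at *
  obtain ⟨H, p, hu, hu1⟩ := hu
  refine ⟨fun t x => (-1) * H (1 - t) x, fun t x => p (1 - t) (u⁻¹ x), ⟨?_, ?_, ?_, ?_⟩, ?_⟩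
  · exact contDiff_const.mul (hu.smooth.comp ((contDiff_const.sub contDiff_fst).prodMk contDiff_snd))
  · obtain ⟨K, hK, hKB, hKs⟩ := hu.supp
    exact ⟨K, hK, hKB, fun t x hx => by rw [hKs _ _ hx, mul_zero]⟩
  · intro x
    rw [sub_zero, ← hu1]
    exact u.apply_symm_apply x
  · intro t x
    rw [XH_const_mul (hu.smooth_t _ _)]
    have h1 : HasDerivAt (fun s : ℝ => 1 - s) (-1) t := by
      simpa using (hasDerivAt_id t).const_sub 1
    exact (hu.der (1 - t) (u⁻¹ x)).scomp t h1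
  · intro x
    change u⁻¹ x = p (1 - 1) (u⁻¹ x)
    rw [sub_self, hu.zero]

/-- the homothety `x ↦ c + r x` -/
noncomputable def aff (c : E n) (r : ℝ) (hr : r ≠ 0) : E n ≃ₜ E n :=
  (Homeomorph.smulOfNeZero r hr).trans (Homeomorph.addLeft c)

lemma aff_apply (c : E n) (r : ℝ) (hr : r ≠ 0) (x : E n) : aff c r hr x = c + r • x := rfl

lemma aff_symm_apply (c : E n) (r : ℝ) (hr : r ≠ 0) (x : E n) :
    (aff c r hr).symm x = r⁻¹ • (x - c) := by
  rw [Homeomorph.symm_apply_eq, aff_apply, smul_inv_smul₀ hr, add_sub_cancel]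

lemma aff_inv_apply (c : E n) (r : ℝ) (hr : r ≠ 0) (x : E n) :
    (aff c r hr)⁻¹ x = r⁻¹ • (x - c) := aff_symm_apply c r hr x

lemma XH_aff {h : E n → ℝ} (hd : Differentiable ℝ h) (c : E n) (r : ℝ) (hr : r ≠ 0) (z : E n) :
    XH (fun x => r ^ 2 * h (r⁻¹ • (x - c))) z = r • XH h (r⁻¹ • (z - c)) := by
  have h1 : HasFDerivAt (fun x : E n => r⁻¹ • (x - c)) (r⁻¹ • ContinuousLinearMap.id ℝ (E n)) z :=
    ((hasFDerivAt_id z).sub_const c).const_smul r⁻¹
  have h2 := ((hd (r⁻¹ • (z - c))).hasFDerivAt.comp z h1)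
  have h3 : HasFDerivAt (fun x => h (r⁻¹ • (x - c)))
    ((fderiv ℝ h (r⁻¹ • (z - c))).comp (r⁻¹ • ContinuousLinearMap.id ℝ (E n))) z := h2
  rw [XH_const_mul h3.differentiableAt]
  unfold XH dd
  rw [h3.fderiv]
  ext i
  · simp only [Prod.smul_fst, Pi.smul_apply, smul_eq_mul, ContinuousLinearMap.comp_apply,
      _root_.smul_apply, ContinuousLinearMap.id_apply, map_smul]
    field_simp
  · simp only [Prod.smul_snd, Pi.smul_apply, smul_eq_mul, ContinuousLinearMap.comp_apply,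
      _root_.smul_apply, ContinuousLinearMap.id_apply, map_smul]
    field_simp

lemma isHam_aff {u : E n ≃ₜ E n} (hu : IsHam n u) (c : E n) (r : ℝ) (hr : r ≠ 0)
    (hB : ∀ x ∈ Bl n, c + r • x ∈ Bl n) : IsHam n (aff c r hr * u * (aff c r hr)⁻¹) := by
  rw [isHam_iff] at *
  obtain ⟨H, p, hu, hu1⟩ := hu
  refine ⟨fun t x => r ^ 2 * H t (r⁻¹ • (x - c)), fun t x => c + r • p t (r⁻¹ • (x - c)),
    ⟨?_, ?_, ?_, ?_⟩, ?_⟩
  · exact contDiff_const.mul (hu.smooth.comp (contDiff_fst.prodMk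
      ((contDiff_snd.sub contDiff_const).const_smul r⁻¹)))
  · obtain ⟨K, hK, hKB, hKs⟩ := hu.supp
    refine ⟨aff c r hr '' K, hK.image (aff c r hr).continuous, ?_, fun t x hx => ?_⟩
    · rintro _ ⟨x, hx, rfl⟩
      exact hB x (hKB hx)
    · rw [hKs, mul_zero]
      intro hx'
      exact hx ⟨_, hx', by rw [aff_apply, smul_inv_smul₀ hr, add_sub_cancel]⟩
  · intro x
    rw [hu.zero, smul_inv_smul₀ hr, add_sub_cancel]
  · intro t x
    rw [XH_aff (hu.smooth_t t) c r hr, add_sub_cancel_left, inv_smul_smul₀ hr]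
    exact ((hu.der t (r⁻¹ • (x - c))).const_smul r).const_add c
  · intro x
    change c + r • u ((aff c r hr)⁻¹ x) = _
    rw [aff_inv_apply, hu1]

end Pool.Agent.W_MP_68f289_gt
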