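import Mathlib

/-!
Evolution maps of time dependent vector fields which are bounded and Lipschitz on `[0, 1]`.
-/

open Set Metric Topology
open scoped NNReal

namespace Pool.Agent.W_MP_68f289_gt

variable {F : Type*} [NormedAddCommGroup F] [NormedSpace ℝ F] [CompleteSpace F]

/-- bounded Lipschitz time-dependent vector field on `[0, 1]` -/
structure Good (v : ℝ → F → F) (C : ℝ≥0) : Prop where
  cont : ∀ x, ContinuousOn (fun t => v t x) (Icc 0 1)
  lip : ∀ t ∈ Icc (0 : ℝ) 1, LipschitzWith C (v t)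
  bd : ∀ t ∈ Icc (0 : ℝ) 1, ∀ x, ‖v t x‖ ≤ C

/-- integral curves on `[0, 1]` -/
def IC (v : ℝ → F → F) (α : ℝ → F) : Prop :=
  ∀ t ∈ Icc (0 : ℝ) 1, HasDerivWithinAt α (v t (α t)) (Icc 0 1) t

omit [CompleteSpace F] in
lemma IC.continuousOn {v : ℝ → F → F} {α : ℝ → F} (h : IC v α) : ContinuousOn α (Icc 0 1) :=
  fun t ht => (h t ht).continuousWithinAt

omit [CompleteSpace F] in
lemma IC.right {v : ℝ → F → F} {α : ℝ → F} (h : IC v α) {t : ℝ} (ht : t ∈ Ico (0 : ℝ) 1) :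
    HasDerivWithinAt α (v t (α t)) (Ici t) t :=
  (h t (Ico_subset_Icc_self ht)).mono_of_mem_nhdsWithin (Icc_mem_nhdsGE_of_mem ht)

omit [CompleteSpace F] in
lemma IC.left {v : ℝ → F → F} {α : ℝ → F} (h : IC v α) {t : ℝ} (ht : t ∈ Ioc (0 : ℝ) 1) :
    HasDerivWithinAt α (v t (α t)) (Iic t) t :=
  (h t (Ioc_subset_Icc_self ht)).mono_of_mem_nhdsWithin (Icc_mem_nhdsLE_of_mem ht)

omit [CompleteSpace F] in
lemma Good.unique {v : ℝ → F → F} {C : ℝ≥0} (hv : Good v C) {α β : ℝ → F} (hα : IC v α)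
    (hβ : IC v β) {s : ℝ} (hs : s ∈ Icc (0 : ℝ) 1) (h : α s = β s) :
    EqOn α β (Icc 0 1) := by
  have e : Icc (0 : ℝ) 1 = Icc 0 s ∪ Icc s 1 := (Icc_union_Icc_eq_Icc hs.1 hs.2).symm
  rw [e]
  apply EqOn.union
  · have h1 : Icc 0 s ⊆ Icc (0 : ℝ) 1 := Icc_subset_Icc_right hs.2
    have h2 : Ioc 0 s ⊆ Ioc (0 : ℝ) 1 := Ioc_subset_Ioc_right hs.2
    exact ODE_solution_unique_of_mem_Icc_left (s := fun _ => univ) (K := C)
      (fun t ht => (hv.lip t (Ioc_subset_Icc_self (h2 ht))).lipschitzOnWith)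
      (hα.continuousOn.mono h1) (fun t ht => hα.left (h2 ht)) (fun _ _ => trivial)
      (hβ.continuousOn.mono h1) (fun t ht => hβ.left (h2 ht)) (fun _ _ => trivial) h
  · have h1 : Icc s 1 ⊆ Icc (0 : ℝ) 1 := Icc_subset_Icc_left hs.1
    have h2 : Ico s 1 ⊆ Ico (0 : ℝ) 1 := Ico_subset_Ico_left hs.1
    exact ODE_solution_unique_of_mem_Icc_right (s := fun _ => univ) (K := C)
      (fun t ht => (hv.lip t (Ico_subset_Icc_self (h2 ht))).lipschitzOnWith)
      (hα.continuousOn.mono h1) (fun t ht => hα.right (h2 ht)) (fun _ _ => trivial)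
      (hβ.continuousOn.mono h1) (fun t ht => hβ.right (h2 ht)) (fun _ _ => trivial) h

omit [CompleteSpace F] in
lemma Good.isPL {v : ℝ → F → F} {C : ℝ≥0} (hv : Good v C) (s : Icc (0 : ℝ) 1) (x₀ : F) :
    IsPicardLindelof v s x₀ (C + 1) 1 C C where
  lipschitzOnWith t ht := (hv.lip t ht).lipschitzOnWith
  continuousOn x _ := hv.cont x
  norm_le t ht x _ := hv.bd t ht x
  mul_max_le := by
    have h1 : max (1 - (s : ℝ)) ((s : ℝ) - 0) ≤ 1 := by
      apply max_le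
      · linarith [s.2.1]
      · linarith [s.2.2]
    have h2 : (0 : ℝ) ≤ C := C.2
    push_cast
    nlinarith

lemma Good.exists_flow {v : ℝ → F → F} {C : ℝ≥0} (hv : Good v C) (s : Icc (0 : ℝ) 1) :
    ∃ φ : F → ℝ → F, (∀ x, φ x s = x ∧ IC v (φ x)) ∧
      ∀ t ∈ Icc (0 : ℝ) 1, Continuous (fun x => φ x t) := by
  have h1 : ∀ x₀ : F, ∃ α : F → ℝ → F, (∀ x ∈ closedBall x₀ (1 : ℝ≥0), α x s = x ∧
      ∀ t ∈ Icc (0 : ℝ) 1, HasDerivWithinAt (α x) (v t (α x t)) (Icc 0 1) t) ∧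
      ∃ L' : ℝ≥0, ∀ t ∈ Icc (0 : ℝ) 1, LipschitzOnWith L' (α · t) (closedBall x₀ (1 : ℝ≥0)) :=
    fun x₀ => (hv.isPL s x₀).exists_forall_mem_closedBall_eq_hasDerivWithinAt_lipschitzOnWith
  choose α hα hL using h1
  have hmem : ∀ x : F, x ∈ closedBall x (1 : ℝ≥0) := fun x => mem_closedBall_self (by simp)
  refine ⟨fun x => α x x, fun x => ⟨(hα x x (hmem x)).1, (hα x x (hmem x)).2⟩, ?_⟩
  intro t ht
  rw [continuous_iff_continuousAt]
  intro x₀
  obtain ⟨L', hL'⟩ := hL x₀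
  have h2 : ContinuousAt (fun x => α x₀ x t) x₀ :=
    ((hL' t ht).continuousOn).continuousAt (closedBall_mem_nhds x₀ (by simp))
  refine h2.congr ?_
  filter_upwards [closedBall_mem_nhds x₀ (show (0 : ℝ) < (1 : ℝ≥0) by simp)] with x hx
  have h3 := (hα x₀ x hx)
  have h4 := (hα x x (hmem x))
  exact hv.unique h3.2 h4.2 s.2 (h3.1.trans h4.1.symm) ht

/-- the solution through `(s, x)` -/
noncomputable def Good.sol {v : ℝ → F → F} {C : ℝ≥0} (hv : Good v C) (s : Icc (0 : ℝ) 1) :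
    F → ℝ → F := (hv.exists_flow s).choose

lemma Good.sol_self {v : ℝ → F → F} {C : ℝ≥0} (hv : Good v C) (s : Icc (0 : ℝ) 1) (x : F) :
    hv.sol s x s = x := ((hv.exists_flow s).choose_spec.1 x).1

lemma Good.sol_IC {v : ℝ → F → F} {C : ℝ≥0} (hv : Good v C) (s : Icc (0 : ℝ) 1) (x : F) :
    IC v (hv.sol s x) := ((hv.exists_flow s).choose_spec.1 x).2

lemma Good.sol_cont {v : ℝ → F → F} {C : ℝ≥0} (hv : Good v C) (s t : Icc (0 : ℝ) 1) :
    Continuous (fun x => hv.sol s x t) := (hv.exists_flow s).choose_spec.2 t t.2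

lemma Good.sol_eq {v : ℝ → F → F} {C : ℝ≥0} (hv : Good v C) {s : Icc (0 : ℝ) 1} {x : F}
    {α : ℝ → F} (hα : IC v α) (h : α s = x) {t : ℝ} (ht : t ∈ Icc (0 : ℝ) 1) :
    hv.sol s x t = α t :=
  hv.unique (hv.sol_IC s x) hα s.2 ((hv.sol_self s x).trans h.symm) ht

lemma Good.sol_sol {v : ℝ → F → F} {C : ℝ≥0} (hv : Good v C) (s t r : Icc (0 : ℝ) 1) (x : F) :
    hv.sol t (hv.sol s x t) r = hv.sol s x r :=
  hv.sol_eq (hv.sol_IC s x) rfl r.2

/-- the evolution homeomorphism from time `s` to time `t` -/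
noncomputable def Good.evol {v : ℝ → F → F} {C : ℝ≥0} (hv : Good v C) (s t : Icc (0 : ℝ) 1) :
    F ≃ₜ F where
  toFun x := hv.sol s x t
  invFun x := hv.sol t x s
  left_inv x := by
    change hv.sol t (hv.sol s x t) s = x
    rw [hv.sol_sol, hv.sol_self]
  right_inv x := by
    change hv.sol s (hv.sol t x s) t = x
    rw [hv.sol_sol, hv.sol_self]
  continuous_toFun := hv.sol_cont s t
  continuous_invFun := hv.sol_cont t s

lemma Good.evol_apply {v : ℝ → F → F} {C : ℝ≥0} (hv : Good v C) (s t : Icc (0 : ℝ) 1) (x : F) :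
    hv.evol s t x = hv.sol s x t := rfl

lemma Good.evol_symm_apply {v : ℝ → F → F} {C : ℝ≥0} (hv : Good v C) (s t : Icc (0 : ℝ) 1)
    (x : F) : (hv.evol s t).symm x = hv.sol t x s := rfl

/-- a bound for the speed -/
lemma Good.dist_sol_le {v : ℝ → F → F} {C : ℝ≥0} (hv : Good v C) (s : Icc (0 : ℝ) 1) (x : F)
    {t : ℝ} (ht : t ∈ Icc (0 : ℝ) 1) : ‖hv.sol s x t - x‖ ≤ C * |t - s| := by
  have h1 := (convex_Icc (0 : ℝ) 1).norm_image_sub_le_of_norm_hasDerivWithin_le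
    (f := hv.sol s x) (f' := fun t => v t (hv.sol s x t)) (C := C)
    (fun t ht => hv.sol_IC s x t ht) (fun t ht => hv.bd t ht _) s.2 ht
  rw [hv.sol_self, Real.norm_eq_abs] at h1
  exact h1

end Pool.Agent.W_MP_68f289_gt
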