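import Pool.Agent.W_MP_68f289_gt.Abs
import Pool.Agent.W_MP_68f289_gt.Flow

/-!
Hamiltonian flows on the unit ball, the group of Hamiltonian homeomorphisms, and fragmentation of
smooth Hamiltonian diffeomorphisms.
-/

open Set Metric Topology
open scoped NNReal ContDiff

namespace Pool.Agent.W_MP_68f289_gt

/-- smooth Hamiltonians supported in the compact set `K` of the ball -/
structure Adm (n : ℕ) (H : ℝ → E n → ℝ) (K : Set (E n)) : Prop where
  smooth : ContDiff ℝ ((⊤ : ℕ∞) : WithTop ℕ∞) (Function.uncurry H)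
  comp : IsCompact K
  sub : K ⊆ Bl n
  supp : ∀ t : ℝ, ∀ x, x ∉ K → H t x = 0

variable {n : ℕ}

lemma XH_congr {h h' : E n → ℝ} {z : E n} (e : h =ᶠ[𝓝 z] h') : XH h z = XH h' z := by
  unfold XH dd
  rw [e.fderiv_eq]

lemma XH_zero (z : E n) : XH (fun _ : E n => (0 : ℝ)) z = 0 := by
  unfold XH dd
  rw [fderiv_fun_const]
  ext i <;> simp

lemma XH_const_mul {h : E n → ℝ} {z : E n} (hd : DifferentiableAt ℝ h z) (c : ℝ) :
    XH (fun x => c * h x) z = c • XH h z := by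
  unfold XH dd
  rw [fderiv_const_mul hd]
  ext i <;> simp

lemma Adm.smooth_t {H : ℝ → E n → ℝ} {K : Set (E n)} (hA : Adm n H K) (t : ℝ) :
    ContDiff ℝ ((⊤ : ℕ∞) : WithTop ℕ∞) (H t) :=
  hA.smooth.comp (contDiff_const.prodMk contDiff_id)

lemma Adm.diff {H : ℝ → E n → ℝ} {K : Set (E n)} (hA : Adm n H K) (t : ℝ) :
    Differentiable ℝ (H t) := (hA.smooth_t t).differentiable (by simp)

lemma Adm.XH_smooth {H : ℝ → E n → ℝ} {K : Set (E n)} (hA : Adm n H K) :
    ContDiff ℝ ((⊤ : ℕ∞) : WithTop ℕ∞) (fun p : ℝ × E n => XH (H p.1) p.2) := by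
  have h1 : ∀ w : E n, ContDiff ℝ ((⊤ : ℕ∞) : WithTop ℕ∞)
      (fun p : ℝ × E n => fderiv ℝ (H p.1) p.2 w) := by
    intro w
    refine ContDiff.fderiv_apply (f := fun (p : ℝ × E n) (y : E n) => H p.1 y) (g := fun p => p.2)
      (k := fun _ => w) (m := ((⊤ : ℕ∞) : WithTop ℕ∞)) ?_ contDiff_snd contDiff_const (by simp)
    exact hA.smooth.comp ((contDiff_fst.comp contDiff_fst).prodMk contDiff_snd)
  unfold XH dd
  refine ContDiff.prodMk ?_ ?_
  · exact contDiff_pi.2 fun i => h1 _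
  · exact contDiff_pi.2 fun i => (h1 _).neg

lemma Adm.XH_off {H : ℝ → E n → ℝ} {K : Set (E n)} (hA : Adm n H K) (t : ℝ) {x : E n}
    (hx : x ∉ K) : XH (H t) x = 0 := by
  rw [← XH_zero x]
  apply XH_congr
  filter_upwards [hA.comp.isClosed.isOpen_compl.mem_nhds hx] with y hy
  exact hA.supp t y hy

lemma Adm.exists_good {H : ℝ → E n → ℝ} {K : Set (E n)} (hA : Adm n H K) :
    ∃ C : ℝ≥0, Good (fun t => XH (H t)) C := by
  have hc : Continuous (fun p : ℝ × E n => XH (H p.1) p.2) := hA.XH_smooth.continuous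
  have hK : IsCompact (Icc (0 : ℝ) 1 ×ˢ K) := isCompact_Icc.prod hA.comp
  have hfd : Continuous (fun p : ℝ × E n => fderiv ℝ (XH (H p.1)) p.2) := by
    have := ContDiff.fderiv (𝕜 := ℝ) (f := fun (p : ℝ × E n) (y : E n) => XH (H p.1) y)
      (g := fun p => p.2) (m := ((⊤ : ℕ∞) : WithTop ℕ∞)) (n := ((⊤ : ℕ∞) : WithTop ℕ∞))
      (hA.XH_smooth.comp ((contDiff_fst.comp contDiff_fst).prodMk contDiff_snd))
      contDiff_snd (by simp)
    exact this.continuous
  obtain ⟨C1, hC1⟩ := hK.exists_bound_of_continuousOn hc.continuousOn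
  obtain ⟨C2, hC2⟩ := hK.exists_bound_of_continuousOn hfd.continuousOn
  have hXd : ∀ t, Differentiable ℝ (XH (H t)) := fun t =>
    (hA.XH_smooth.comp (contDiff_const.prodMk contDiff_id)).differentiable (by simp)
  set C : ℝ≥0 := max (Real.toNNReal C1) (Real.toNNReal C2) with hC
  have hCC1 : C1 ≤ (C : ℝ) := (Real.le_coe_toNNReal C1).trans (NNReal.coe_le_coe.2 (le_max_left _ _))
  have hCC2 : C2 ≤ (C : ℝ) := (Real.le_coe_toNNReal C2).trans
    (NNReal.coe_le_coe.2 (le_max_right _ _))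
  refine ⟨C, ⟨fun x => ?_, fun t ht => ?_, fun t ht x => ?_⟩⟩
  · exact (hc.comp (continuous_id.prodMk continuous_const)).continuousOn
  · refine lipschitzWith_of_nnnorm_fderiv_le (𝕜 := ℝ) (hXd t) fun x => ?_
    rw [← NNReal.coe_le_coe, coe_nnnorm]
    by_cases hx : x ∈ K
    · exact (hC2 (t, x) ⟨ht, hx⟩).trans hCC2
    · have e : XH (H t) =ᶠ[𝓝 x] fun _ => (0 : E n) := by
        filter_upwards [hA.comp.isClosed.isOpen_compl.mem_nhds hx] with y hy
        exact hA.XH_off t hy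
      rw [e.fderiv_eq, fderiv_fun_const]
      simp
  · by_cases hx : x ∈ K
    · exact (hC1 (t, x) ⟨ht, hx⟩).trans hCC1
    · change ‖XH (H t) x‖ ≤ C
      rw [hA.XH_off t hx, norm_zero]
      exact C.2

/-- the bound -/
noncomputable def Adm.C {H : ℝ → E n → ℝ} {K : Set (E n)} (hA : Adm n H K) : ℝ≥0 :=
  hA.exists_good.choose

lemma Adm.good {H : ℝ → E n → ℝ} {K : Set (E n)} (hA : Adm n H K) :
    Good (fun t => XH (H t)) hA.C := hA.exists_good.choose_spec

/-- the evolution -/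
noncomputable def Adm.ev {H : ℝ → E n → ℝ} {K : Set (E n)} (hA : Adm n H K)
    (s t : Icc (0 : ℝ) 1) : E n ≃ₜ E n := hA.good.evol s t

lemma Adm.IC_const {H : ℝ → E n → ℝ} {K : Set (E n)} (hA : Adm n H K) {x : E n} (hx : x ∉ K) :
    IC (fun t => XH (H t)) (fun _ => x) := by
  intro t _
  change HasDerivWithinAt (fun _ => x) (XH (H t) x) (Icc 0 1) t
  rw [hA.XH_off t hx]
  exact hasDerivWithinAt_const _ _ _

lemma Adm.ev_off {H : ℝ → E n → ℝ} {K : Set (E n)} (hA : Adm n H K) (s t : Icc (0 : ℝ) 1)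
    {x : E n} (hx : x ∉ K) : hA.ev s t x = x :=
  hA.good.sol_eq (hA.IC_const hx) rfl t.2

lemma isHam_ev {H : ℝ → E n → ℝ} {K : Set (E n)} (hA : Adm n H K) (s t : Icc (0 : ℝ) 1) :
    IsHam n (hA.ev s t) := by
  set θ : ℝ → ℝ := Real.smoothTransition with hθ
  have hθs : ContDiff ℝ ((⊤ : ℕ∞) : WithTop ℕ∞) θ := Real.smoothTransition.contDiff
  have hθd : ContDiff ℝ ((⊤ : ℕ∞) : WithTop ℕ∞) (deriv θ) :=
    (contDiff_infty_iff_deriv.1 hθs).2
  set r : ℝ → ℝ := fun τ => s + (t - s) * θ τ with hr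
  have hr01 : ∀ τ, r τ ∈ Icc (0 : ℝ) 1 := by
    intro τ
    have h0 : 0 ≤ θ τ := Real.smoothTransition.nonneg τ
    have h1 : θ τ ≤ 1 := Real.smoothTransition.le_one τ
    have hs0 := s.2.1
    have hs1 := s.2.2
    have ht0 := t.2.1
    have ht1 := t.2.2
    constructor
    · have e : r τ = (1 - θ τ) * s + θ τ * t := by simp only [hr]; ring
      rw [e]
      exact add_nonneg (mul_nonneg (by linarith) hs0) (mul_nonneg h0 ht0)
    · have e : r τ = 1 - ((1 - θ τ) * (1 - s) + θ τ * (1 - t)) := by simp only [hr]; ring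
      rw [e]
      have := add_nonneg (mul_nonneg (show 0 ≤ 1 - θ τ by linarith) (show 0 ≤ 1 - (s : ℝ) by linarith))
        (mul_nonneg h0 (show 0 ≤ 1 - (t : ℝ) by linarith))
      linarith
  have hrs : ContDiff ℝ ((⊤ : ℕ∞) : WithTop ℕ∞) r :=
    contDiff_const.add (contDiff_const.mul hθs)
  refine ⟨fun τ x => ((t - s) * deriv θ τ) * H (r τ) x, fun τ x => hA.good.sol s x (r τ),
    ⟨?_, ⟨K, hA.comp, hA.sub, ?_⟩, ?_, ?_⟩, ?_⟩
  · refine ContDiff.mul ?_ ?_
    · exact contDiff_const.mul (hθd.comp contDiff_fst)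
    · exact hA.smooth.comp ((hrs.comp contDiff_fst).prodMk contDiff_snd)
  · intro τ x hx
    change ((t - s) * deriv θ τ) * H (r τ) x = 0
    rw [hA.supp _ x hx, mul_zero]
  · intro x
    have : r 0 = s := by simp [hr, hθ]
    change hA.good.sol s x (r 0) = x
    rw [this, hA.good.sol_self]
  · intro τ x
    have h1 : HasDerivAt r ((t - s) * deriv θ τ) τ := by
      have h2 : HasDerivAt θ (deriv θ τ) τ :=
        (hθs.differentiable (by simp) τ).hasDerivAt
      simpa [hr] using (h2.const_mul ((t : ℝ) - s)).const_add (s : ℝ)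
    have h2 := (hA.good.sol_IC s x (r τ) (hr01 τ)).scomp_hasDerivAt τ h1 hr01
    have h3 := XH_const_mul (hA.diff (r τ) (hA.good.sol s x (r τ))) ((t - s) * deriv θ τ)
    have h4 : HasDerivAt (hA.good.sol s x ∘ r)
      (XH (fun x => ((t - s) * deriv θ τ) * H (r τ) x) (hA.good.sol s x (r τ))) τ := by
      rw [h3]; exact h2
    exact h4
  · intro x
    have : r 1 = t := by simp [hr, hθ]
    change hA.ev s t x = hA.good.sol s x (r 1)
    rw [this]
    rfl

lemma mem_HamBar_of_isHam {u : E n ≃ₜ E n} (hu : IsHam n u) {K : Set (E n)} (hK : IsCompact K)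
    (hKB : K ⊆ Bl n) (hoff : ∀ x, x ∉ K → u x = x) : u ∈ HamBar n := by
  apply Subgroup.subset_closure
  refine ⟨K, hK, hKB, hoff, fun _ => u, fun _ => hoff, fun _ => hu, ?_⟩
  exact fun v hv => Filter.Eventually.of_forall fun k x => refl_mem_uniformity hv

end Pool.Agent.W_MP_68f289_gt
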