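import Pool.Agent.W_MP_68f289_gt.Twist

/-!
Hamiltonian hameomorphisms in the sense of Oh and Müller.
-/

open Set Metric Topology
open scoped NNReal ContDiff

namespace Pool.Agent.W_MP_68f289_gt

variable {n : ℕ}

lemma hameos_supp {φ : E n ≃ₜ E n} (h : φ ∈ hameos n) :
    ∃ K : Set (E n), IsCompact K ∧ K ⊆ Bl n ∧ ∀ x, x ∉ K → φ x = x := by
  obtain ⟨K, hK, hKB, H, ψ, hH, hHK, _, Φ, hlim, hΦ⟩ := h
  refine ⟨K, hK, hKB, fun x hx => ?_⟩
  have h1 : ∀ k, ψ k 1 x = x := by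
    intro k
    have hA : Adm n (H k) K := ⟨(hH k).smooth, hK, hKB, hHK k⟩
    exact hA.good.unique (α := fun t => ψ k t x) (β := fun _ => x)
      (fun t _ => ((hH k).der t x).hasDerivWithinAt) (hA.IC_const hx) (s := 0) (by simp)
      ((hH k).zero x) (show (1 : ℝ) ∈ Icc (0 : ℝ) 1 by simp)
  rw [← hΦ]
  apply eq_of_forall_dist_le
  intro ε hε
  obtain ⟨N, hN⟩ := hlim ε hε
  have := hN N le_rfl ⟨1, by simp⟩ x
  change dist (ψ N 1 x) _ < ε at this
  rw [h1, dist_comm] at this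
  exact this.le

lemma isHam_hameos {u : E n ≃ₜ E n} (hu : IsHam n u) : u ∈ hameos n := by
  obtain ⟨H, ψ, ⟨hH, ⟨K, hK, hKB, hsupp⟩, hψ0, hψ⟩, hu1⟩ := hu
  have hA : Adm n H K := ⟨hH, hK, hKB, hsupp⟩
  have e := isHam_ev_eq hA hψ0 hψ hu1
  refine ⟨K, hK, hKB, fun _ => H, fun _ => ψ, fun _ => ⟨hH, ⟨K, hK, hKB, hsupp⟩, hψ0, hψ⟩,
    fun _ => hsupp, fun ε hε => ⟨0, fun j k _ _ => ?_⟩, fun t => hA.ev ⟨0, by simp⟩ t,
    fun ε hε => ⟨0, fun k _ t x => ?_⟩, e.symm⟩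
  · simpa [hofer] using hε
  · have h2 : hA.ev ⟨0, by simp⟩ t x = ψ t x :=
      hA.good.sol_eq (s := ⟨0, by simp⟩) (α := fun t => ψ t x)
        (fun t _ => (hψ t x).hasDerivWithinAt) (hψ0 x) t.2
    rw [h2, dist_self]
    exact hε

/-- the group of Hamiltonian hameomorphisms is big -/
lemma big_Hameo : Big (Hameo n) where
  ham u hu := Subgroup.subset_closure (isHam_hameos hu)
  supp u hu := by
    unfold Hameo at hu
    induction hu using Subgroup.closure_induction with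
    | mem g hg => exact hameos_supp hg
    | one => exact ⟨∅, isCompact_empty, empty_subset _, fun _ _ => rfl⟩
    | mul g h _ _ hg hh =>
      obtain ⟨K, hK, hKB, hoff⟩ := hg
      obtain ⟨K', hK', hKB', hoff'⟩ := hh
      refine ⟨K ∪ K', hK.union hK', union_subset hKB hKB', fun x hx => ?_⟩
      rw [mem_union, not_or] at hx
      rw [Homeomorph.mul_apply, hoff' x hx.2, hoff x hx.1]
    | inv g _ hg =>
      obtain ⟨K, hK, hKB, hoff⟩ := hg
      refine ⟨K, hK, hKB, fun x hx => ?_⟩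
      rw [Homeomorph.inv_apply, Homeomorph.symm_apply_eq, hoff x hx]

/-- hameomorphisms are Hamiltonian homeomorphisms -/
lemma Hameo_le : Hameo n ≤ HamBar n := by
  unfold Hameo
  rw [Subgroup.closure_le]
  rintro φ ⟨K, hK, hKB, H, ψ, hH, hHK, hC, Φ, hlim, hΦ⟩
  apply Subgroup.subset_closure
  have hA : ∀ k, Adm n (H k) K := fun k => ⟨(hH k).smooth, hK, hKB, hHK k⟩
  have hev : ∀ k x, (hA k).ev ⟨0, by simp⟩ ⟨1, by simp⟩ x = ψ k 1 x := fun k x =>
    (hA k).good.sol_eq (s := ⟨0, by simp⟩) (α := fun t => ψ k t x)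
        (fun t _ => ((hH k).der t x).hasDerivWithinAt) ((hH k).zero x) (by simp)
  obtain ⟨K', hK', hKB', hoff'⟩ := hameos_supp (φ := φ)
    ⟨K, hK, hKB, H, ψ, hH, hHK, hC, Φ, hlim, hΦ⟩
  refine ⟨K ∪ K', hK.union hK', union_subset hKB hKB', fun x hx => hoff' x fun h => hx (Or.inr h),
    fun k => (hA k).ev ⟨0, by simp⟩ ⟨1, by simp⟩, fun k x hx => (hA k).ev_off _ _ fun h =>
      hx (Or.inl h), fun k => isHam_ev (hA k) _ _, ?_⟩
  rw [Metric.tendstoUniformly_iff]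
  intro ε hε
  obtain ⟨N, hN⟩ := hlim ε hε
  filter_upwards [Filter.eventually_ge_atTop N] with k hk x
  rw [hev, ← hΦ, dist_comm]
  exact hN k hk ⟨1, by simp⟩ x

end Pool.Agent.W_MP_68f289_gt
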