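import Pool.Agent.W_MP_68f289_gt.Twist

/-!
The subgroups `Gn r` of Hamiltonian homeomorphisms of the ball which are limits of Hamiltonian
diffeomorphisms supported in the closed ball of radius `r`; the action of homotheties; limits.
-/

open Set Metric Topology
open scoped NNReal ContDiff

namespace Pool.Agent.W_MP_68f289_gt

variable {n : ℕ}

/-! ### Euclidean norm -/

/-- Euclidean norm -/
noncomputable def en (w : E n) : ℝ := Real.sqrt (qf w)

lemma en_nonneg (w : E n) : 0 ≤ en w := Real.sqrt_nonneg _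

lemma en_sq (w : E n) : en w ^ 2 = qf w := Real.sq_sqrt (qf_nonneg w)

lemma en_eq (w : E n) : en w = ‖(WithLp.toLp 2 (Sum.elim w.1 w.2) :
    EuclideanSpace ℝ (Fin n ⊕ Fin n))‖ := by
  rw [EuclideanSpace.norm_eq, en, qf, Fintype.sum_sum_type, Finset.sum_add_distrib]
  simp

lemma en_add (u v : E n) : en (u + v) ≤ en u + en v := by
  rw [en_eq, en_eq, en_eq]
  refine le_trans (le_of_eq ?_) (norm_add_le _ _)
  congr 1
  ext i
  rcases i with i | i <;> simp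

lemma en_smul (c : ℝ) (u : E n) : en (c • u) = |c| * en u := by
  rw [en_eq, en_eq, ← Real.norm_eq_abs, ← norm_smul]
  congr 1
  ext i
  rcases i with i | i <;> simp

lemma en_zero : en (0 : E n) = 0 := by simp [en, qf]

lemma norm_le_en (w : E n) : ‖w‖ ≤ en w := Real.le_sqrt_of_sq_le (norm_sq_le_qf w)

lemma mem_Bl {x : E n} : x ∈ Bl n ↔ en x < 1 := by
  rw [en, Real.sqrt_lt' one_pos, one_pow]; rfl

lemma mem_CB {r : ℝ} (hr : 0 ≤ r) {x : E n} : x ∈ CB n r ↔ en x ≤ r := by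
  rw [en, Real.sqrt_le_left hr]; rfl

lemma isClosed_CB (r : ℝ) : IsClosed (CB n r) := isClosed_le qf_smooth.continuous continuous_const

lemma isCompact_CB (r : ℝ) : IsCompact (CB n r) := by
  refine (isCompact_closedBall (0 : E n) |r|).of_isClosed_subset (isClosed_CB r) ?_
  intro z hz
  rw [mem_closedBall, dist_zero_right]
  have h1 : ‖z‖ ^ 2 ≤ |r| ^ 2 := by rw [sq_abs]; exact (norm_sq_le_qf z).trans hz
  exact (pow_le_pow_iff_left₀ (norm_nonneg _) (abs_nonneg _) two_ne_zero).1 h1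

lemma CB_sub {r : ℝ} (hr0 : 0 ≤ r) (hr1 : r < 1) : CB n r ⊆ Bl n := by
  intro x hx
  rw [mem_CB hr0] at hx
  rw [mem_Bl]
  exact lt_of_le_of_lt hx hr1

lemma CB_mono {r r' : ℝ} (hr0 : 0 ≤ r) (h : r ≤ r') : CB n r ⊆ CB n r' := by
  intro x hx
  rw [mem_CB hr0] at hx
  rw [mem_CB (hr0.trans h)]
  exact hx.trans h

lemma exists_CB {K : Set (E n)} (hK : IsCompact K) (hKB : K ⊆ Bl n) :
    ∃ r : ℝ, 0 < r ∧ r < 1 ∧ K ⊆ CB n r := by
  rcases K.eq_empty_or_nonempty with rfl | hne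
  · exact ⟨1 / 2, by norm_num, by norm_num, empty_subset _⟩
  · obtain ⟨z, hz, hmax⟩ := hK.exists_isMaxOn hne (f := (en : E n → ℝ))
      (Real.continuous_sqrt.comp qf_smooth.continuous).continuousOn
    have h1 : en z < 1 := mem_Bl.1 (hKB hz)
    have h0 := en_nonneg z
    refine ⟨(1 + en z) / 2, by positivity, by linarith, fun x hx => ?_⟩
    rw [mem_CB (by positivity)]
    have : en x ≤ en z := hmax hx
    linarith

/-! ### Limits -/

lemma unif {φ : E n → E n} (hc : Continuous φ) {K : Set (E n)} (hK : IsCompact K)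
    (hoff : ∀ x, x ∉ K → φ x = x) {ε : ℝ} (hε : 0 < ε) :
    ∃ δ > 0, ∀ x y : E n, dist x y < δ → dist (φ x) (φ y) < ε := by
  have h1 := hK.uniformContinuousAt_of_continuousAt φ
    (fun a _ => hc.continuousAt) (Metric.dist_mem_uniformity hε)
  obtain ⟨δ, hδ, h2⟩ := Metric.mem_uniformity_dist.1 h1
  refine ⟨min δ ε, lt_min hδ hε, fun x y hxy => ?_⟩
  by_cases hxK : x ∈ K
  · exact h2 (lt_of_lt_of_le hxy (min_le_left _ _)) hxK
  · by_cases hyK : y ∈ K
    · rw [dist_comm]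
      rw [dist_comm] at hxy
      exact h2 (lt_of_lt_of_le hxy (min_le_left _ _)) hyK
    · rw [hoff x hxK, hoff y hyK]
      exact lt_of_lt_of_le hxy (min_le_right _ _)

lemma GS_one (K : Set (E n)) : (1 : E n ≃ₜ E n) ∈ GS n K :=
  ⟨fun _ _ => rfl, fun ε hε => ⟨1, isHam_one, fun _ _ => rfl, fun x => by rwa [dist_self]⟩⟩

lemma GS_isHam {K : Set (E n)} {u : E n ≃ₜ E n} (hu : IsHam n u) (hoff : ∀ x, x ∉ K → u x = x) :
    u ∈ GS n K :=
  ⟨hoff, fun ε hε => ⟨u, hu, hoff, fun x => by rwa [dist_self]⟩⟩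

lemma GS_mul {K : Set (E n)} (hK : IsCompact K) {φ ψ : E n ≃ₜ E n} (hφ : φ ∈ GS n K)
    (hψ : ψ ∈ GS n K) : φ * ψ ∈ GS n K := by
  refine ⟨fun x hx => ?_, fun ε hε => ?_⟩
  · change φ (ψ x) = x
    rw [hψ.1 x hx, hφ.1 x hx]
  · obtain ⟨δ, hδ, h1⟩ := unif φ.continuous hK hφ.1 (half_pos hε)
    obtain ⟨u, hu, huK, hud⟩ := hφ.2 (ε / 2) (half_pos hε)
    obtain ⟨v, hv, hvK, hvd⟩ := hψ.2 δ hδ
    refine ⟨u * v, isHam_mul hu hv, fun x hx => ?_, fun x => ?_⟩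
    · change u (v x) = x
      rw [hvK x hx, huK x hx]
    · change dist (u (v x)) (φ (ψ x)) < ε
      calc dist (u (v x)) (φ (ψ x)) ≤ dist (u (v x)) (φ (v x)) + dist (φ (v x)) (φ (ψ x)) :=
            dist_triangle _ _ _
        _ < ε / 2 + ε / 2 := add_lt_add (hud _) (h1 _ _ (hvd x))
        _ = ε := add_halves ε

lemma off_inv {K : Set (E n)} {φ : E n ≃ₜ E n} (h : ∀ x, x ∉ K → φ x = x) :
    ∀ x, x ∉ K → φ⁻¹ x = x := by
  intro x hx
  rw [Homeomorph.inv_apply, Homeomorph.symm_apply_eq, h x hx]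

lemma GS_inv {K : Set (E n)} (hK : IsCompact K) {φ : E n ≃ₜ E n} (hφ : φ ∈ GS n K) :
    φ⁻¹ ∈ GS n K := by
  refine ⟨off_inv hφ.1, fun ε hε => ?_⟩
  obtain ⟨δ, hδ, h1⟩ := unif (φ⁻¹ : E n ≃ₜ E n).continuous hK (off_inv hφ.1) hε
  obtain ⟨u, hu, huK, hud⟩ := hφ.2 δ hδ
  refine ⟨u⁻¹, isHam_inv hu, off_inv huK, fun y => ?_⟩
  have h2 := h1 _ _ (hud (u⁻¹ y))
  have e1 : u (u⁻¹ y) = y := u.apply_symm_apply y
  have e2 : φ⁻¹ (φ (u⁻¹ y)) = u⁻¹ y := φ.symm_apply_apply _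
  rw [e1, e2, dist_comm] at h2
  exact h2

lemma GS_mono {K K' : Set (E n)} (h : K ⊆ K') : GS n K ⊆ GS n K' := by
  rintro φ ⟨h1, h2⟩
  refine ⟨fun x hx => h1 x fun hx' => hx (h hx'), fun ε hε => ?_⟩
  obtain ⟨u, hu, huK, hud⟩ := h2 ε hε
  exact ⟨u, hu, fun x hx => huK x fun hx' => hx (h hx'), hud⟩

lemma GS_gens {K : Set (E n)} (hK : IsCompact K) (hKB : K ⊆ Bl n) : GS n K ⊆ gens n := by
  rintro φ ⟨h1, h2⟩
  choose u hu huK hud using fun k : ℕ => h2 (1 / ((k : ℝ) + 1)) (by positivity)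
  refine ⟨K, hK, hKB, h1, u, huK, hu, ?_⟩
  rw [Metric.tendstoUniformly_iff]
  intro ε hε
  filter_upwards [Filter.eventually_ge_atTop (Nat.ceil (1 / ε))] with k hk x
  rw [dist_comm]
  refine lt_of_lt_of_le (hud k x) ?_
  rw [div_le_iff₀ (by positivity)]
  have h3 : 1 / ε ≤ k := (Nat.le_ceil _).trans (by exact_mod_cast hk)
  rw [div_le_iff₀ hε] at h3
  nlinarith

lemma gens_GS {φ : E n ≃ₜ E n} (h : φ ∈ gens n) : ∃ K : Set (E n), IsCompact K ∧ K ⊆ Bl n ∧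
    φ ∈ GS n K := by
  obtain ⟨K, hK, hKB, hoff, u, huK, hu, hlim⟩ := h
  refine ⟨K, hK, hKB, hoff, fun ε hε => ?_⟩
  rw [Metric.tendstoUniformly_iff] at hlim
  obtain ⟨k, hk⟩ := (hlim ε hε).exists
  exact ⟨u k, hu k, huK k, fun x => by rw [dist_comm]; exact hk x⟩

lemma exists_GS {g : E n ≃ₜ E n} (hg : g ∈ HamBar n) :
    ∃ K : Set (E n), IsCompact K ∧ K ⊆ Bl n ∧ g ∈ GS n K := by
  unfold HamBar at hg
  induction hg using Subgroup.closure_induction with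
  | mem g hg => exact gens_GS hg
  | one => exact ⟨∅, isCompact_empty, empty_subset _, GS_one _⟩
  | mul g h _ _ hg hh =>
    obtain ⟨K, hK, hKB, hg⟩ := hg
    obtain ⟨K', hK', hKB', hh⟩ := hh
    exact ⟨K ∪ K', hK.union hK', union_subset hKB hKB', GS_mul (hK.union hK')
      (GS_mono subset_union_left hg) (GS_mono subset_union_right hh)⟩
  | inv g _ hg =>
    obtain ⟨K, hK, hKB, hg⟩ := hg
    exact ⟨K, hK, hKB, GS_inv hK hg⟩

/-- the group is the set of its generators -/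
lemma mem_HamBar_iff {g : E n ≃ₜ E n} : g ∈ HamBar n ↔ g ∈ gens n := by
  constructor
  · intro hg
    obtain ⟨K, hK, hKB, hg⟩ := exists_GS hg
    exact GS_gens hK hKB hg
  · exact fun h => Subgroup.subset_closure h

/-- Hamiltonian homeomorphisms which are limits of Hamiltonian diffeomorphisms supported in the
closed ball of radius `r` -/
def Gn (n : ℕ) (r : ℝ) : Subgroup (G n) where
  carrier := {g | (g : E n ≃ₜ E n) ∈ GS n (CB n r)}
  one_mem' := GS_one _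
  mul_mem' ha hb := GS_mul (isCompact_CB r) ha hb
  inv_mem' ha := GS_inv (isCompact_CB r) ha

lemma mem_Gn {r : ℝ} {g : G n} : g ∈ Gn n r ↔ (g : E n ≃ₜ E n) ∈ GS n (CB n r) := Iff.rfl

lemma Gn_off {r : ℝ} {g : G n} (hg : g ∈ Gn n r) : Off g (CB n r) := hg.1

lemma Gn_mono {r r' : ℝ} (hr : 0 ≤ r) (h : r ≤ r') : Gn n r ≤ Gn n r' :=
  fun _ hg => GS_mono (CB_mono hr h) hg

lemma exists_Gn (g : G n) : ∃ r : ℝ, 0 < r ∧ r < 1 ∧ g ∈ Gn n r := by
  obtain ⟨K, hK, hKB, hg⟩ := exists_GS g.2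
  obtain ⟨r, hr0, hr1, h⟩ := exists_CB hK hKB
  exact ⟨r, hr0, hr1, GS_mono h hg⟩

lemma off_Bl (g : G n) : Off g (Bl n) := by
  obtain ⟨r, hr0, hr1, h⟩ := exists_Gn g
  exact (Gn_off h).mono (CB_sub hr0.le hr1)

/-- limits of elements of `Gn n r` -/
lemma mk_lim {r : ℝ} (hr0 : 0 ≤ r) (hr1 : r < 1) {P Q : E n → E n} (hPQ : ∀ x, P (Q x) = x)
    (hQP : ∀ x, Q (P x) = x)
    (h : ∀ ε : ℝ, 0 < ε → ∃ g ∈ Gn n r, ∀ x, dist (P x) (g • x) < ε ∧ dist (Q x) (g⁻¹ • x) < ε) :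
    ∃ g ∈ Gn n r, ∀ x : E n, g • x = P x := by
  have hP : Continuous P := by
    refine continuous_of_uniform_approx_of_continuous fun u hu => ?_
    obtain ⟨ε, hε, hεu⟩ := Metric.mem_uniformity_dist.1 hu
    obtain ⟨g, hg, hgx⟩ := h ε hε
    exact ⟨fun x => g • x, continuous_const_smul g, fun y => hεu (hgx y).1⟩
  have hQ : Continuous Q := by
    refine continuous_of_uniform_approx_of_continuous fun u hu => ?_
    obtain ⟨ε, hε, hεu⟩ := Metric.mem_uniformity_dist.1 hu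
    obtain ⟨g, hg, hgx⟩ := h ε hε
    exact ⟨fun x => g⁻¹ • x, continuous_const_smul g⁻¹, fun y => hεu (hgx y).2⟩
  set φ : E n ≃ₜ E n := ⟨⟨P, Q, hQP, hPQ⟩, hP, hQ⟩ with hφ
  have h1 : φ ∈ GS n (CB n r) := by
    refine ⟨fun x hx => ?_, fun ε hε => ?_⟩
    · change P x = x
      apply eq_of_forall_dist_le
      intro ε hε
      obtain ⟨g, hg, hgx⟩ := h ε hε
      have := (hgx x).1
      rw [Gn_off hg x hx] at this
      exact this.le
    · obtain ⟨g, hg, hgx⟩ := h (ε / 2) (half_pos hε)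
      obtain ⟨u, hu, huK, hud⟩ := hg.2 (ε / 2) (half_pos hε)
      refine ⟨u, hu, huK, fun x => ?_⟩
      calc dist (u x) (P x) ≤ dist (u x) (g • x) + dist (P x) (g • x) := dist_triangle_right _ _ _
        _ < ε / 2 + ε / 2 := add_lt_add (hud x) (hgx x).1
        _ = ε := add_halves ε
  exact ⟨⟨φ, mem_HamBar_iff.2 (GS_gens (isCompact_CB r) (CB_sub hr0 hr1) h1)⟩, h1, fun _ => rfl⟩

/-! ### Homotheties -/

lemma GS_aff {K : Set (E n)} {φ : E n ≃ₜ E n} (hφ : φ ∈ GS n K) (c : E n) (r : ℝ) (hr : r ≠ 0)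
    (hB : ∀ x ∈ Bl n, c + r • x ∈ Bl n) {K' : Set (E n)} (hK' : ∀ x ∈ K, c + r • x ∈ K') :
    aff c r hr * φ * (aff c r hr)⁻¹ ∈ GS n K' := by
  have hoff : ∀ ψ : E n ≃ₜ E n, (∀ x, x ∉ K → ψ x = x) →
      ∀ x, x ∉ K' → (aff c r hr * ψ * (aff c r hr)⁻¹) x = x := by
    intro ψ hψ x hx
    change c + r • ψ ((aff c r hr)⁻¹ x) = x
    rw [aff_inv_apply, hψ, smul_inv_smul₀ hr, add_sub_cancel]
    intro hx'
    have := hK' _ hx'
    rw [smul_inv_smul₀ hr, add_sub_cancel] at this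
    exact hx this
  refine ⟨hoff φ hφ.1, fun ε hε => ?_⟩
  have hr' : 0 < |r| := abs_pos.2 hr
  obtain ⟨u, hu, huK, hud⟩ := hφ.2 (ε / |r|) (by positivity)
  refine ⟨aff c r hr * u * (aff c r hr)⁻¹, isHam_aff hu c r hr hB, hoff u huK, fun x => ?_⟩
  change dist (c + r • u ((aff c r hr)⁻¹ x)) (c + r • φ ((aff c r hr)⁻¹ x)) < ε
  rw [dist_add_left, dist_smul₀, Real.norm_eq_abs]
  have := hud ((aff c r hr)⁻¹ x)
  rw [lt_div_iff₀ hr'] at this
  linarith

/-- homotheties which map the ball into itself -/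
structure HT (n : ℕ) where
  c : E n
  r : ℝ
  hr : r ≠ 0
  hB : ∀ x ∈ Bl n, c + r • x ∈ Bl n

/-- the homothety as a homeomorphism -/
noncomputable def HT.h (α : HT n) : E n ≃ₜ E n := aff α.c α.r α.hr

lemma HT.h_apply (α : HT n) (x : E n) : α.h x = α.c + α.r • x := rfl

lemma HT.mem (α : HT n) {g : E n ≃ₜ E n} (hg : g ∈ HamBar n) :
    α.h * g * α.h⁻¹ ∈ HamBar n := by
  obtain ⟨K, hK, hKB, hg⟩ := exists_GS hg
  refine mem_HamBar_iff.2 (GS_gens (K := α.h '' K) (hK.image α.h.continuous) ?_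
    (GS_aff hg α.c α.r α.hr α.hB fun x hx => ⟨x, hx, rfl⟩))
  rintro _ ⟨x, hx, rfl⟩
  exact α.hB x (hKB hx)

/-- the action of a homothety on the group -/
noncomputable def HT.a (α : HT n) : G n →* HamBar n where
  toFun g := ⟨α.h * g * α.h⁻¹, α.mem g.2⟩
  map_one' := by apply Subtype.ext; simp
  map_mul' g h := by
    apply Subtype.ext
    change α.h * (g * h) * α.h⁻¹ = (α.h * g * α.h⁻¹) * (α.h * h * α.h⁻¹)
    group

lemma HT.a_coe (α : HT n) (g : G n) : (α.a g : E n ≃ₜ E n) = α.h * g * α.h⁻¹ := rfl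

lemma HT.a_smul (α : HT n) (g : G n) (x : E n) :
    α.a g • x = α.c + α.r • (g • (α.r⁻¹ • (x - α.c))) := by
  change α.c + α.r • (g : E n ≃ₜ E n) (α.h⁻¹ x) = _
  rw [HT.h, aff_inv_apply]; rfl

lemma HT.a_smul' (α : HT n) (g : G n) (x : E n) :
    α.a g • (α.c + α.r • x) = α.c + α.r • (g • x) := by
  rw [HT.a_smul, add_sub_cancel_left, inv_smul_smul₀ α.hr]

lemma HT.a_off (α : HT n) {g : G n} {A A' : Set (E n)} (hg : Off g A)
    (hA : ∀ x ∈ A, α.c + α.r • x ∈ A') : Off (α.a g) A' := by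
  intro x hx
  rw [HT.a_smul, hg, smul_inv_smul₀ α.hr, add_sub_cancel]
  intro hx'
  have := hA _ hx'
  rw [smul_inv_smul₀ α.hr, add_sub_cancel] at this
  exact hx this

lemma HT.a_Gn (α : HT n) (g : G n) {R : ℝ} (hR : 0 ≤ R) (h : en α.c + |α.r| ≤ R) :
    α.a g ∈ Gn n R := by
  obtain ⟨K, hK, hKB, hg⟩ := exists_GS g.2
  refine GS_aff hg α.c α.r α.hr α.hB fun x hx => ?_
  rw [mem_CB hR]
  have h1 : en x < 1 := mem_Bl.1 (hKB hx)
  calc en (α.c + α.r • x) ≤ en α.c + en (α.r • x) := en_add _ _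
    _ = en α.c + |α.r| * en x := by rw [en_smul]
    _ ≤ en α.c + |α.r| * 1 := by gcongr
    _ ≤ R := by rw [mul_one]; exact h

/-- a homothety is admissible as soon as its image ball fits -/
def HT.mk' (c : E n) (r : ℝ) (hr : r ≠ 0) (h : en c + |r| ≤ 1) : HT n where
  c := c
  r := r
  hr := hr
  hB := by
    intro x hx
    rw [mem_Bl] at hx ⊢
    have hr' : 0 < |r| := abs_pos.2 hr
    calc en (c + r • x) ≤ en c + en (r • x) := en_add _ _
      _ = en c + |r| * en x := by rw [en_smul]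
      _ < en c + |r| * 1 := by gcongr
      _ ≤ 1 := by rw [mul_one]; exact h

/-- scaling by `r` -/
def sc (n : ℕ) (r : ℝ) (h0 : 0 < r) (h1 : r ≤ 1) : HT n :=
  HT.mk' 0 r h0.ne' (by rw [en_zero, zero_add, abs_of_pos h0]; exact h1)

lemma sc_smul {r : ℝ} (h0 : 0 < r) (h1 : r ≤ 1) (g : G n) (x : E n) :
    (sc n r h0 h1).a g • x = r • (g • (r⁻¹ • x)) := by
  rw [HT.a_smul]
  change 0 + r • (g • (r⁻¹ • (x - 0))) = _
  rw [zero_add, sub_zero]

lemma sc_Gn {r : ℝ} (h0 : 0 < r) (h1 : r ≤ 1) {g : G n} {R : ℝ} (hR : 0 ≤ R)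
    (hg : g ∈ Gn n R) : (sc n r h0 h1).a g ∈ Gn n R := by
  refine GS_aff hg _ _ _ (sc n r h0 h1).hB fun x hx => ?_
  change (0 : E n) + r • x ∈ CB n R
  rw [mem_CB hR] at hx ⊢
  rw [zero_add, en_smul, abs_of_pos h0]
  have := en_nonneg x
  nlinarith

/-- every element of `Gn n r` is a product of small elements of `Gn n r` -/
lemma small_gen {r : ℝ} (hr0 : 0 ≤ r) (hr1 : r < 1) {g : G n} (hg : g ∈ Gn n r) {ε : ℝ}
    (hε : 0 < ε) :
    g ∈ Subgroup.closure {a : G n | a ∈ Gn n r ∧ ∀ x : E n, dist (a • x) x < ε} := by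
  set C := Subgroup.closure {a : G n | a ∈ Gn n r ∧ ∀ x : E n, dist (a • x) x < ε} with hC
  have hoffB := off_Bl g
  have hbd : ∀ x : E n, dist (g • x) x ≤ 2 := by
    intro x
    by_cases hx : x ∈ Bl n
    · have h1 := mem_Bl.1 (hoffB.smul_mem hx)
      have h2 := mem_Bl.1 hx
      have h3 := norm_le_en (g • x)
      have h4 := norm_le_en x
      rw [dist_eq_norm]
      linarith [norm_sub_le (g • x) x]
    · rw [hoffB x hx, dist_self]; norm_num
  -- scaling slightly moves `g` by a small amount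
  have hρ : ∃ ρ : ℝ, ∃ h0 : 0 < ρ, ∃ h1 : ρ ≤ 1, ρ < 1 ∧
      ∀ x : E n, dist (g • x) ((sc n ρ h0 h1).a g • x) < ε := by
    obtain ⟨δ, hδ, h1⟩ := unif (continuous_const_smul g) (isCompact_CB r) (Gn_off hg) (half_pos hε)
    set η : ℝ := min (1 / 4) (min (δ / 4) (ε / 8)) with hη
    have hη0 : 0 < η := by positivity
    have hη1 : η ≤ 1 / 4 := min_le_left _ _
    have hη2 : η ≤ δ / 4 := (min_le_right _ _).trans (min_le_left _ _)
    have hη3 : η ≤ ε / 8 := (min_le_right _ _).trans (min_le_right _ _)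
    have hρ0 : 0 < 1 - η := by linarith
    refine ⟨1 - η, hρ0, by linarith, by linarith, fun x => ?_⟩
    rw [sc_smul]
    set y : E n := (1 - η)⁻¹ • x with hy
    have hxy : x = (1 - η) • y := by rw [hy, smul_inv_smul₀ hρ0.ne']
    have hinv : (1 - η)⁻¹ ≤ 2 := by
      rw [inv_le_comm₀ hρ0 (by norm_num)]; linarith
    by_cases hx : x ∈ Bl n
    · have hx1 : ‖x‖ < 1 := (norm_le_en x).trans_lt (mem_Bl.1 hx)
      have hy2 : ‖y‖ ≤ 2 := by
        rw [hy, norm_smul, Real.norm_of_nonneg (by positivity)]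
        nlinarith [norm_nonneg x]
      have hd : dist x y < δ := by
        have e : x - y = (-η) • y := by rw [hxy]; module
        rw [dist_eq_norm, e, norm_smul, norm_neg, Real.norm_of_nonneg hη0.le]
        nlinarith [norm_nonneg y]
      have h2 := h1 _ _ hd
      have hgy : ‖g • y‖ ≤ 2 := by
        by_cases hyB : y ∈ Bl n
        · have := (norm_le_en (g • y)).trans_lt (mem_Bl.1 (hoffB.smul_mem hyB))
          linarith
        · rw [hoffB y hyB]; exact hy2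
      have h3 : dist (g • y) ((1 - η) • (g • y)) ≤ ε / 4 := by
        obtain ⟨w, hw⟩ : ∃ w : E n, w = g • y := ⟨_, rfl⟩
        rw [← hw] at hgy ⊢
        have e : w - (1 - η) • w = η • w := by module
        rw [dist_eq_norm, e, norm_smul, Real.norm_of_nonneg hη0.le]
        nlinarith [norm_nonneg w]
      calc dist (g • x) ((1 - η) • (g • y)) ≤ dist (g • x) (g • y) +
            dist (g • y) ((1 - η) • (g • y)) := dist_triangle _ _ _
        _ < ε := by linarith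
    · have hyB : y ∉ Bl n := by
        intro hyB
        apply hx
        rw [mem_Bl] at hyB ⊢
        rw [hxy, en_smul, abs_of_pos hρ0]
        have := en_nonneg y
        nlinarith
      rw [hoffB x hx, hoffB y hyB, ← hxy, dist_self]
      exact hε
  obtain ⟨ρ, hρ0, hρ1', hρ1, hρd⟩ := hρ
  have hpow0 : ∀ j : ℕ, 0 < ρ ^ j := fun j => pow_pos hρ0 j
  have hpow1 : ∀ j : ℕ, ρ ^ j ≤ 1 := fun j => pow_le_one₀ hρ0.le hρ1'
  set T : ℕ → G n := fun j => (sc n (ρ ^ j) (hpow0 j) (hpow1 j)).a g with hT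
  have hTm : ∀ j, T j ∈ Gn n r := fun j => sc_Gn _ _ hr0 hg
  have hstep : ∀ j, T j * (T (j + 1))⁻¹ ∈ C := by
    intro j
    refine Subgroup.subset_closure ⟨mul_mem (hTm j) (inv_mem (hTm (j + 1))), fun x => ?_⟩
    obtain ⟨y, rfl⟩ : ∃ y : E n, x = T (j + 1) • y := ⟨(T (j + 1))⁻¹ • x, (smul_inv_smul _ _).symm⟩
    rw [mul_smul, inv_smul_smul, hT]
    simp only
    rw [sc_smul, sc_smul]
    have e : (ρ ^ (j + 1)) • (g • ((ρ ^ (j + 1))⁻¹ • y)) =
        ρ ^ j • (ρ • (g • (ρ⁻¹ • ((ρ ^ j)⁻¹ • y)))) := by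
      rw [smul_smul, smul_smul, pow_succ, mul_inv, mul_comm (ρ ^ j)⁻¹]
    rw [e, dist_smul₀, Real.norm_of_nonneg (hpow0 j).le]
    have h1 := hρd ((ρ ^ j)⁻¹ • y)
    rw [sc_smul] at h1
    have h2 := hpow1 j
    have h3 := hpow0 j
    have h4 : 0 ≤ dist (g • (ρ ^ j)⁻¹ • y) (ρ • g • ρ⁻¹ • (ρ ^ j)⁻¹ • y) := dist_nonneg
    nlinarith
  have hback : ∀ j, T j ∈ C → T 0 ∈ C := by
    intro j
    induction j with
    | zero => exact id
    | succ j ih =>
      intro h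
      apply ih
      have : T j = T j * (T (j + 1))⁻¹ * T (j + 1) := by group
      rw [this]
      exact mul_mem (hstep j) h
  obtain ⟨J, hJ⟩ := exists_pow_lt_of_lt_one (show 0 < ε / 4 by positivity) hρ1
  have hTJ : T J ∈ C := by
    refine Subgroup.subset_closure ⟨hTm J, fun x => ?_⟩
    rw [hT]
    simp only
    rw [sc_smul]
    have e : x = ρ ^ J • ((ρ ^ J)⁻¹ • x) := by rw [smul_inv_smul₀ (hpow0 J).ne']
    have h1 : dist (ρ ^ J • (g • ((ρ ^ J)⁻¹ • x))) x =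
        ρ ^ J * dist (g • ((ρ ^ J)⁻¹ • x)) ((ρ ^ J)⁻¹ • x) := by
      conv_lhs => rw [e]
      rw [inv_smul_smul₀ (hpow0 J).ne', dist_smul₀, Real.norm_of_nonneg (hpow0 J).le]
    rw [h1]
    have h2 := hbd ((ρ ^ J)⁻¹ • x)
    have h3 := hpow0 J
    nlinarith
  have h0 : T 0 = g := by
    apply FaithfulSMul.eq_of_smul_eq_smul (α := E n)
    intro x
    rw [hT]
    simp only
    rw [sc_smul]
    have e : (ρ : ℝ) ^ 0 = 1 := pow_zero ρ
    rw [e, inv_one, one_smul ℝ, one_smul ℝ]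
  rw [← h0]
  exact hback J hTJ

end Pool.Agent.W_MP_68f289_gt
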