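import Pool.Agent.W_MP_68f289_gt.Pettis

/-!
The homeomorphism group of a compact metric space as a Polish group, and the main Baire category
argument.
-/

open Set Metric Topology Filter

namespace Pool.Agent.W_MP_68f289_gt

/-- the homeomorphism group of `Z`, as pairs of mutually inverse continuous maps -/
def HG (Z : Type*) [TopologicalSpace Z] : Type _ :=
  {p : C(Z, Z) × C(Z, Z) // p.1.comp p.2 = ContinuousMap.id Z ∧
    p.2.comp p.1 = ContinuousMap.id Z}

section basic

variable {Z : Type*} [TopologicalSpace Z]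

instance : TopologicalSpace (HG Z) := inferInstanceAs (TopologicalSpace (Subtype _))

lemma HG.ext {p q : HG Z} (h : ∀ z, p.1.1 z = q.1.1 z) : p = q := by
  have h1 : p.1.1 = q.1.1 := ContinuousMap.ext h
  have h2 : p.1.2 = q.1.2 := by
    have := congrArg (fun f => f.comp q.1.2) p.2.2
    calc p.1.2 = p.1.2.comp (ContinuousMap.id Z) := by rw [ContinuousMap.comp_id]
      _ = p.1.2.comp (q.1.1.comp q.1.2) := by rw [q.2.1]
      _ = (p.1.2.comp p.1.1).comp q.1.2 := by rw [h1, ContinuousMap.comp_assoc]
      _ = q.1.2 := by rw [p.2.2, ContinuousMap.id_comp]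
  exact Subtype.ext (Prod.ext h1 h2)

instance : Group (HG Z) where
  mul p q := ⟨(p.1.1.comp q.1.1, q.1.2.comp p.1.2), by
    constructor
    · change (p.1.1.comp q.1.1).comp (q.1.2.comp p.1.2) = ContinuousMap.id Z
      rw [ContinuousMap.comp_assoc, ← ContinuousMap.comp_assoc q.1.1, q.2.1,
        ContinuousMap.id_comp, p.2.1]
    · change (q.1.2.comp p.1.2).comp (p.1.1.comp q.1.1) = ContinuousMap.id Z
      rw [ContinuousMap.comp_assoc, ← ContinuousMap.comp_assoc p.1.2, p.2.2,
        ContinuousMap.id_comp, q.2.2]⟩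
  one := ⟨(ContinuousMap.id Z, ContinuousMap.id Z), by simp⟩
  inv p := ⟨(p.1.2, p.1.1), p.2.2, p.2.1⟩
  mul_assoc _ _ _ := rfl
  one_mul p := HG.ext fun _ => rfl
  mul_one p := HG.ext fun _ => rfl
  inv_mul_cancel p := HG.ext fun z => ContinuousMap.congr_fun p.2.2 z

lemma HG.mul_fst (p q : HG Z) (z : Z) : (p * q).1.1 z = p.1.1 (q.1.1 z) := rfl
lemma HG.one_fst (z : Z) : (1 : HG Z).1.1 z = z := rfl
lemma HG.one_snd (z : Z) : (1 : HG Z).1.2 z = z := rfl
lemma HG.inv_fst (p : HG Z) (z : Z) : (p⁻¹).1.1 z = p.1.2 z := rfl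

instance [LocallyCompactSpace Z] : IsTopologicalGroup (HG Z) where
  continuous_mul := by
    have h1 : Continuous (fun x : HG Z × HG Z => (x.1.1.1).comp (x.2.1.1)) :=
      ContinuousMap.continuous_comp'.comp ((continuous_fst.comp (continuous_subtype_val.comp
        continuous_snd)).prodMk (continuous_fst.comp (continuous_subtype_val.comp continuous_fst)))
    have h2 : Continuous (fun x : HG Z × HG Z => (x.2.1.2).comp (x.1.1.2)) :=
      ContinuousMap.continuous_comp'.comp ((continuous_snd.comp (continuous_subtype_val.comp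
        continuous_fst)).prodMk (continuous_snd.comp (continuous_subtype_val.comp continuous_snd)))
    exact (h1.prodMk h2).subtype_mk _
  continuous_inv :=
    ((continuous_snd.comp continuous_subtype_val).prodMk
      (continuous_fst.comp continuous_subtype_val)).subtype_mk _

instance [T2Space Z] : T2Space (HG Z) := inferInstanceAs (T2Space (Subtype _))

end basic

section polish

variable {Z : Type*} [MetricSpace Z] [CompactSpace Z]

instance : PolishSpace (HG Z) := by
  have hcl : IsClosed {p : C(Z, Z) × C(Z, Z) | p.1.comp p.2 = ContinuousMap.id Z ∧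
      p.2.comp p.1 = ContinuousMap.id Z} := by
    refine IsClosed.inter ?_ ?_
    · exact isClosed_eq (ContinuousMap.continuous_comp'.comp
        (continuous_snd.prodMk continuous_fst)) continuous_const
    · exact isClosed_eq (ContinuousMap.continuous_comp'.comp
        (continuous_fst.prodMk continuous_snd)) continuous_const
  exact hcl.polishSpace

/-- small elements are near the identity -/
lemma HG.small_mem_nhds {U : Set (HG Z)} (hU : U ∈ 𝓝 (1 : HG Z)) :
    ∃ ε > 0, ∀ p : HG Z, (∀ z, dist (p.1.1 z) z < ε) → p ∈ U := by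
  have hind : IsInducing (fun p : HG Z => (p.1 : C(Z, Z) × C(Z, Z))) := IsInducing.subtypeVal
  rw [hind.nhds_eq_comap, mem_comap] at hU
  obtain ⟨V, hV, hVU⟩ := hU
  obtain ⟨ε, hε, h1⟩ := Metric.mem_nhds_iff.1 hV
  refine ⟨ε / 2, half_pos hε, fun p hp => hVU (h1 ?_)⟩
  have h2 : dist p.1.1 (ContinuousMap.id Z) ≤ ε / 2 :=
    (ContinuousMap.dist_le (by positivity)).2 fun z => (hp z).le
  have h3 : dist p.1.2 (ContinuousMap.id Z) ≤ ε / 2 := by
    refine (ContinuousMap.dist_le (by positivity)).2 fun z => ?_
    have h4 := (hp (p.1.2 z)).le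
    have h5 : p.1.1 (p.1.2 z) = z := ContinuousMap.congr_fun p.2.1 z
    rw [h5, dist_comm] at h4
    exact h4
  rw [mem_ball]
  refine lt_of_le_of_lt ?_ (half_lt_self hε)
  exact max_le h2 h3

end polish

section words

/-- words of length `N` -/
def word {P Γ : Type*} [Group Γ] (s : P → Γ) {N : ℕ} (p : Fin N → P) : Γ :=
  ((List.finRange N).map fun i => s (p i)).prod

lemma word_continuous {P Γ : Type*} [TopologicalSpace P] [Group Γ] [TopologicalSpace Γ]
    [IsTopologicalGroup Γ] {s : P → Γ} (hs : Continuous s) (N : ℕ) :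
    Continuous (fun p : Fin N → P => word s p) := by
  unfold word
  exact continuous_list_prod _ fun i _ => hs.comp (continuous_apply i)

lemma exists_word {P Γ : Type*} [Group Γ] {s : P → Γ} (l : List Γ) (hl : ∀ x ∈ l, x ∈ range s) :
    ∃ p : Fin l.length → P, word s p = l.prod := by
  choose f hf using fun i : Fin l.length => hl (l.get i) (List.get_mem l i)
  refine ⟨f, ?_⟩
  unfold word
  congr 1
  have h1 : (List.finRange l.length).map (fun i => s (f i)) =
      (List.finRange l.length).map (fun i => l.get i) := by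
    apply List.map_congr_left
    intro i _
    exact hf i
  rw [h1]
  exact List.map_get_finRange l

/-- The Baire category argument: let `H` be a closed subgroup of the Polish group `Γ`, let `S` be
a symmetric set which is a continuous image of a Polish space, and suppose that the subgroup
generated by `S` contains countably many translates covering `H`. Then a neighbourhood of the
identity in `H` consists of words of bounded length in `S`. -/
theorem bounded_words {P Γ : Type*} [TopologicalSpace P] [PolishSpace P] [Group Γ]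
    [TopologicalSpace Γ] [IsTopologicalGroup Γ] [PolishSpace Γ] {s : P → Γ} (hs : Continuous s)
    (hsym : ∀ x ∈ range s, x⁻¹ ∈ range s) (H : Subgroup Γ) (hH : IsClosed (H : Set Γ))
    (T : Set Γ) (hT : T.Countable)
    (hcov : ∀ h ∈ H, ∃ t ∈ T, t ∈ H ∧ t⁻¹ * h ∈ Subgroup.closure (range s)) :
    ∃ N : ℕ, ∃ U ∈ 𝓝 (1 : Γ), ∀ u ∈ U, u ∈ H → ∃ l : List Γ, l.length = N ∧
      (∀ x ∈ l, x ∈ range s) ∧ l.prod = u := by
  have hHp : PolishSpace H := hH.polishSpace
  have hHb : BaireSpace H := by
    let _ := TopologicalSpace.upgradeIsCompletelyMetrizable H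
    infer_instance
  -- words in `H`
  set A : ℕ → Set H := fun N => {h : H | ∃ p : Fin N → P, word s p = (h : Γ)} with hA
  have hex : ∃ N, ¬ IsMeagre (A N) := by
    by_contra hcon
    push Not at hcon
    have h1 : IsMeagre (⋃ N, A N) := isMeagre_iUnion hcon
    have h2 : ∀ t : Γ, t ∈ T → ∀ ht : t ∈ H,
        IsMeagre ((fun h : H => ⟨t, ht⟩ * h) '' ⋃ N, A N) := fun t _ ht =>
      (Homeomorph.mulLeft (⟨t, ht⟩ : H)).isInducing.isMeagre_image h1
    have h3 : IsMeagre (⋃ t ∈ T, {x : H | ∃ ht : t ∈ H, x ∈ (fun h : H => ⟨t, ht⟩ * h) ''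
        ⋃ N, A N}) := by
      refine isMeagre_biUnion hT fun t ht => ?_
      by_cases htH : t ∈ H
      · refine (h2 t ht htH).mono ?_
        rintro x ⟨_, hx⟩
        exact hx
      · refine IsMeagre.empty.mono ?_
        rintro x ⟨h, _⟩
        exact (htH h).elim
    have h4 : (⋃ t ∈ T, {x : H | ∃ ht : t ∈ H, x ∈ (fun h : H => ⟨t, ht⟩ * h) ''
        ⋃ N, A N}) = univ := by
      rw [eq_univ_iff_forall]
      intro h
      obtain ⟨t, htT, htH, hw⟩ := hcov h h.2
      refine mem_biUnion htT ⟨htH, ⟨⟨t, htH⟩⁻¹ * h, ?_, by simp⟩⟩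
      rw [mem_iUnion]
      have hw' : t⁻¹ * (h : Γ) ∈ Submonoid.closure (range s) := by
        have e : Subgroup.closure (range s) = (Subgroup.closure (range s)) := rfl
        have h5 : (Subgroup.closure (range s)).toSubmonoid = Submonoid.closure (range s) := by
          rw [Subgroup.closure_toSubmonoid]
          congr 1
          rw [union_eq_left]
          intro x hx
          have := hsym _ hx
          rwa [inv_inv] at this
        rw [← h5]
        exact hw
      obtain ⟨l, hl, hlp⟩ := Submonoid.exists_list_of_mem_closure hw'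
      obtain ⟨p, hp⟩ := exists_word l hl
      exact ⟨l.length, p, by rw [hp, hlp]; rfl⟩
    rw [h4] at h3
    have : (∅ : Set H).Nonempty := by
      have h5 : Dense (univ : Set H)ᶜ := dense_of_mem_residual h3
      rw [compl_univ] at h5
      exact h5.nonempty
    exact this.ne_empty rfl
  obtain ⟨N, hN⟩ := hex
  -- the Polish space of words lying in `H`
  set Q : Set (Fin N → P) := {p | word s p ∈ H} with hQ
  have hQc : IsClosed Q := hH.preimage (word_continuous hs N)
  have hQp : PolishSpace Q := hQc.polishSpace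
  set f : Q → H := fun p => ⟨word s p.1, p.2⟩ with hf
  have hfc : Continuous f :=
    ((word_continuous hs N).comp continuous_subtype_val).subtype_mk _
  have hfr : range f = A N := by
    ext h
    constructor
    · rintro ⟨p, rfl⟩
      exact ⟨p.1, rfl⟩
    · rintro ⟨p, hp⟩
      exact ⟨⟨p, by change word s p ∈ H; rw [hp]; exact h.2⟩, Subtype.ext hp⟩
  obtain ⟨U, hU, hUw⟩ := pettis hfc (by rw [hfr]; exact hN)
  obtain ⟨V, hV, hVU⟩ := mem_nhds_induced (Subtype.val : H → Γ) 1 U |>.1 hU
  refine ⟨N + N, V, hV, fun u hu huH => ?_⟩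
  obtain ⟨p, q, hpq⟩ := hUw ⟨u, huH⟩ (hVU hu)
  have hpq' : u = word s p.1 * (word s q.1)⁻¹ := congrArg Subtype.val hpq
  refine ⟨((List.finRange N).map fun i => s (p.1 i)) ++
    ((List.finRange N).map fun i => s (q.1 i)).reverse.map (·⁻¹), ?_, ?_, ?_⟩
  · simp
  · intro x hx
    rw [List.mem_append] at hx
    rcases hx with hx | hx
    · obtain ⟨i, _, rfl⟩ := List.mem_map.1 hx
      exact ⟨_, rfl⟩
    · obtain ⟨y, hy, rfl⟩ := List.mem_map.1 hx
      rw [List.mem_reverse] at hy
      obtain ⟨i, _, rfl⟩ := List.mem_map.1 hy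
      exact hsym _ ⟨_, rfl⟩
  · rw [List.prod_append, hpq', word, word, List.prod_inv_reverse, List.map_reverse]

end words

end Pool.Agent.W_MP_68f289_gt
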