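import Pool.Agent.W_MP_68f289_gt.Pol
import Pool.Agent.W_MP_68f289_gt.Hameo

/-!
Quantitative criteria.
-/

open Set Metric Topology commutatorElement
open scoped NNReal ContDiff

namespace Pool.Agent.W_MP_68f289_gt

variable {n : ℕ}

lemma BddGen.top {S : Set (G n)} (h : BddGen n S) : Subgroup.closure S = ⊤ := by
  apply top_of_small
  intro R hR0 hR1
  obtain ⟨N, ε, hε, h1⟩ := h R hR0 hR1
  refine ⟨ε, hε, fun g hg hgs => ?_⟩
  obtain ⟨l, _, hl, rfl⟩ := h1 g hg hgs
  exact Subgroup.list_prod_mem _ fun a ha => Subgroup.subset_closure (hl a ha)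

theorem crit {P : Type*} [TopologicalSpace P] [PolishSpace P] {s : P → G n}
    (hs : Continuous fun p => res (s p)) (hsym : ∀ p, ∃ p', s p' = (s p)⁻¹)
    (hc : Countable (G n ⧸ Subgroup.closure (range s))) : BddGen n (range s) := by
  intro R hR0 hR1
  obtain ⟨T, hT, hTc⟩ := exists_reps hc R
  exact baire_gen hs hsym hR0.le hR1 T hT hTc

lemma countable_top : Countable (G n ⧸ (⊤ : Subgroup (G n))) := by
  have : Subsingleton (G n ⧸ (⊤ : Subgroup (G n))) := QuotientGroup.subsingleton_quotient_top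
  infer_instance

lemma countable_of_le {L L' : Subgroup (G n)} (h : L ≤ L') (hL : Countable (G n ⧸ L)) :
    Countable (G n ⧸ L') := by
  refine Function.Surjective.countable (f := Quotient.map' (s₁ := QuotientGroup.leftRel L)
    (s₂ := QuotientGroup.leftRel L') id ?_) ?_
  · intro a b hab
    rw [QuotientGroup.leftRel_apply] at hab ⊢
    exact h hab
  · intro c
    induction c using QuotientGroup.induction_on with
    | H a => exact ⟨(a : G n ⧸ L), rfl⟩

/-! ### Commutators -/

lemma closure_Com : Subgroup.closure (Com n) = commutator (G n) := by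
  rw [commutator_eq_closure]; rfl

lemma bdd_Com (hc : Countable (G n ⧸ commutator (G n))) : BddGen n (Com n) := by
  set s : PG n × PG n → G n := fun p => ⁅gp p.1, gp p.2⁆ with hs
  have hr : range s = Com n := by
    ext g
    constructor
    · rintro ⟨p, rfl⟩
      exact ⟨gp p.1, gp p.2, rfl⟩
    · rintro ⟨a, b, rfl⟩
      obtain ⟨p, rfl⟩ := gp_surj a
      obtain ⟨q, rfl⟩ := gp_surj b
      exact ⟨(p, q), rfl⟩
  have hcont : Continuous fun p => res (s p) := by
    have e : (fun p => res (s p)) = fun p : PG n × PG n =>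
        res (gp p.1) * res (gp p.2) * (res (gp p.1))⁻¹ * (res (gp p.2))⁻¹ := by
      funext p
      rw [hs]
      simp only
      rw [map_commutatorElement, commutatorElement_def]
    rw [e]
    have h1 : Continuous fun p : PG n × PG n => res (gp p.1) := gp_cont.comp continuous_fst
    have h2 : Continuous fun p : PG n × PG n => res (gp p.2) := gp_cont.comp continuous_snd
    exact ((h1.mul h2).mul h1.inv).mul h2.inv
  rw [← hr]
  refine crit hcont (fun p => ⟨(p.2, p.1), ?_⟩) ?_
  · exact (commutatorElement_inv _ _).symm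
  · rw [hr, closure_Com]; exact hc

/-! ### Conjugates -/

lemma closure_Conj (T : Set (G n)) :
    Subgroup.closure (Conj T) = Subgroup.normalClosure T := by
  apply le_antisymm
  · rw [Subgroup.closure_le]
    rintro _ ⟨t, ht, a, rfl | rfl⟩
    · exact Subgroup.normalClosure_normal.conj_mem _ (Subgroup.subset_normalClosure ht) a
    · exact Subgroup.normalClosure_normal.conj_mem _
        (inv_mem (Subgroup.subset_normalClosure ht)) a
  · rw [Subgroup.normalClosure, Subgroup.closure_le]
    intro g hg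
    obtain ⟨t, ht, htg⟩ := Group.mem_conjugatesOfSet_iff.1 hg
    obtain ⟨a, ha⟩ := isConj_iff.1 htg
    exact Subgroup.subset_closure ⟨t, ht, a, Or.inl ha.symm⟩

lemma bdd_Conj {T : Set (G n)} (hT : T.Countable)
    (hc : Countable (G n ⧸ Subgroup.normalClosure T)) : BddGen n (Conj T) := by
  have : Countable T := hT
  let _ : TopologicalSpace T := ⊥
  have : DiscreteTopology T := ⟨rfl⟩
  set s : ((T × Bool) × PG n) → G n := fun p =>
    gp p.2 * (if p.1.2 then (p.1.1 : G n) else (p.1.1 : G n)⁻¹) * (gp p.2)⁻¹ with hs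
  have hr : range s = Conj T := by
    ext g
    constructor
    · rintro ⟨⟨⟨t, b⟩, p⟩, rfl⟩
      refine ⟨t, t.2, gp p, ?_⟩
      cases b
      · exact Or.inr rfl
      · exact Or.inl rfl
    · rintro ⟨t, ht, a, rfl | rfl⟩
      · obtain ⟨p, rfl⟩ := gp_surj a
        exact ⟨((⟨t, ht⟩, true), p), rfl⟩
      · obtain ⟨p, rfl⟩ := gp_surj a
        exact ⟨((⟨t, ht⟩, false), p), rfl⟩
  have hcont : Continuous fun p => res (s p) := by
    have e : (fun p => res (s p)) = fun p : (T × Bool) × PG n =>
        res (gp p.2) * res (if p.1.2 then (p.1.1 : G n) else (p.1.1 : G n)⁻¹) *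
          (res (gp p.2))⁻¹ := by
      funext p
      rw [hs]
      simp only
      rw [map_mul, map_mul, map_inv]
    rw [e]
    have h1 : Continuous fun p : (T × Bool) × PG n => res (gp p.2) := gp_cont.comp continuous_snd
    have h2 : Continuous fun p : (T × Bool) × PG n =>
        res (if p.1.2 then (p.1.1 : G n) else (p.1.1 : G n)⁻¹) :=
      (continuous_of_discreteTopology (f := fun q : T × Bool =>
        res (if q.2 then (q.1 : G n) else (q.1 : G n)⁻¹))).comp continuous_fst
    exact (h1.mul h2).mul h1.inv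
  rw [← hr]
  refine crit hcont ?_ ?_
  · rintro ⟨⟨t, b⟩, p⟩
    refine ⟨((t, !b), p), ?_⟩
    cases b
    · simp only [hs, Bool.not_false, if_true, Bool.false_eq_true, if_false]
      group
    · simp only [hs, Bool.not_true, if_true, Bool.false_eq_true, if_false]
      group
  · rw [hr, closure_Conj]; exact hc

/-! ### Conjugates of elements of smaller balls -/

/-- Hamiltonian homeomorphisms conjugate to Hamiltonian homeomorphisms of the ball of
radius `s` -/
def Sml (n : ℕ) (s : ℝ) (h0 : 0 < s) (h1 : s ≤ 1) : Set (G n) :=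
  {g | ∃ a b : G n, g = a * (sc n s h0 h1).a b * a⁻¹}

lemma closure_Sml {s : ℝ} (h0 : 0 < s) (h1 : s ≤ 1) : Subgroup.closure (Sml n s h0 h1) =
    Subgroup.normalClosure (range (sc n s h0 h1).a) := by
  apply le_antisymm
  · rw [Subgroup.closure_le]
    rintro _ ⟨a, b, rfl⟩
    exact Subgroup.normalClosure_normal.conj_mem _ (Subgroup.subset_normalClosure (mem_range_self b)) a
  · rw [Subgroup.normalClosure, Subgroup.closure_le]
    intro g hg
    obtain ⟨_, ⟨b, rfl⟩, htg⟩ := Group.mem_conjugatesOfSet_iff.1 hg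
    obtain ⟨a, ha⟩ := isConj_iff.1 htg
    exact Subgroup.subset_closure ⟨a, b, ha.symm⟩

lemma sc_cont {P : Type*} [TopologicalSpace P] {s : ℝ} (h0 : 0 < s) (h1 : s ≤ 1)
    {f : P → G n} (hf : Continuous fun p => res (f p)) :
    Continuous fun p => res ((sc n s h0 h1).a (f p)) := by
  have key : ∀ g h : G n, dist (resC ((sc n s h0 h1).a g)) (resC ((sc n s h0 h1).a h)) ≤
      dist (resC g) (resC h) := by
    intro g h
    refine (ContinuousMap.dist_le dist_nonneg).2 fun z => ?_
    change dist ((sc n s h0 h1).a g • (z : E n)) ((sc n s h0 h1).a h • (z : E n)) ≤ _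
    rw [sc_smul, sc_smul, dist_smul₀, Real.norm_of_nonneg h0.le]
    by_cases hz : s⁻¹ • (z : E n) ∈ CB n 1
    · have h2 : dist (g • s⁻¹ • (z : E n)) (h • s⁻¹ • (z : E n)) ≤ dist (resC g) (resC h) :=
        ContinuousMap.dist_apply_le_dist (f := resC g) (g := resC h) ⟨_, hz⟩
      have h3 : 0 ≤ dist (g • s⁻¹ • (z : E n)) (h • s⁻¹ • (z : E n)) := dist_nonneg
      nlinarith
    · have hz' : s⁻¹ • (z : E n) ∉ Bl n := fun h => hz (Bl_sub_CB h)
      rw [off_Bl g _ hz', off_Bl h _ hz', dist_self, mul_zero]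
      exact dist_nonneg
  have hc : ∀ {f : P → G n}, (Continuous fun p => resC (f p)) →
      Continuous fun p => resC ((sc n s h0 h1).a (f p)) := by
    intro f hf
    rw [continuous_iff_continuousAt]
    intro p
    have h2 : Filter.Tendsto (fun q => dist (resC (f q)) (resC (f p))) (𝓝 p) (𝓝 0) :=
      tendsto_iff_dist_tendsto_zero.1 (hf.continuousAt (x := p))
    exact tendsto_iff_dist_tendsto_zero.2
      (squeeze_zero (fun _ => dist_nonneg) (fun q => key _ _) h2)
  have hf1 : Continuous fun p => resC (f p) := continuous_fst.comp (continuous_subtype_val.comp hf)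
  have hf2 : Continuous fun p => resC (f p)⁻¹ :=
    continuous_snd.comp (continuous_subtype_val.comp hf)
  have h3 := hc hf1
  have h4 := hc hf2
  refine Continuous.subtype_mk (h3.prodMk ?_) _
  simpa only [map_inv] using h4

lemma bdd_Sml {s : ℝ} (h0 : 0 < s) (h1 : s ≤ 1)
    (hc : Countable (G n ⧸ Subgroup.normalClosure (range (sc n s h0 h1).a))) :
    BddGen n (Sml n s h0 h1) := by
  set f : PG n × PG n → G n := fun p => gp p.1 * (sc n s h0 h1).a (gp p.2) * (gp p.1)⁻¹
    with hf
  have hr : range f = Sml n s h0 h1 := by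
    ext g
    constructor
    · rintro ⟨p, rfl⟩
      exact ⟨gp p.1, gp p.2, rfl⟩
    · rintro ⟨a, b, rfl⟩
      obtain ⟨p, rfl⟩ := gp_surj a
      obtain ⟨q, rfl⟩ := gp_surj b
      exact ⟨(p, q), rfl⟩
  have hcont : Continuous fun p => res (f p) := by
    have e : (fun p => res (f p)) = fun p : PG n × PG n =>
        res (gp p.1) * res ((sc n s h0 h1).a (gp p.2)) * (res (gp p.1))⁻¹ := by
      funext p
      rw [hf]
      simp only
      rw [map_mul, map_mul, map_inv]
    rw [e]
    have h1 : Continuous fun p : PG n × PG n => res (gp p.1) := gp_cont.comp continuous_fst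
    exact (h1.mul (sc_cont _ _ (gp_cont.comp continuous_snd))).mul h1.inv
  rw [← hr]
  refine crit hcont ?_ ?_
  · rintro ⟨p, q⟩
    obtain ⟨q', hq'⟩ := gp_surj (gp q)⁻¹
    refine ⟨(p, q'), ?_⟩
    simp only [hf, hq', map_inv]
    group
  · rw [hr, closure_Sml]; exact hc

/-! ### Small supports -/

/-- Hamiltonian homeomorphisms supported in a metric ball of radius `δ` -/
def Sup (n : ℕ) (δ : ℝ) : Set (G n) := {g | ∃ c : E n, Off g (ball c δ)}

lemma closure_Sup (δ : ℝ) : Subgroup.closure (Sup n δ) = Fe (HamBar n) (E n) δ := rfl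

lemma bdd_Sup {δ : ℝ} (hδ : 0 < δ) (hc : Countable (G n ⧸ Fe (HamBar n) (E n) (δ / 2))) :
    BddGen n (Sup n δ) := by
  set c : ℕ → E n := TopologicalSpace.denseSeq (E n) with hcs
  set C : ℕ → Set (HG (Zn n)) := fun j => {p | ∀ z : Zn n, (z : E n) ∉ ball (c j) δ →
    p.1.1 z = z} with hC
  have hCc : ∀ j, IsClosed (C j) := by
    intro j
    have e : C j = ⋂ z : {z : Zn n // (z : E n) ∉ ball (c j) δ}, {p | p.1.1 z.1 = z.1} := by
      ext p
      simp only [hC, mem_iInter, Subtype.forall]
      exact Iff.rfl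
    rw [e]
    refine isClosed_iInter fun z => isClosed_eq ?_ continuous_const
    exact (continuous_eval_const z.1).comp
      (continuous_fst.comp continuous_subtype_val)
  have hCoff : ∀ (g : G n) (j : ℕ), res g ∈ C j ↔ Off g (ball (c j) δ) := by
    intro g j
    constructor
    · intro h x hx
      by_cases hx' : x ∈ CB n 1
      · exact congrArg Subtype.val (h ⟨x, hx'⟩ hx)
      · exact off_Bl g x fun h => hx' (Bl_sub_CB h)
    · intro h z hz
      exact Subtype.ext (h z hz)
  have := PS_polish hCc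
  have hr : range (gp : PS C → G n) ⊆ Sup n δ := by
    rw [gp_range]
    rintro g ⟨j, hj⟩
    exact ⟨c j, (hCoff g j).1 hj⟩
  have hle : Fe (HamBar n) (E n) (δ / 2) ≤ Subgroup.closure (range (gp : PS C → G n)) := by
    rw [Fe, Subgroup.closure_le]
    rintro a ⟨x, hx⟩
    apply Subgroup.subset_closure
    rw [gp_range]
    obtain ⟨j, hj⟩ := (TopologicalSpace.denseRange_denseSeq (E n)).exists_dist_lt x (half_pos hδ)
    refine ⟨j, (hCoff a j).2 (hx.mono fun y hy => ?_)⟩
    rw [mem_ball] at hy ⊢
    calc dist y (c j) ≤ dist y x + dist x (c j) := dist_triangle _ _ _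
      _ < δ / 2 + δ / 2 := add_lt_add hy hj
      _ = δ := add_halves δ
  have h1 : BddGen n (range (gp : PS C → G n)) := by
    refine crit gp_cont (fun p => ?_) (countable_of_le hle hc)
    have h2 : (gp p)⁻¹ ∈ range (gp : PS C → G n) := by
      have h3 : gp p ∈ range (gp : PS C → G n) := ⟨p, rfl⟩
      rw [gp_range] at h3 ⊢
      obtain ⟨j, hj⟩ := h3
      exact ⟨j, (hCoff _ j).2 ((hCoff _ j).1 hj).inv⟩
    exact h2
  intro R hR0 hR1
  obtain ⟨N, ε, hε, h2⟩ := h1 R hR0 hR1
  refine ⟨N, ε, hε, fun g hg hgs => ?_⟩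
  obtain ⟨l, hl, hlr, hlp⟩ := h2 g hg hgs
  exact ⟨l, hl, fun a ha => hr (hlr a ha), hlp⟩

end Pool.Agent.W_MP_68f289_gt
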