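import Pool.Agent.W_MP_68f289_gt.Defs

/-!
Abstract part: groups of homeomorphisms with small supports.
-/

open Set Metric Pointwise Topology commutatorElement

namespace Pool.Agent.W_MP_68f289_gt

section defs

variable {Gr X : Type*} [Group Gr] [MetricSpace X] [MulAction Gr X]

/-- `g` is the identity outside `A` -/
def Off (g : Gr) (A : Set X) : Prop := ∀ x, x ∉ A → g • x = x

lemma Off.mono {g : Gr} {A A' : Set X} (h : Off g A) (hA : A ⊆ A') : Off g A' :=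
  fun x hx => h x fun hx' => hx (hA hx')

lemma Off.one (A : Set X) : Off (1 : Gr) A := fun x _ => one_smul _ x

lemma Off.mul {g h : Gr} {A : Set X} (hg : Off g A) (hh : Off h A) : Off (g * h) A := by
  intro x hx
  rw [mul_smul, hh x hx, hg x hx]

lemma Off.inv {g : Gr} {A : Set X} (hg : Off g A) : Off g⁻¹ A := by
  intro x hx
  rw [inv_smul_eq_iff, hg x hx]

lemma Off.smul_mem {g : Gr} {A : Set X} (hg : Off g A) {x : X} (hx : x ∈ A) : g • x ∈ A := by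
  by_contra h
  have h1 := hg.inv _ h
  rw [inv_smul_smul] at h1
  exact h (h1 ▸ hx)

lemma Off.smul_set {g : Gr} {A : Set X} (hg : Off g A) : g • A ⊆ A := by
  rintro _ ⟨x, hx, rfl⟩
  exact hg.smul_mem hx

lemma Off.conj {g : Gr} {A : Set X} (hg : Off g A) (h : Gr) : Off (h * g * h⁻¹) (h • A) := by
  intro x hx
  have h1 : h⁻¹ • x ∉ A := by
    intro h1
    exact hx (Set.mem_smul_set_iff_inv_smul_mem.2 h1)
  rw [mul_smul, mul_smul, hg _ h1, smul_inv_smul]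

lemma Off.commute [FaithfulSMul Gr X] {g h : Gr} {A A' : Set X} (hg : Off g A) (hh : Off h A')
    (hd : Disjoint A A') : g * h = h * g := by
  apply FaithfulSMul.eq_of_smul_eq_smul (α := X)
  intro x
  rw [mul_smul, mul_smul]
  by_cases hx : x ∈ A
  · have hx' : x ∉ A' := fun h' => (Set.disjoint_left.1 hd) hx h'
    have hx'' : g • x ∉ A' := fun h' => (Set.disjoint_left.1 hd) (hg.smul_mem hx) h'
    rw [hh x hx', hh _ hx'']
  · rw [hg x hx]
    by_cases hx' : x ∈ A'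
    · have hx'' : h • x ∉ A := fun h' => (Set.disjoint_left.1 hd) h' (hh.smul_mem hx')
      rw [hg _ hx'']
    · rw [hh x hx', hg x hx]

/-- commutator of commuting elements -/
lemma comm_eq_one {g h : Gr} (e : g * h = h * g) : ⁅g, h⁆ = 1 := by
  rw [commutatorElement_def, e, mul_inv_cancel_right, mul_inv_cancel]

variable (Gr X)

/-- products of elements with support of radius `< ε` -/
def Fe (ε : ℝ) : Subgroup Gr := Subgroup.closure {a : Gr | ∃ c : X, Off a (ball c ε)}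

/-- fragmentable elements -/
def Fr : Subgroup Gr := ⨅ (ε : ℝ) (_ : 0 < ε), Fe Gr X ε

variable {X}

/-- generators for fragmentation inside a compact set -/
def gensK (K : Set X) (ε : ℝ) : Set Gr := {a : Gr | Off a K ∧ ∃ c : X, Off a (ball c ε)}

variable {Gr}

lemma gensK_mono {K K' : Set X} (h : K ⊆ K') (ε : ℝ) : gensK Gr K ε ⊆ gensK Gr K' ε :=
  fun _ ha => ⟨ha.1.mono h, ha.2⟩

variable (Gr)

/-- compactly fragmentable elements -/
def Fc (B : Set X) : Subgroup Gr where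
  carrier := {f | ∃ K : Set X, IsCompact K ∧ K ⊆ B ∧
    ∀ ε : ℝ, 0 < ε → f ∈ Subgroup.closure (gensK Gr K ε)}
  one_mem' := ⟨∅, isCompact_empty, Set.empty_subset _, fun _ _ => one_mem _⟩
  mul_mem' := by
    rintro a b ⟨K, hK, hKB, ha⟩ ⟨K', hK', hKB', hb⟩
    refine ⟨K ∪ K', hK.union hK', Set.union_subset hKB hKB', fun ε hε => mul_mem ?_ ?_⟩
    · exact Subgroup.closure_mono (gensK_mono Set.subset_union_left ε) (ha ε hε)
    · exact Subgroup.closure_mono (gensK_mono Set.subset_union_right ε) (hb ε hε)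
  inv_mem' := by
    rintro a ⟨K, hK, hKB, ha⟩
    exact ⟨K, hK, hKB, fun ε hε => inv_mem (ha ε hε)⟩

variable {Gr}

lemma mem_Fc {B : Set X} {f : Gr} : f ∈ Fc Gr B ↔ ∃ K : Set X, IsCompact K ∧ K ⊆ B ∧
    ∀ ε : ℝ, 0 < ε → f ∈ Subgroup.closure (gensK Gr K ε) := Iff.rfl

lemma Fc_le_Fr (B : Set X) : Fc Gr B ≤ Fr Gr X := by
  rintro f ⟨K, _, _, hf⟩
  rw [Fr, Subgroup.mem_iInf]
  intro ε
  rw [Subgroup.mem_iInf]
  intro hε
  exact Subgroup.closure_mono (fun a ha => ha.2) (hf ε hε)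

/-- the assumptions on the action -/
structure Sys (Gr : Type*) [Group Gr] [MulAction Gr X] (B : Set X) : Prop where
  openB : IsOpen B
  connB : IsPreconnected B
  neB : B.Nonempty
  nc : ∀ K : Set X, IsCompact K → K ⊆ B → (B \ K).Nonempty
  perf : ∀ p ∈ B, ∀ V ∈ 𝓝 p, ∃ q ∈ V, q ≠ p
  supp : ∀ g : Gr, ∃ K : Set X, IsCompact K ∧ K ⊆ B ∧ Off g K
  lt : ∀ V : Set X, IsOpen V → V ⊆ B → ∀ p ∈ V, ∃ W ∈ 𝓝 p, ∀ q ∈ W, ∃ h ∈ Fc Gr B,
    Off h V ∧ h • p = q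

end defs

section main

variable {Gr X : Type*} [Group Gr] [MetricSpace X] [MulAction Gr X] [ContinuousConstSMul Gr X]
  [FaithfulSMul Gr X] {B : Set X}

/-- local transitivity of a subgroup -/
def LT (B : Set X) (L : Subgroup Gr) (p : X) : Prop :=
  ∀ V : Set X, IsOpen V → V ⊆ B → p ∈ V → ∃ W ∈ 𝓝 p, ∀ q ∈ W, ∃ l ∈ L, Off l V ∧ l • p = q

lemma exists_disj {g : Gr} {p : X} (h : g • p ≠ p) {V : Set X} (hV : IsOpen V) (hp : p ∈ V) :
    ∃ V' : Set X, IsOpen V' ∧ V' ⊆ V ∧ p ∈ V' ∧ Disjoint (g • V') V' := by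
  obtain ⟨U1, U2, hU1, hU2, h1, h2, hd⟩ := t2_separation h
  refine ⟨V ∩ U2 ∩ (fun x => g • x) ⁻¹' U1, (hV.inter hU2).inter
    (hU1.preimage (continuous_const_smul g)), fun x hx => hx.1.1, ⟨⟨hp, h2⟩, h1⟩, ?_⟩
  rw [Set.disjoint_left]
  rintro _ ⟨x, hx, rfl⟩ hx'
  exact Set.disjoint_left.1 hd hx.2 hx'.1.2

/-- the action of a commutator at a point displaced by the second factor -/
lemma comm_smul {a b : Gr} {V' : Set X} (ha : Off a V') {p : X}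
    (hp : p ∈ V') (hd : Disjoint (b • V') V') : ⁅a, b⁆ • p = a • p := by
  have h1 : Off (b * a⁻¹ * b⁻¹) (b • V') := ha.inv.conj b
  have h2 : p ∉ b • V' := fun h => Set.disjoint_left.1 hd h hp
  have e : ⁅a, b⁆ = a * (b * a⁻¹ * b⁻¹) := by rw [commutatorElement_def]; group
  rw [e, mul_smul, h1 p h2]

lemma comm_off {a b : Gr} {V V' : Set X} (ha : Off a V') (hV : V' ⊆ V) (hb : Off b V) :
    Off ⁅a, b⁆ V := by
  rw [commutatorElement_def]
  exact ((ha.mono hV).mul hb).mul (ha.mono hV).inv |>.mul hb.inv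

/-- The subgroup `M = [Fc, G]`. -/
def Mo (Gr : Type*) [Group Gr] [MulAction Gr X] (B : Set X) : Subgroup Gr :=
  ⁅Fc Gr B, (⊤ : Subgroup Gr)⁆

lemma Sys.mapsTo (S : Sys Gr B) (g : Gr) {x : X} (hx : x ∈ B) : g • x ∈ B := by
  obtain ⟨K, _, hKB, hK⟩ := S.supp g
  exact (hK.mono hKB).smul_mem hx

lemma Sys.small (_S : Sys Gr B) (h : Gr) {K : Set X} (hK : IsCompact K) (hh : Off h K) {ε : ℝ}
    (hε : 0 < ε) : ∃ δ > 0, ∀ c : X, ∀ x ∈ ball c δ, h • x ∈ ball (h • c) ε := by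
  have h1 := hK.uniformContinuousAt_of_continuousAt (fun x : X => h • x)
    (fun a _ => (continuous_const_smul h).continuousAt) (Metric.dist_mem_uniformity hε)
  obtain ⟨δ, hδ, h2⟩ := Metric.mem_uniformity_dist.1 h1
  refine ⟨min δ ε, lt_min hδ hε, fun c x hx => ?_⟩
  rw [mem_ball] at hx ⊢
  by_cases hxK : x ∈ K
  · exact h2 (lt_of_lt_of_le hx (min_le_left _ _)) hxK
  · by_cases hcK : c ∈ K
    · rw [dist_comm]
      rw [dist_comm] at hx
      exact h2 (lt_of_lt_of_le hx (min_le_left _ _)) hcK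
    · rw [hh x hxK, hh c hcK]
      exact lt_of_lt_of_le hx (min_le_right _ _)

lemma Sys.Fc_normal (S : Sys Gr B) : (Fc Gr B).Normal := by
  constructor
  rintro f ⟨K, hK, hKB, hf⟩ h
  refine ⟨h • K, hK.smul h, ?_, fun ε hε => ?_⟩
  · rintro _ ⟨x, hx, rfl⟩
    exact S.mapsTo h (hKB hx)
  · obtain ⟨K', hK', _, hK''⟩ := S.supp h
    obtain ⟨δ, hδ, h1⟩ := S.small h hK' hK'' hε
    have h2 := hf δ hδ
    have h3 : (MulAut.conj h).toMonoidHom f ∈
        (Subgroup.closure (gensK Gr K δ)).map (MulAut.conj h).toMonoidHom :=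
      Subgroup.mem_map_of_mem _ h2
    rw [MonoidHom.map_closure] at h3
    refine (Subgroup.closure_mono ?_ h3)
    rintro _ ⟨a, ⟨ha1, c, ha2⟩, rfl⟩
    refine ⟨ha1.conj h, h • c, (ha2.conj h).mono ?_⟩
    rintro _ ⟨x, hx, rfl⟩
    exact h1 c x hx

lemma Sys.Fr_normal (S : Sys Gr B) : (Fr Gr X).Normal := by
  constructor
  intro f hf h
  rw [Fr, Subgroup.mem_iInf] at hf ⊢
  intro ε
  rw [Subgroup.mem_iInf]
  intro hε
  obtain ⟨K', hK', _, hK''⟩ := S.supp h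
  obtain ⟨δ, hδ, h1⟩ := S.small h hK' hK'' hε
  have h2 : f ∈ Fe Gr X δ := by
    have := hf δ
    rw [Subgroup.mem_iInf] at this
    exact this hδ
  have h3 : (MulAut.conj h).toMonoidHom f ∈ (Fe Gr X δ).map (MulAut.conj h).toMonoidHom :=
    Subgroup.mem_map_of_mem _ h2
  rw [Fe, MonoidHom.map_closure] at h3
  refine (Subgroup.closure_mono ?_ h3)
  rintro _ ⟨a, ⟨c, ha2⟩, rfl⟩
  refine ⟨h • c, (ha2.conj h).mono ?_⟩
  rintro _ ⟨x, hx, rfl⟩
  exact h1 c x hx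

lemma Sys.Mo_normal (S : Sys Gr B) : (Mo Gr B).Normal := by
  have := S.Fc_normal
  rw [Mo]
  infer_instance

lemma Sys.LT_Mo (S : Sys Gr B) (p : X) : LT B (Mo Gr B) p := by
  intro V hV hVB hp
  obtain ⟨W1, hW1, h1⟩ := S.lt V hV hVB p hp
  obtain ⟨q0, hq0, hne⟩ := S.perf p (hVB hp) W1 hW1
  obtain ⟨k, hkF, hkV, hkp⟩ := h1 q0 hq0
  have hk : k • p ≠ p := by rw [hkp]; exact hne
  obtain ⟨V', hV', hVV', hpV', hd⟩ := exists_disj hk hV hp
  obtain ⟨W, hW, h2⟩ := S.lt V' hV' (hVV'.trans hVB) p hpV'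
  refine ⟨W, hW, fun q hq => ?_⟩
  obtain ⟨h, hhF, hhV, hhp⟩ := h2 q hq
  refine ⟨⁅h, k⁆, Subgroup.commutator_mem_commutator hhF (Subgroup.mem_top _), ?_, ?_⟩
  · exact comm_off hhV hVV' hkV
  · rw [comm_smul hhV hpV' hd, hhp]

/-- transitivity from local transitivity -/
lemma Sys.transitive (S : Sys Gr B) {L : Subgroup Gr} (hL : ∀ p ∈ B, LT B L p) {p q : X}
    (hp : p ∈ B) (hq : q ∈ B) : ∃ l ∈ L, l • p = q := by
  set O : Set X := {q | q ∈ B ∧ ∃ l ∈ L, l • p = q} with hO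
  set O' : Set X := {q | q ∈ B ∧ ¬ ∃ l ∈ L, l • p = q} with hO'
  have hOo : IsOpen O := by
    rw [isOpen_iff_mem_nhds]
    rintro q ⟨hqB, l, hl, hlq⟩
    obtain ⟨W, hW, h1⟩ := hL q hqB B S.openB subset_rfl hqB
    filter_upwards [hW, S.openB.mem_nhds hqB] with r hr hrB
    obtain ⟨l', hl', _, h2⟩ := h1 r hr
    exact ⟨hrB, l' * l, mul_mem hl' hl, by rw [mul_smul, hlq, h2]⟩
  have hOo' : IsOpen O' := by
    rw [isOpen_iff_mem_nhds]
    rintro q ⟨hqB, hnq⟩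
    obtain ⟨W, hW, h1⟩ := hL q hqB B S.openB subset_rfl hqB
    filter_upwards [hW, S.openB.mem_nhds hqB] with r hr hrB
    obtain ⟨l', hl', _, h2⟩ := h1 r hr
    refine ⟨hrB, ?_⟩
    rintro ⟨l, hl, hlr⟩
    exact hnq ⟨l'⁻¹ * l, mul_mem (inv_mem hl') hl, by rw [mul_smul, hlr, ← h2, inv_smul_smul]⟩
  have h1 : B ⊆ O := by
    refine IsPreconnected.subset_left_of_subset_union hOo hOo' ?_ ?_ ?_ S.connB
    · rw [Set.disjoint_left]
      rintro x ⟨_, hx⟩ ⟨_, hx'⟩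
      exact hx' hx
    · intro x hx
      by_cases h : ∃ l ∈ L, l • p = x
      · exact Or.inl ⟨hx, h⟩
      · exact Or.inr ⟨hx, h⟩
    · exact ⟨p, hp, hp, 1, one_mem _, one_smul _ _⟩
  exact (h1 hq).2

/-- a nontrivial subgroup normalised by `M` is locally transitive -/
lemma Sys.LT_of_norm (S : Sys Gr B) {L : Subgroup Gr} (hL : L ≠ ⊥)
    (hn : ∀ m ∈ Mo Gr B, ∀ l ∈ L, m * l * m⁻¹ ∈ L) : ∀ p ∈ B, LT B L p := by
  obtain ⟨⟨l, hl⟩, hl1'⟩ := Subgroup.ne_bot_iff_exists_ne_one.1 hL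
  have hl1 : l ≠ 1 := fun h => hl1' (Subtype.ext h)
  obtain ⟨x, hx⟩ : ∃ x : X, (l : Gr) • x ≠ x := by
    by_contra hcon
    push Not at hcon
    apply hl1
    apply FaithfulSMul.eq_of_smul_eq_smul (α := X)
    intro y
    rw [hcon y, one_smul]
  have hxB : x ∈ B := by
    by_contra hxB
    obtain ⟨K, _, hKB, hK⟩ := S.supp (l : Gr)
    exact hx (hK x fun h => hxB (hKB h))
  obtain ⟨V0, hV0, hV0B, hxV0, hd0⟩ := exists_disj hx S.openB hxB
  -- commutators of elements of `M` supported in `V0` lie in `L`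
  have key : ∀ a ∈ Mo Gr B, ∀ b ∈ Mo Gr B, Off a V0 → Off b V0 → ⁅a, b⁆ ∈ L := by
    intro a ha b hb haV hbV
    have hc : ⁅a, (l : Gr)⁆ ∈ L := by
      rw [commutatorElement_def]
      exact mul_mem (hn a ha _ hl) (inv_mem hl)
    have hc2 : ⁅⁅a, (l : Gr)⁆, b⁆ ∈ L := by
      have e : ⁅⁅a, (l : Gr)⁆, b⁆ = ⁅a, (l : Gr)⁆ * (b * ⁅a, (l : Gr)⁆⁻¹ * b⁻¹) := by
        rw [commutatorElement_def ⁅a, (l : Gr)⁆ b]; group
      rw [e]
      exact mul_mem hc (hn b hb _ (inv_mem hc))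
    have h1 : Off ((l : Gr) * a⁻¹ * (l : Gr)⁻¹) ((l : Gr) • V0) := haV.inv.conj _
    have e1 : ((l : Gr) * a⁻¹ * (l : Gr)⁻¹) * b = b * ((l : Gr) * a⁻¹ * (l : Gr)⁻¹) :=
      h1.commute hbV hd0
    have e2 : ⁅⁅a, (l : Gr)⁆, b⁆ = ⁅a, b⁆ := by
      have e3 : ⁅a, (l : Gr)⁆ = a * ((l : Gr) * a⁻¹ * (l : Gr)⁻¹) := by
        rw [commutatorElement_def]; group
      rw [e3]
      set d := (l : Gr) * a⁻¹ * (l : Gr)⁻¹ with hd
      calc ⁅a * d, b⁆ = a * (d * b) * d⁻¹ * a⁻¹ * b⁻¹ := by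
            rw [commutatorElement_def, mul_inv_rev]; group
        _ = ⁅a, b⁆ := by rw [e1, commutatorElement_def]; group
    rwa [e2] at hc2
  have hLTx : LT B L x := by
    intro V hV hVB hxV
    obtain ⟨W1, hW1, h1⟩ := S.LT_Mo x (V ∩ V0) (hV.inter hV0)
      (Set.inter_subset_left.trans hVB) ⟨hxV, hxV0⟩
    obtain ⟨q0, hq0, hne⟩ := S.perf x hxB W1 hW1
    obtain ⟨b, hb, hbV, hbx⟩ := h1 q0 hq0
    have hb' : b • x ≠ x := by rw [hbx]; exact hne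
    obtain ⟨V', hV', hVV', hxV', hd⟩ := exists_disj hb' (hV.inter hV0) ⟨hxV, hxV0⟩
    obtain ⟨W, hW, h2⟩ := S.LT_Mo x V' hV' ((hVV'.trans Set.inter_subset_left).trans hVB) hxV'
    refine ⟨W, hW, fun q hq => ?_⟩
    obtain ⟨a, ha, haV, hax⟩ := h2 q hq
    refine ⟨⁅a, b⁆, key a ha b hb (haV.mono (hVV'.trans Set.inter_subset_right))
      (hbV.mono Set.inter_subset_right), ?_, ?_⟩
    · exact (comm_off haV hVV' hbV).mono Set.inter_subset_left
    · rw [comm_smul haV hxV' hd, hax]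
  intro y hy V hV hVB hyV
  obtain ⟨m, hm, hmx⟩ := S.transitive (fun p _ => S.LT_Mo p) hxB hy
  have hVx : IsOpen (m⁻¹ • V) := hV.smul m⁻¹
  have hxVx : x ∈ m⁻¹ • V := by
    rw [Set.mem_smul_set_iff_inv_smul_mem, inv_inv, hmx]; exact hyV
  have hVxB : m⁻¹ • V ⊆ B := by
    rintro _ ⟨z, hz, rfl⟩
    exact S.mapsTo _ (hVB hz)
  obtain ⟨W, hW, h1⟩ := hLTx (m⁻¹ • V) hVx hVxB hxVx
  refine ⟨m • W, ?_, ?_⟩
  · rw [← hmx]
    exact smul_mem_nhds_smul_iff m |>.2 hW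
  · rintro _ ⟨q, hq, rfl⟩
    obtain ⟨l', hl', hlV, hlx⟩ := h1 q hq
    refine ⟨m * l' * m⁻¹, hn m hm l' hl', ?_, ?_⟩
    · have := hlV.conj m
      rwa [smul_inv_smul] at this
    · rw [← hmx, mul_smul, mul_smul, inv_smul_smul, hlx]

/-- Lebesgue number argument -/
lemma lebesgue {K : Set X} (hK : IsCompact K) {Q : Gr → Prop}
    (h1 : ∀ p ∈ K, ∃ V : Set X, IsOpen V ∧ p ∈ V ∧ ∀ a : Gr, Off a V → Q a)
    (h2 : ∀ (a : Gr) (V : Set X), Off a V → Disjoint V K → Q a) :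
    ∃ ε > 0, ∀ (a : Gr) (c : X), Off a (ball c ε) → Q a := by
  choose! V hV hpV hQ using h1
  obtain ⟨δ, hδ, h3⟩ := lebesgue_number_lemma_of_metric (c := fun p : K => V p) hK
    (fun p => hV p p.2) (fun p hp => Set.mem_iUnion.2 ⟨⟨p, hp⟩, hpV p hp⟩)
  refine ⟨δ / 2, half_pos hδ, fun a c ha => ?_⟩
  by_cases hd : Disjoint (ball c (δ / 2)) K
  · exact h2 a _ ha hd
  · obtain ⟨x, hx1, hx2⟩ := Set.not_disjoint_iff.1 hd
    obtain ⟨i, hi⟩ := h3 x hx2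
    refine hQ i i.2 a (ha.mono fun y hy => hi ?_)
    rw [mem_ball] at hx1 hy ⊢
    calc dist y x ≤ dist y c + dist c x := dist_triangle _ _ _
      _ < δ / 2 + δ / 2 := add_lt_add hy (by rwa [dist_comm])
      _ = δ := add_halves δ

/-- the basic algebraic identity: if `d = c a⁻¹ c⁻¹` commutes with `b` then
`[[a, c], b] = [a, b]` -/
lemma comm_comm {a b c : Gr} (h : (c * a⁻¹ * c⁻¹) * b = b * (c * a⁻¹ * c⁻¹)) :
    ⁅⁅a, c⁆, b⁆ = ⁅a, b⁆ := by
  have e3 : ⁅a, c⁆ = a * (c * a⁻¹ * c⁻¹) := by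
    rw [commutatorElement_def]; group
  rw [e3]
  set d := c * a⁻¹ * c⁻¹ with hd
  calc ⁅a * d, b⁆ = a * (d * b) * d⁻¹ * a⁻¹ * b⁻¹ := by
        rw [commutatorElement_def, mul_inv_rev]; group
    _ = ⁅a, b⁆ := by rw [h, commutatorElement_def]; group

lemma Sys.exists_not_mem (S : Sys Gr B) {K : Set X} (hK : IsCompact K) (hKB : K ⊆ B) :
    ∃ q ∈ B, q ∉ K := by
  obtain ⟨q, hq⟩ := S.nc K hK hKB
  exact ⟨q, hq.1, hq.2⟩

/-- small elements commute with everything modulo a nontrivial normal subgroup -/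
lemma Sys.small_normal (S : Sys Gr B) {L : Subgroup Gr} (hLn : L.Normal)
    (hLT : ∀ p ∈ B, LT B L p) {K : Set X} (hK : IsCompact K) (hKB : K ⊆ B) :
    ∃ ε > 0, ∀ (a : Gr) (c : X), Off a (ball c ε) → ∀ b : Gr, Off b K → ⁅a, b⁆ ∈ L := by
  refine lebesgue hK (Q := fun a => ∀ b : Gr, Off b K → ⁅a, b⁆ ∈ L) ?_ ?_
  · intro p hp
    obtain ⟨q, hqB, hqK⟩ := S.exists_not_mem hK hKB
    obtain ⟨c, hc, hcp⟩ := S.transitive hLT (hKB hp) hqB
    refine ⟨(fun x => c • x) ⁻¹' Kᶜ, hK.isClosed.isOpen_compl.preimage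
      (continuous_const_smul c), ?_, ?_⟩
    · change c • p ∈ Kᶜ
      rw [hcp]; exact hqK
    · intro a ha b hb
      have h1 : Off (c * a⁻¹ * c⁻¹) (c • ((fun x => c • x) ⁻¹' Kᶜ)) := ha.inv.conj c
      have hd : Disjoint (c • ((fun x => c • x) ⁻¹' Kᶜ)) K := by
        rw [Set.disjoint_left]
        rintro _ ⟨x, hx, rfl⟩
        exact hx
      have e := comm_comm (h1.commute hb hd)
      rw [← e]
      have hc1 : ⁅a, c⁆ ∈ L := by
        rw [commutatorElement_def]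
        exact mul_mem (hLn.conj_mem c hc a) (inv_mem hc)
      have e1 : ⁅⁅a, c⁆, b⁆ = ⁅a, c⁆ * (b * ⁅a, c⁆⁻¹ * b⁻¹) := by
        rw [commutatorElement_def ⁅a, c⁆ b]; group
      rw [e1]
      exact mul_mem hc1 (hLn.conj_mem _ (inv_mem hc1) b)
  · intro a V ha hd b hb
    rw [comm_eq_one (ha.commute hb hd)]
    exact one_mem _

/-- the same for subgroups normalised by `M` only -/
lemma Sys.small_norm (S : Sys Gr B) {L : Subgroup Gr}
    (hn : ∀ m ∈ Mo Gr B, ∀ l ∈ L, m * l * m⁻¹ ∈ L)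
    (hLT : ∀ p ∈ B, LT B L p) {K : Set X} (hK : IsCompact K) (hKB : K ⊆ B) :
    ∃ ε > 0, ∀ (a : Gr) (c : X), Off a (ball c ε) → ∀ b ∈ Mo Gr B, Off b K → ⁅a, b⁆ ∈ L := by
  have hMn := S.Mo_normal
  refine lebesgue hK (Q := fun a => ∀ b ∈ Mo Gr B, Off b K → ⁅a, b⁆ ∈ L) ?_ ?_
  · intro p hp
    obtain ⟨q, hqB, hqK⟩ := S.exists_not_mem hK hKB
    obtain ⟨c, hc, hcp⟩ := S.transitive hLT (hKB hp) hqB
    obtain ⟨Kc, hKc, hKcB, hcK⟩ := S.supp c
    obtain ⟨p1, hp1B, hp1K⟩ := S.exists_not_mem (hK.union hKc) (Set.union_subset hKB hKcB)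
    rw [Set.mem_union, not_or] at hp1K
    obtain ⟨m, hm, hmp⟩ := S.transitive (fun p _ => S.LT_Mo p) (hKB hp) hp1B
    have hKo : IsOpen Kᶜ := hK.isClosed.isOpen_compl
    refine ⟨(fun x => c • x) ⁻¹' Kᶜ ∩ (fun x => m • x) ⁻¹' Kᶜ ∩
      (fun x => c • m • x) ⁻¹' Kᶜ, ((hKo.preimage (continuous_const_smul c)).inter
      (hKo.preimage (continuous_const_smul m))).inter
      (hKo.preimage ((continuous_const_smul c).comp (continuous_const_smul m))), ?_, ?_⟩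
    · refine ⟨⟨?_, ?_⟩, ?_⟩
      · change c • p ∈ Kᶜ
        rw [hcp]; exact hqK
      · change m • p ∈ Kᶜ
        rw [hmp]; exact hp1K.1
      · change c • m • p ∈ Kᶜ
        rw [hmp, hcK _ hp1K.2]; exact hp1K.1
    · intro a ha b hbM hb
      set V := (fun x => c • x) ⁻¹' Kᶜ ∩ (fun x => m • x) ⁻¹' Kᶜ ∩
        (fun x => c • m • x) ⁻¹' Kᶜ with hV
      -- `[a, m] = a * a1`
      have h1 : Off (m * a⁻¹ * m⁻¹) (m • V) := ha.inv.conj m
      have hd1 : Disjoint (m • V) K := by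
        rw [Set.disjoint_left]
        rintro _ ⟨x, hx, rfl⟩
        exact hx.1.2
      have e1 : ⁅⁅a, m⁆, b⁆ = ⁅a, b⁆ := comm_comm (h1.commute hb hd1)
      have ham : ⁅a, m⁆ ∈ Mo Gr B := by
        rw [commutatorElement_def]
        exact mul_mem (hMn.conj_mem m hm a) (inv_mem hm)
      have haoff : Off ⁅a, m⁆ (V ∪ m • V) := by
        have e : ⁅a, m⁆ = a * (m * a⁻¹ * m⁻¹) := by
          rw [commutatorElement_def]; group
        rw [e]
        exact (ha.mono Set.subset_union_left).mul (h1.mono Set.subset_union_right)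
      have h2 : Off (c * ⁅a, m⁆⁻¹ * c⁻¹) (c • (V ∪ m • V)) := haoff.inv.conj c
      have hd2 : Disjoint (c • (V ∪ m • V)) K := by
        rw [Set.disjoint_left]
        rintro _ ⟨x, hx | ⟨y, hy, rfl⟩, rfl⟩
        · exact hx.1.1
        · exact hy.2
      have e2 : ⁅⁅⁅a, m⁆, c⁆, b⁆ = ⁅⁅a, m⁆, b⁆ := comm_comm (h2.commute hb hd2)
      rw [← e1, ← e2]
      have hc1 : ⁅⁅a, m⁆, c⁆ ∈ L := by
        rw [commutatorElement_def ⁅a, m⁆ c]
        exact mul_mem (hn _ ham c hc) (inv_mem hc)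
      have e3 : ⁅⁅⁅a, m⁆, c⁆, b⁆ = ⁅⁅a, m⁆, c⁆ * (b * ⁅⁅a, m⁆, c⁆⁻¹ * b⁻¹) := by
        rw [commutatorElement_def ⁅⁅a, m⁆, c⁆ b]; group
      rw [e3]
      exact mul_mem hc1 (hn b hbM _ (inv_mem hc1))
  · intro a V ha hd b _ hb
    rw [comm_eq_one (ha.commute hb hd)]
    exact one_mem _

lemma comm_mul_left (f g b : Gr) : ⁅f * g, b⁆ = f * ⁅g, b⁆ * f⁻¹ * ⁅f, b⁆ := by
  simp only [commutatorElement_def, mul_inv_rev]; group

lemma comm_mul_left' (f g b : Gr) : ⁅f * g, b⁆ = ⁅f, g * b * g⁻¹⁆ * ⁅g, b⁆ := by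
  simp only [commutatorElement_def, mul_inv_rev]; group

lemma comm_inv_left (f b : Gr) : ⁅f⁻¹, b⁆ = f⁻¹ * ⁅f, b⁆⁻¹ * f := by
  simp only [commutatorElement_def, mul_inv_rev]; group

lemma comm_inv_left' (f b : Gr) : ⁅f⁻¹, b⁆ = ⁅f, f⁻¹ * b * f⁆⁻¹ := by
  simp only [commutatorElement_def, mul_inv_rev]; group

/-- `[F, G] ≤ L` for every nontrivial normal subgroup `L` -/
theorem Sys.Fr_comm_le (S : Sys Gr B) {L : Subgroup Gr} (hLn : L.Normal) (hL : L ≠ ⊥) :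
    ⁅Fr Gr X, (⊤ : Subgroup Gr)⁆ ≤ L := by
  have hLT := S.LT_of_norm hL (fun m _ l hl => hLn.conj_mem l hl m)
  rw [Subgroup.commutator_le]
  intro f hf b _
  obtain ⟨K, hK, hKB, hb⟩ := S.supp b
  obtain ⟨ε, hε, h1⟩ := S.small_normal hLn hLT hK hKB
  have h2 : f ∈ Fe Gr X ε := by
    rw [Fr, Subgroup.mem_iInf] at hf
    have := hf ε
    rw [Subgroup.mem_iInf] at this
    exact this hε
  rw [Fe] at h2
  clear hf
  induction h2 using Subgroup.closure_induction with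
  | mem a ha => obtain ⟨c, ha⟩ := ha; exact h1 a c ha b hb
  | one => rw [comm_eq_one (by rw [one_mul, mul_one])]; exact one_mem _
  | mul f g hf hg h3 h4 =>
    rw [comm_mul_left]
    exact mul_mem (hLn.conj_mem _ h4 f) h3
  | inv f hf h3 =>
    rw [comm_inv_left]
    have := hLn.conj_mem _ (inv_mem h3) f⁻¹
    rwa [inv_inv] at this

/-- `[Fc, M] ≤ L` for every nontrivial subgroup normalised by `M` -/
lemma Sys.Fc_comm_le (S : Sys Gr B) {L : Subgroup Gr} (hL : L ≠ ⊥)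
    (hn : ∀ m ∈ Mo Gr B, ∀ l ∈ L, m * l * m⁻¹ ∈ L) :
    ⁅Fc Gr B, Mo Gr B⁆ ≤ L := by
  have hMn := S.Mo_normal
  have hLT := S.LT_of_norm hL hn
  rw [Subgroup.commutator_le]
  rintro f ⟨Kf, hKf, hKfB, hf⟩ b hbM
  obtain ⟨Kb, hKb, hKbB, hb⟩ := S.supp b
  obtain ⟨ε, hε, h1⟩ := S.small_norm hn hLT (hKf.union hKb) (Set.union_subset hKfB hKbB)
  have key : Off f Kf ∧ ∀ b ∈ Mo Gr B, Off b (Kf ∪ Kb) → ⁅f, b⁆ ∈ L := by
    have h2 := hf ε hε
    clear hf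
    induction h2 using Subgroup.closure_induction with
    | mem a ha => obtain ⟨ha1, c, ha⟩ := ha; exact ⟨ha1, fun b hbM hb => h1 a c ha b hbM hb⟩
    | one =>
      refine ⟨Off.one _, fun b hbM hb => ?_⟩
      rw [comm_eq_one (by rw [one_mul, mul_one])]; exact one_mem _
    | mul f g hf hg h3 h4 =>
      obtain ⟨h3, h3'⟩ := h3
      obtain ⟨h4, h4'⟩ := h4
      refine ⟨h3.mul h4, fun b hbM hb => ?_⟩
      rw [comm_mul_left']
      refine mul_mem (h3' _ (hMn.conj_mem b hbM g) ?_) (h4' b hbM hb)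
      have h5 : Off g (Kf ∪ Kb) := h4.mono Set.subset_union_left
      exact (h5.mul hb).mul h5.inv
    | inv f hf h3 =>
      obtain ⟨h3, h3'⟩ := h3
      refine ⟨h3.inv, fun b hbM hb => ?_⟩
      rw [comm_inv_left']
      refine inv_mem (h3' _ ?_ ?_)
      · have := hMn.conj_mem b hbM f⁻¹
        rwa [inv_inv] at this
      · have h5 : Off f (Kf ∪ Kb) := h3.mono Set.subset_union_left
        exact (h5.inv.mul hb).mul h5
  exact key.2 b hbM (hb.mono Set.subset_union_right)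

lemma Sys.Fc_Mo_ne_bot (S : Sys Gr B) : ⁅Fc Gr B, Mo Gr B⁆ ≠ ⊥ := by
  obtain ⟨p, hp⟩ := S.neB
  obtain ⟨W1, hW1, h1⟩ := S.LT_Mo p B S.openB subset_rfl hp
  obtain ⟨q0, hq0, hne⟩ := S.perf p hp W1 hW1
  obtain ⟨m, hm, _, hmp⟩ := h1 q0 hq0
  obtain ⟨V', hV', hVV', hpV', hd⟩ := exists_disj (g := m) (by rw [hmp]; exact hne) S.openB hp
  obtain ⟨W, hW, h2⟩ := S.lt V' hV' hVV' p hpV'
  obtain ⟨q1, hq1, hne1⟩ := S.perf p hp W hW
  obtain ⟨h, hhF, hhV, hhp⟩ := h2 q1 hq1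
  intro hbot
  have h3 : ⁅h, m⁆ ∈ ⁅Fc Gr B, Mo Gr B⁆ := Subgroup.commutator_mem_commutator hhF hm
  rw [hbot, Subgroup.mem_bot] at h3
  have h4 := comm_smul (b := m) hhV hpV' hd
  rw [h3, one_smul, hhp] at h4
  exact hne1 h4.symm

lemma Sys.Mo_ne_bot (S : Sys Gr B) : Mo Gr B ≠ ⊥ := by
  intro h
  apply S.Fc_Mo_ne_bot
  rw [h, Subgroup.commutator_bot_right]

/-- `M` is contained in every nontrivial subgroup normalised by `M` -/
theorem Sys.Mo_le (S : Sys Gr B) {L : Subgroup Gr} (hL : L ≠ ⊥)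
    (hn : ∀ m ∈ Mo Gr B, ∀ l ∈ L, m * l * m⁻¹ ∈ L) : Mo Gr B ≤ L := by
  have h1 := S.Fc_normal
  have h2 := S.Mo_normal
  have h3 : (⁅Fc Gr B, Mo Gr B⁆ : Subgroup Gr).Normal := inferInstance
  refine le_trans ?_ (S.Fc_comm_le hL hn)
  refine le_trans ?_ (S.Fr_comm_le h3 S.Fc_Mo_ne_bot)
  exact Subgroup.commutator_mono (Fc_le_Fr B) le_rfl

theorem Sys.Mo_eq (S : Sys Gr B) : Mo Gr B = ⁅Fr Gr X, (⊤ : Subgroup Gr)⁆ :=
  le_antisymm (Subgroup.commutator_mono (Fc_le_Fr B) le_rfl)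
    (S.Fr_comm_le S.Mo_normal S.Mo_ne_bot)

theorem Sys.Mo_simple (S : Sys Gr B) : IsSimpleGroup (Mo Gr B) := by
  have : Nontrivial (Mo Gr B) := (Subgroup.nontrivial_iff_ne_bot _).2 S.Mo_ne_bot
  refine ⟨fun N hN => ?_⟩
  by_cases h : N = ⊥
  · exact Or.inl h
  · right
    have h1 : N.map (Mo Gr B).subtype ≠ ⊥ := by
      rw [Ne, Subgroup.map_eq_bot_iff_of_injective _ (Subgroup.subtype_injective _)]
      exact h
    have h2 : Mo Gr B ≤ N.map (Mo Gr B).subtype := by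
      refine S.Mo_le h1 ?_
      rintro m hm _ ⟨l, hl, rfl⟩
      exact ⟨⟨m, hm⟩ * l * ⟨m, hm⟩⁻¹, hN.conj_mem l hl ⟨m, hm⟩, rfl⟩
    rw [eq_top_iff]
    intro x _
    obtain ⟨y, hy, hyx⟩ := h2 x.2
    have : y = x := Subtype.ext hyx
    rwa [← this]

theorem Sys.simple_iff (S : Sys Gr B) :
    IsSimpleGroup Gr ↔ Mo Gr B = ⊤ := by
  constructor
  · intro h
    exact (h.eq_bot_or_eq_top_of_normal _ S.Mo_normal).resolve_left S.Mo_ne_bot
  · intro h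
    have h1 : Nontrivial Gr := by
      obtain ⟨x, hx⟩ := Subgroup.ne_bot_iff_exists_ne_one.1 S.Mo_ne_bot
      exact ⟨x, 1, fun h => hx (Subtype.ext h)⟩
    refine ⟨fun N hN => ?_⟩
    by_cases h2 : N = ⊥
    · exact Or.inl h2
    · right
      rw [eq_top_iff, ← h]
      exact S.Mo_le h2 fun m _ l hl => hN.conj_mem l hl m

theorem Sys.simple_iff_perfect_and_frag (S : Sys Gr B) :
    IsSimpleGroup Gr ↔ (commutator Gr = ⊤ ∧ Fr Gr X = ⊤) := by
  rw [S.simple_iff]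
  constructor
  · intro h
    refine ⟨?_, ?_⟩
    · rw [eq_top_iff, ← h, Mo, commutator_def]
      exact Subgroup.commutator_mono le_top le_rfl
    · have := S.Fr_normal
      rw [eq_top_iff, ← h, S.Mo_eq]
      exact Subgroup.commutator_le_left _ _
  · rintro ⟨h1, h2⟩
    rw [S.Mo_eq, h2, ← commutator_def, h1]

theorem Sys.simple_iff_perfect_and_cfrag (S : Sys Gr B) :
    IsSimpleGroup Gr ↔ (commutator Gr = ⊤ ∧ Fc Gr B = ⊤) := by
  constructor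
  · intro h
    refine ⟨(S.simple_iff_perfect_and_frag.1 h).1, ?_⟩
    have h1 := S.simple_iff.1 h
    have := S.Fc_normal
    rw [eq_top_iff, ← h1, Mo]
    exact Subgroup.commutator_le_left _ _
  · rintro ⟨h1, h2⟩
    refine S.simple_iff_perfect_and_frag.2 ⟨h1, ?_⟩
    rw [eq_top_iff, ← h2]
    exact Fc_le_Fr B

end main

end Pool.Agent.W_MP_68f289_gt
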