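import Mathlib

/-!
Definitions used in the statements: the groups of Hamiltonian homeomorphisms and of hameomorphisms
of the open unit ball of `ℝ^{2n}`.
-/

open Set Metric Topology

namespace Pool.Agent.W_MP_68f289_gt

/-! ### The space and the ball -/

/-- `ℝ^{2n}` with coordinates `(x, y)` -/
abbrev E (n : ℕ) := (Fin n → ℝ) × (Fin n → ℝ)

instance instMet (n : ℕ) : MetricSpace (E n) := inferInstance
instance instPMet (n : ℕ) : PseudoMetricSpace (E n) := inferInstance
instance instDist (n : ℕ) : Dist (E n) := inferInstance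
instance instUnif (n : ℕ) : UniformSpace (E n) := inferInstance
instance instTop (n : ℕ) : TopologicalSpace (E n) := inferInstance
instance instNACG (n : ℕ) : NormedAddCommGroup (E n) := inferInstance
instance instACG (n : ℕ) : AddCommGroup (E n) := inferInstance
noncomputable instance instNS (n : ℕ) : NormedSpace ℝ (E n) := inferInstance
instance instMod (n : ℕ) : Module ℝ (E n) := inferInstance
instance instSMul (n : ℕ) : SMul ℝ (E n) := inferInstance
instance instGrp (n : ℕ) : Group (E n ≃ₜ E n) := inferInstance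

/-- squared Euclidean norm -/
def qf {n : ℕ} (w : E n) : ℝ := ∑ i, ((w.1 i) ^ 2 + (w.2 i) ^ 2)

/-- the open unit ball -/
def Bl (n : ℕ) : Set (E n) := {z | qf z < 1}

/-- the closed ball of radius `r` -/
def CB (n : ℕ) (r : ℝ) : Set (E n) := {z | qf z ≤ r ^ 2}

/-! ### Hamiltonian diffeomorphisms and homeomorphisms -/

/-- the `i`-th unit vector of `ℝⁿ` -/
def uv {n : ℕ} (i : Fin n) : Fin n → ℝ := Pi.single i 1

/-- directional derivatives -/
noncomputable def dd {n : ℕ} (h : E n → ℝ) (z v : E n) : ℝ := fderiv ℝ h z v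

/-- the Hamiltonian vector field of a function -/
noncomputable def XH {n : ℕ} (h : E n → ℝ) (z : E n) : E n :=
  ((fun i : Fin n => dd h z (0, uv i)), (fun i : Fin n => -dd h z (uv i, 0)))

/-- a smooth Hamiltonian `H` with compact support in the ball, and its isotopy `ψ` -/
structure HIso (n : ℕ) (H : ℝ → E n → ℝ) (ψ : ℝ → E n → E n) : Prop where
  smooth : ContDiff ℝ ((⊤ : ℕ∞) : WithTop ℕ∞) (Function.uncurry H)
  supp : ∃ K : Set (E n), IsCompact K ∧ K ⊆ Bl n ∧ ∀ t : ℝ, ∀ x, x ∉ K → H t x = 0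
  zero : ∀ x, ψ 0 x = x
  der : ∀ (t : ℝ) (x : E n), HasDerivAt (fun s : ℝ => ψ s x) (XH (H t) (ψ t x)) t

/-- Hamiltonian diffeomorphisms: time-one maps of Hamiltonian flows with compact support in the
ball -/
def IsHam (n : ℕ) (u : E n ≃ₜ E n) : Prop := ∃ H ψ, HIso n H ψ ∧ ∀ x, u x = ψ 1 x

/-- the generators of the group of Hamiltonian homeomorphisms: homeomorphisms supported in a compact
subset `K` of the ball which are uniform limits of Hamiltonian diffeomorphisms of the ball supported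
in `K` -/
def gens (n : ℕ) : Set (E n ≃ₜ E n) :=
  {φ | ∃ K : Set (E n), IsCompact K ∧ K ⊆ Bl n ∧ (∀ x, x ∉ K → φ x = x) ∧
    ∃ u : ℕ → (E n ≃ₜ E n), (∀ k, ∀ x, x ∉ K → u k x = x) ∧ (∀ k, IsHam n (u k)) ∧
      TendstoUniformly (fun k x => u k x) (fun x => φ x) Filter.atTop}

/-- the group of compactly supported Hamiltonian homeomorphisms of the open unit ball -/
def HamBar (n : ℕ) : Subgroup (E n ≃ₜ E n) := Subgroup.closure (gens n)

/-! ### Hameomorphisms -/

/-- the Hofer norm of a time dependent function -/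
noncomputable def hofer {n : ℕ} (H : ℝ → E n → ℝ) : ℝ :=
  ∫ t in (0 : ℝ)..1, ((⨆ x, H t x) - ⨅ x, H t x)

/-- sequences of functions which are Cauchy for the Hofer norm -/
def HCauchy {n : ℕ} (H : ℕ → ℝ → E n → ℝ) : Prop :=
  ∀ ε : ℝ, 0 < ε → ∃ N : ℕ, ∀ j k : ℕ, N ≤ j → N ≤ k → hofer (fun t x => H j t x - H k t x) < ε

/-- uniform convergence, on `[0, 1] × ℝ^{2n}`, of isotopies to a path of homeomorphisms -/
def UConv {n : ℕ} (ψ : ℕ → ℝ → E n → E n) (Φ : Icc (0 : ℝ) 1 → (E n ≃ₜ E n)) : Prop :=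
  ∀ ε : ℝ, 0 < ε → ∃ N : ℕ, ∀ k : ℕ, N ≤ k → ∀ (t : Icc (0 : ℝ) 1) (x : E n),
    dist (ψ k t x) (Φ t x) < ε

/-- Hamiltonian hameomorphisms of the open unit ball (finite energy homeomorphisms in the sense of
Oh and Müller): there are a compact subset `K` of the ball, smooth Hamiltonians `H k` supported in
`K` with flows `ψ k`, which form a Cauchy sequence for the Hofer norm, and whose flows converge
uniformly on `[0, 1] × ℝ^{2n}` to an isotopy `Φ` (a path of homeomorphisms) with end point `φ` -/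
def hameos (n : ℕ) : Set (E n ≃ₜ E n) :=
  {φ | ∃ K : Set (E n), IsCompact K ∧ K ⊆ Bl n ∧
    ∃ (H : ℕ → ℝ → E n → ℝ) (ψ : ℕ → ℝ → E n → E n), (∀ k, HIso n (H k) (ψ k)) ∧
      (∀ k, ∀ t : ℝ, ∀ x, x ∉ K → H k t x = 0) ∧ HCauchy H ∧
      ∃ Φ : Icc (0 : ℝ) 1 → (E n ≃ₜ E n), UConv ψ Φ ∧ Φ ⟨1, by simp⟩ = φ}

/-- the group generated by the Hamiltonian hameomorphisms -/
def Hameo (n : ℕ) : Subgroup (E n ≃ₜ E n) := Subgroup.closure (hameos n)

/-! ### Groups of homeomorphisms as types -/

/-- a group of homeomorphisms, as a type -/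
abbrev Ty {n : ℕ} (L : Subgroup (E n ≃ₜ E n)) : Type := ↥L

instance instGT {n : ℕ} (L : Subgroup (E n ≃ₜ E n)) : Group (Ty L) := inferInstance

/-- the group of Hamiltonian homeomorphisms of the ball, as a type -/
abbrev G (n : ℕ) : Type := ↥(HamBar n)

instance instGG (n : ℕ) : Group (G n) := inferInstance

/-- the group generated by the hameomorphisms, as a type -/
abbrev Hm (n : ℕ) : Type := ↥(Hameo n)

instance instGH (n : ℕ) : Group (Hm n) := inferInstance

/-- groups of homeomorphisms with compact support in the ball which contain all Hamiltonian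
diffeomorphisms of the ball -/
structure Big {n : ℕ} (L : Subgroup (E n ≃ₜ E n)) : Prop where
  ham : ∀ u : E n ≃ₜ E n, IsHam n u → u ∈ L
  supp : ∀ u ∈ L, ∃ K : Set (E n), IsCompact K ∧ K ⊆ Bl n ∧ ∀ x, x ∉ K → u x = x

/-- elements of `L` which are the identity outside some ball of radius `ε` -/
def SmallSupp {n : ℕ} (L : Subgroup (E n ≃ₜ E n)) (ε : ℝ) : Set (Ty L) :=
  {a | ∃ c : E n, ∀ x, x ∉ ball c ε → (a : E n ≃ₜ E n) x = x}

/-- the fragmentable elements of `L`: the elements which for every `ε > 0` are products of elements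
of `L` supported in balls of radius `ε` -/
def FrL {n : ℕ} (L : Subgroup (E n ≃ₜ E n)) : Subgroup (Ty L) :=
  ⨅ (ε : ℝ) (_ : 0 < ε), Subgroup.closure (SmallSupp L ε)

/-! ### Sets of Hamiltonian homeomorphisms -/

/-- Hamiltonian homeomorphisms `g` which are conjugate to a Hamiltonian homeomorphism of the ball
of radius `s`: `g ∘ a ∘ (s ·) = a ∘ (s ·) ∘ b` for some Hamiltonian homeomorphisms `a`, `b` of the
unit ball -/
def Frg (n : ℕ) (s : ℝ) : Set (G n) :=
  {g | ∃ a b : G n, ∀ x : E n, (g : E n ≃ₜ E n) ((a : E n ≃ₜ E n) (s • x)) =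
    (a : E n ≃ₜ E n) (s • (b : E n ≃ₜ E n) x)}

/-- homeomorphisms supported in `K` which are uniform limits of Hamiltonian diffeomorphisms of
the ball supported in `K` -/
def GS (n : ℕ) (K : Set (E n)) : Set (E n ≃ₜ E n) :=
  {φ | (∀ x, x ∉ K → φ x = x) ∧ ∀ ε : ℝ, 0 < ε → ∃ u : E n ≃ₜ E n, IsHam n u ∧
    (∀ x, x ∉ K → u x = x) ∧ ∀ x, dist (u x) (φ x) < ε}

/-- `S` generates boundedly near the identity: for every radius `R < 1`, the elements which are
uniform limits of Hamiltonian diffeomorphisms supported in the closed ball of radius `R` and which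
are close to the identity are products of a bounded number of elements of `S` -/
def BddGen (n : ℕ) (S : Set (G n)) : Prop :=
  ∀ R : ℝ, 0 < R → R < 1 → ∃ N : ℕ, ∃ ε > 0, ∀ g : G n, (g : E n ≃ₜ E n) ∈ GS n (CB n R) →
    (∀ x : E n, dist ((g : E n ≃ₜ E n) x) x < ε) →
    ∃ l : List (G n), l.length = N ∧ (∀ a ∈ l, a ∈ S) ∧ l.prod = g

/-- the set of commutators -/
def Com (n : ℕ) : Set (G n) := {g | ∃ a b : G n, a * b * a⁻¹ * b⁻¹ = g}

/-- conjugates of the elements of `T` and of their inverses -/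
def Conj {n : ℕ} (T : Set (G n)) : Set (G n) :=
  {g | ∃ t ∈ T, ∃ a : G n, g = a * t * a⁻¹ ∨ g = a * t⁻¹ * a⁻¹}

end Pool.Agent.W_MP_68f289_gt
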