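import Pool.Agent.W_MP_68f289_gt.Grp

/-!
Fragmentation of smooth Hamiltonian diffeomorphisms.
-/

open Set Metric Topology
open scoped NNReal ContDiff

namespace Pool.Agent.W_MP_68f289_gt

variable {n : ℕ}

/-- homeomorphisms act by evaluation -/
instance instMA {n : ℕ} (L : Subgroup (E n ≃ₜ E n)) : MulAction L (E n) where
  smul g x := (g : E n ≃ₜ E n) x
  one_smul _ := rfl
  mul_smul _ _ _ := rfl

instance instMT {n : ℕ} (L : Subgroup (E n ≃ₜ E n)) : MulAction (Ty L) (E n) := inferInstance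
instance instMG (n : ℕ) : MulAction (G n) (E n) := inferInstance

variable {L : Subgroup (E n ≃ₜ E n)}

lemma FrL_eq : FrL L = Fr (Ty L) (E n) := rfl

lemma smul_def' (g : L) (x : E n) : g • x = (g : E n ≃ₜ E n) x := rfl

instance : ContinuousConstSMul L (E n) where
  continuous_const_smul g := (g : E n ≃ₜ E n).continuous

instance : FaithfulSMul L (E n) where
  eq_of_smul_eq_smul := by
    intro g h e
    apply Subtype.ext
    apply Homeomorph.ext
    exact e

/-- the evolution as an element of the group -/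
noncomputable def Adm.evG (hL : Big L) {H : ℝ → E n → ℝ} {K : Set (E n)} (hA : Adm n H K)
    (s t : Icc (0 : ℝ) 1) : L :=
  ⟨hA.ev s t, hL.ham _ (isHam_ev hA s t)⟩

lemma Adm.evG_smul (hL : Big L) {H : ℝ → E n → ℝ} {K : Set (E n)} (hA : Adm n H K)
    (s t : Icc (0 : ℝ) 1) (x : E n) : hA.evG hL s t • x = hA.good.sol s x t := rfl

lemma Adm.evG_mul (hL : Big L) {H : ℝ → E n → ℝ} {K : Set (E n)} (hA : Adm n H K)
    (s t r : Icc (0 : ℝ) 1) : hA.evG hL t r * hA.evG hL s t = hA.evG hL s r := by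
  apply FaithfulSMul.eq_of_smul_eq_smul (α := E n)
  intro x
  rw [mul_smul, Adm.evG_smul, Adm.evG_smul, Adm.evG_smul, hA.good.sol_sol]

lemma Adm.evG_self (hL : Big L) {H : ℝ → E n → ℝ} {K : Set (E n)} (hA : Adm n H K)
    (s : Icc (0 : ℝ) 1) : hA.evG hL s s = 1 := by
  apply FaithfulSMul.eq_of_smul_eq_smul (α := E n)
  intro x
  rw [one_smul, Adm.evG_smul, hA.good.sol_self]

lemma Adm.evG_off (hL : Big L) {H : ℝ → E n → ℝ} {K : Set (E n)} (hA : Adm n H K)
    (s t : Icc (0 : ℝ) 1) : Off (hA.evG hL s t) K := fun _ hx => hA.ev_off s t hx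

/-- Hamiltonian diffeomorphisms supported in `K` and in a ball of radius `ε` -/
def gensH (L : Subgroup (E n ≃ₜ E n)) (K : Set (E n)) (ε : ℝ) : Set L :=
  {a : L | IsHam n (a : E n ≃ₜ E n) ∧ Off a K ∧ ∃ c : E n, Off a (ball c ε)}

lemma gensH_sub (K : Set (E n)) (ε : ℝ) : gensH L K ε ⊆ gensK L K ε := fun _ ha => ha.2

lemma Adm.evG_isHam (hL : Big L) {H : ℝ → E n → ℝ} {K : Set (E n)} (hA : Adm n H K)
    (s t : Icc (0 : ℝ) 1) : IsHam n (hA.evG hL s t : E n ≃ₜ E n) := isHam_ev hA s t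

/-- bump functions -/
noncomputable def bmp (ε : ℝ) (hε : 0 < ε) (c : E n) : ContDiffBump c :=
  ⟨ε / 4, ε / 2, by positivity, by linarith⟩

/-- sums of cut-off functions -/
noncomputable def sg (ε : ℝ) (hε : 0 < ε) : List (E n) → E n → ℝ
  | [], _ => 0
  | c :: l, x => sg ε hε l x + (1 - sg ε hε l x) * bmp ε hε c x

lemma sg_smooth (ε : ℝ) (hε : 0 < ε) (l : List (E n)) :
    ContDiff ℝ ((⊤ : ℕ∞) : WithTop ℕ∞) (sg ε hε l) := by
  induction l with
  | nil => exact contDiff_const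
  | cons c l ih =>
    exact ih.add ((contDiff_const.sub ih).mul (bmp ε hε c).contDiff)

lemma sg_cons_eq (ε : ℝ) (hε : 0 < ε) (l : List (E n)) (c : E n) {x : E n}
    (hx : ε / 2 < dist x c) : sg ε hε (c :: l) =ᶠ[𝓝 x] sg ε hε l := by
  have h1 : {y : E n | ε / 2 < dist y c} ∈ 𝓝 x :=
    (isOpen_lt continuous_const (continuous_id.dist continuous_const)).mem_nhds hx
  filter_upwards [h1] with y hy
  have h2 : bmp ε hε c y = 0 := (bmp ε hε c).zero_of_le_dist (le_of_lt hy)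
  change sg ε hε l y + (1 - sg ε hε l y) * bmp ε hε c y = sg ε hε l y
  rw [h2, mul_zero, add_zero]

lemma sg_one (ε : ℝ) (hε : 0 < ε) (l : List (E n)) {x : E n} {c : E n} (hc : c ∈ l)
    (hx : dist x c ≤ ε / 4) : sg ε hε l x = 1 := by
  induction l with
  | nil => simp at hc
  | cons d l ih =>
    change sg ε hε l x + (1 - sg ε hε l x) * bmp ε hε d x = 1
    rcases List.mem_cons.1 hc with rfl | h
    · have h2 : bmp ε hε c x = 1 := (bmp ε hε c).one_of_mem_closedBall (by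
        rw [mem_closedBall]; exact hx)
      rw [h2]; ring
    · rw [ih h]; ring

lemma Adm.mul {H : ℝ → E n → ℝ} {K : Set (E n)} (hA : Adm n H K) {f : E n → ℝ}
    (hf : ContDiff ℝ ((⊤ : ℕ∞) : WithTop ℕ∞) f) : Adm n (fun t x => f x * H t x) K where
  smooth := (hf.comp contDiff_snd).mul hA.smooth
  comp := hA.comp
  sub := hA.sub
  supp t x hx := by rw [hA.supp t x hx, mul_zero]

/-- fragmentation for short times -/
lemma Adm.frag_list (hL : Big L) {H : ℝ → E n → ℝ} {K : Set (E n)} (hA : Adm n H K) (ε : ℝ) (hε : 0 < ε)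
    (l : List (E n)) : ∃ τ > 0, ∀ s t : Icc (0 : ℝ) 1, (s : ℝ) ≤ t → (t : ℝ) - s ≤ τ →
      (hA.mul (sg_smooth ε hε l)).evG hL s t ∈ Subgroup.closure (gensH L K ε) := by
  induction l with
  | nil =>
    refine ⟨1, one_pos, fun s t _ _ => ?_⟩
    have e : (hA.mul (sg_smooth ε hε ([] : List (E n)))).evG hL s t = 1 := by
      apply FaithfulSMul.eq_of_smul_eq_smul (α := E n)
      intro x
      rw [one_smul, Adm.evG_smul]
      refine (hA.mul (sg_smooth ε hε ([] : List (E n)))).good.sol_eq (α := fun _ => x) ?_ rfl t.2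
      intro t _
      have : (fun x : E n => sg ε hε ([] : List (E n)) x * H t x) = fun _ => 0 := by
        funext y
        change (0 : ℝ) * H t y = 0
        rw [zero_mul]
      change HasDerivWithinAt (fun _ => x) (XH (fun x : E n => sg ε hε ([] : List (E n)) x * H t x) x)
        (Icc 0 1) t
      rw [this, XH_zero]
      exact hasDerivWithinAt_const _ _ _
    rw [e]
    exact one_mem _
  | cons c l ih =>
    obtain ⟨τ, hτ, h1⟩ := ih
    set hS := hA.mul (sg_smooth ε hε l) with hS'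
    set hT := hA.mul (sg_smooth ε hε (c :: l)) with hT'
    have hC1 : (0 : ℝ) < hS.C + 1 := by positivity
    refine ⟨min τ (ε / 4 / (hS.C + 1)), lt_min hτ (by positivity), fun s t hst hτt => ?_⟩
    have h2 := h1 s t hst (hτt.trans (min_le_left _ _))
    have e : hT.evG hL s t = hS.evG hL s t * ((hS.evG hL s t)⁻¹ * hT.evG hL s t) := by
      rw [mul_inv_cancel_left]
    rw [e]
    refine mul_mem h2 (Subgroup.subset_closure ⟨isHam_mul (isHam_inv (hS.evG_isHam hL s t))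
      (hT.evG_isHam hL s t), ?_, c, ?_⟩)
    · exact (hS.evG_off hL s t).inv.mul (hT.evG_off hL s t)
    · intro x hx
      rw [mul_smul, inv_smul_eq_iff, Adm.evG_smul, Adm.evG_smul]
      rw [mem_ball, not_lt] at hx
      have hsub : Icc (s : ℝ) t ⊆ Icc (0 : ℝ) 1 := Icc_subset_Icc s.2.1 t.2.2
      have hfar : ∀ r ∈ Icc (s : ℝ) t, ε / 2 < dist (hS.good.sol s x r) c := by
        intro r hr
        have h3 := hS.good.dist_sol_le s x (hsub hr)
        have h4 : |r - s| ≤ ε / 4 / (hS.C + 1) := by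
          rw [abs_of_nonneg (sub_nonneg.2 hr.1)]
          exact (sub_le_sub_right hr.2 _).trans (hτt.trans (min_le_right _ _))
        have h5 : (hS.C : ℝ) * |r - s| ≤ ε / 4 := by
          calc (hS.C : ℝ) * |r - s| ≤ (hS.C + 1) * (ε / 4 / (hS.C + 1)) := by
                apply mul_le_mul _ h4 (abs_nonneg _) hC1.le
                linarith
            _ = ε / 4 := by field_simp
        have h6 : dist (hS.good.sol s x r) x ≤ ε / 4 := by
          rw [dist_eq_norm]; exact h3.trans h5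
        have h7 := dist_triangle_left x c (hS.good.sol s x r)
        linarith
      have key := ODE_solution_unique_of_mem_Icc_right (s := fun _ => univ) (K := hT.C)
        (v := fun t => XH (fun x => sg ε hε (c :: l) x * H t x)) (a := (s : ℝ)) (b := (t : ℝ))
        (f := hT.good.sol s x) (g := hS.good.sol s x)
        (fun r hr => (hT.good.lip r (hsub (Ico_subset_Icc_self hr))).lipschitzOnWith)
        ((hT.good.sol_IC s x).continuousOn.mono hsub)
        (fun r hr => (hT.good.sol_IC s x).right ⟨s.2.1.trans hr.1, lt_of_lt_of_le hr.2 t.2.2⟩)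
        (fun _ _ => trivial)
        ((hS.good.sol_IC s x).continuousOn.mono hsub)
        (fun r hr => by
          have h8 := (hS.good.sol_IC s x).right ⟨s.2.1.trans hr.1, lt_of_lt_of_le hr.2 t.2.2⟩
          have h9 : XH (fun x => sg ε hε (c :: l) x * H r x) (hS.good.sol s x r) =
              XH (fun x => sg ε hε l x * H r x) (hS.good.sol s x r) := by
            apply XH_congr
            filter_upwards [sg_cons_eq ε hε l c (hfar r (Ico_subset_Icc_self hr))] with y hy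
            rw [hy]
          change HasDerivWithinAt (hS.good.sol s x)
            (XH (fun x => sg ε hε (c :: l) x * H r x) (hS.good.sol s x r)) (Ici r) r
          rw [h9]
          exact h8)
        (fun _ _ => trivial)
        (by rw [hT.good.sol_self, hS.good.sol_self])
      exact key ⟨hst, le_rfl⟩

lemma Adm.evG_congr (hL : Big L) {H H' : ℝ → E n → ℝ} {K : Set (E n)} (hA : Adm n H K) (hA' : Adm n H' K)
    (e : H = H') (s t : Icc (0 : ℝ) 1) : hA.evG hL s t = hA'.evG hL s t := by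
  subst e
  rfl

/-- smooth evolutions are fragmentable inside the support of the Hamiltonian -/
lemma Adm.frag (hL : Big L) {H : ℝ → E n → ℝ} {K : Set (E n)} (hA : Adm n H K) (ε : ℝ) (hε : 0 < ε) :
    hA.evG hL ⟨0, by simp⟩ ⟨1, by simp⟩ ∈ Subgroup.closure (gensH L K ε) := by
  obtain ⟨F, _, hF⟩ := hA.comp.elim_finite_subcover_image (b := K) (c := fun c => ball c (ε / 4))
    (fun c _ => isOpen_ball) (fun x hx => mem_biUnion hx (mem_ball_self (by positivity)))
  obtain ⟨hFf, hFK⟩ := hF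
  set l : List (E n) := hFf.toFinset.toList with hl
  have e1 : (fun (t : ℝ) (x : E n) => sg ε hε l x * H t x) = H := by
    funext t x
    by_cases hx : x ∈ K
    · obtain ⟨c, hc, hxc⟩ := mem_iUnion₂.1 (hFK hx)
      rw [sg_one ε hε l (c := c) (by rw [hl]; simpa using hc) (le_of_lt (mem_ball.1 hxc)), one_mul]
    · rw [hA.supp t x hx, mul_zero]
  obtain ⟨τ, hτ, h1⟩ := hA.frag_list hL ε hε l
  have h2 : ∀ s t : Icc (0 : ℝ) 1, (s : ℝ) ≤ t → (t : ℝ) - s ≤ τ →
      hA.evG hL s t ∈ Subgroup.closure (gensH L K ε) := by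
    intro s t hst hτt
    rw [← (hA.mul (sg_smooth ε hε l)).evG_congr hL hA e1 s t]
    exact h1 s t hst hτt
  obtain ⟨N, hN⟩ := exists_nat_gt (1 / τ)
  have hN0 : (0 : ℝ) < N := lt_trans (by positivity) hN
  have hmem : ∀ i : ℕ, i ≤ N → (i : ℝ) / N ∈ Icc (0 : ℝ) 1 := fun i hi =>
    ⟨by positivity, by rw [div_le_one hN0]; exact_mod_cast hi⟩
  have h3 : ∀ i : ℕ, ∀ hi : i ≤ N,
      hA.evG hL ⟨0, by simp⟩ ⟨(i : ℝ) / N, hmem i hi⟩ ∈
        Subgroup.closure (gensH L K ε) := by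
    intro i
    induction i with
    | zero =>
      intro hi
      have e : (⟨((0 : ℕ) : ℝ) / N, hmem 0 hi⟩ : Icc (0 : ℝ) 1) = ⟨0, by simp⟩ := by
        apply Subtype.ext; simp
      rw [e, Adm.evG_self]
      exact one_mem _
    | succ i ih =>
      intro hi
      have hi' : i ≤ N := (Nat.le_succ i).trans hi
      rw [← hA.evG_mul hL ⟨0, by simp⟩ ⟨(i : ℝ) / N, hmem i hi'⟩ ⟨((i + 1 : ℕ) : ℝ) / N, hmem _ hi⟩]
      refine mul_mem (h2 _ _ ?_ ?_) (ih hi')
      · change (i : ℝ) / N ≤ ((i + 1 : ℕ) : ℝ) / N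
        gcongr
        simp
      · change ((i + 1 : ℕ) : ℝ) / N - (i : ℝ) / N ≤ τ
        have : ((i + 1 : ℕ) : ℝ) / N - (i : ℝ) / N = 1 / N := by
          push_cast; field_simp; ring
        rw [this, div_le_iff₀ hN0]
        rw [div_lt_iff₀ hτ] at hN
        linarith
  have h4 := h3 N le_rfl
  have e : (⟨(N : ℝ) / N, hmem N le_rfl⟩ : Icc (0 : ℝ) 1) = ⟨1, by simp⟩ := by
    apply Subtype.ext
    exact div_self hN0.ne'
  rwa [e] at h4

/-- time-one maps of Hamiltonian flows are evolutions -/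
lemma isHam_ev_eq {u : E n ≃ₜ E n} {H : ℝ → E n → ℝ} {K : Set (E n)} (hA : Adm n H K)
    {ψ : ℝ → E n → E n} (h0 : ∀ x, ψ 0 x = x)
    (h1 : ∀ (t : ℝ) (x : E n), HasDerivAt (fun s : ℝ => ψ s x) (XH (H t) (ψ t x)) t)
    (h2 : ∀ x, u x = ψ 1 x) : u = hA.ev ⟨0, by simp⟩ ⟨1, by simp⟩ := by
  apply Homeomorph.ext
  intro x
  rw [h2]
  refine (hA.good.sol_eq (s := ⟨0, by simp⟩) (α := fun t => ψ t x) ?_ (h0 x)
    (t := 1) (by simp)).symm
  intro t _
  exact (h1 t x).hasDerivWithinAt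

lemma isHam_supp {u : E n ≃ₜ E n} (hu : IsHam n u) :
    ∃ K : Set (E n), IsCompact K ∧ K ⊆ Bl n ∧ ∀ x, x ∉ K → u x = x := by
  obtain ⟨H, ψ, ⟨hH, ⟨K, hK, hKB, hsupp⟩, hψ0, hψ⟩, hu1⟩ := hu
  have hA : Adm n H K := ⟨hH, hK, hKB, hsupp⟩
  have e := isHam_ev_eq hA hψ0 hψ hu1
  exact ⟨K, hK, hKB, fun x hx => by rw [e]; exact hA.ev_off _ _ hx⟩

/-- time-one maps of Hamiltonian flows are compactly fragmentable -/
theorem isHam_memL (hL : Big L) {u : E n ≃ₜ E n} (hu : IsHam n u) :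
    (⟨u, hL.ham u hu⟩ : L) ∈ Fc L (Bl n) := by
  have hu' := hu
  obtain ⟨H, ψ, ⟨hH, ⟨K, hK, hKB, hsupp⟩, hψ0, hψ⟩, hu1⟩ := hu'
  have hA : Adm n H K := ⟨hH, hK, hKB, hsupp⟩
  have e := isHam_ev_eq hA hψ0 hψ hu1
  refine ⟨K, hK, hKB, fun ε hε => ?_⟩
  have := Subgroup.closure_mono (gensH_sub K ε) (hA.frag hL ε hε)
  have e2 : (⟨u, hL.ham u hu⟩ : L) = hA.evG hL ⟨0, by simp⟩ ⟨1, by simp⟩ := Subtype.ext e
  rwa [e2]

/-- fragmentation of Hamiltonian diffeomorphisms into Hamiltonian diffeomorphisms -/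
theorem isHam_frag (hL : Big L) {u : E n ≃ₜ E n} (hu : IsHam n u) :
    ∃ K : Set (E n), IsCompact K ∧ K ⊆ Bl n ∧ ∀ ε : ℝ, 0 < ε →
      (⟨u, hL.ham u hu⟩ : L) ∈ Subgroup.closure (gensH L K ε) := by
  have hu' := hu
  obtain ⟨H, ψ, ⟨hH, ⟨K, hK, hKB, hsupp⟩, hψ0, hψ⟩, hu1⟩ := hu'
  have hA : Adm n H K := ⟨hH, hK, hKB, hsupp⟩
  have e := isHam_ev_eq hA hψ0 hψ hu1
  refine ⟨K, hK, hKB, fun ε hε => ?_⟩
  have := hA.frag hL ε hε
  have e2 : (⟨u, hL.ham u hu⟩ : L) = hA.evG hL ⟨0, by simp⟩ ⟨1, by simp⟩ := Subtype.ext e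
  rwa [e2]

/-- the group of Hamiltonian homeomorphisms is big -/
lemma big_HamBar : Big (HamBar n) where
  ham u hu := by
    obtain ⟨K, hK, hKB, hoff⟩ := isHam_supp hu
    exact mem_HamBar_of_isHam hu hK hKB hoff
  supp u hu := by
    unfold HamBar at hu
    induction hu using Subgroup.closure_induction with
    | mem g hg =>
      obtain ⟨K, hK, hKB, hoff, _⟩ := hg
      exact ⟨K, hK, hKB, hoff⟩
    | one => exact ⟨∅, isCompact_empty, empty_subset _, fun _ _ => rfl⟩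
    | mul g h _ _ hg hh =>
      obtain ⟨K, hK, hKB, hoff⟩ := hg
      obtain ⟨K', hK', hKB', hoff'⟩ := hh
      refine ⟨K ∪ K', hK.union hK', union_subset hKB hKB', fun x hx => ?_⟩
      rw [mem_union, not_or] at hx
      rw [Homeomorph.mul_apply, hoff' x hx.2, hoff x hx.1]
    | inv g _ hg =>
      obtain ⟨K, hK, hKB, hoff⟩ := hg
      refine ⟨K, hK, hKB, fun x hx => ?_⟩
      rw [Homeomorph.inv_apply, Homeomorph.symm_apply_eq, hoff x hx]

theorem isHam_mem {u : E n ≃ₜ E n} (hu : IsHam n u) :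
    ∃ hG : u ∈ HamBar n, (⟨u, hG⟩ : HamBar n) ∈ Fc (HamBar n) (Bl n) :=
  ⟨big_HamBar.ham u hu, isHam_memL big_HamBar hu⟩

end Pool.Agent.W_MP_68f289_gt
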