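import Pool.Agent.W_MP_68f289_gt.Crit

/-!
A criterion for simplicity in terms of bounded fragmentation of balls into smaller balls.
-/

open Set Metric Topology commutatorElement Pointwise
open scoped NNReal ContDiff

namespace Pool.Agent.W_MP_68f289_gt

variable {n : ℕ}

/-! ### Words -/

/-- products of exactly `m` elements of `S` -/
def Wd {Gr : Type*} [Group Gr] (S : Set Gr) (m : ℕ) (g : Gr) : Prop :=
  ∃ l : List Gr, l.length = m ∧ (∀ a ∈ l, a ∈ S) ∧ l.prod = g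

lemma Wd.one {Gr : Type*} [Group Gr] (S : Set Gr) : Wd S 0 1 := ⟨[], rfl, by simp, rfl⟩

lemma Wd.mul {Gr : Type*} [Group Gr] {S : Set Gr} {m m' : ℕ} {g g' : Gr} (h : Wd S m g)
    (h' : Wd S m' g') : Wd S (m + m') (g * g') := by
  obtain ⟨l, hl, hS, rfl⟩ := h
  obtain ⟨l', hl', hS', rfl⟩ := h'
  refine ⟨l ++ l', by simp [hl, hl'], fun a ha => ?_, by simp⟩
  rcases List.mem_append.1 ha with ha | ha
  · exact hS a ha
  · exact hS' a ha

lemma Wd.inv {Gr : Type*} [Group Gr] {S : Set Gr} (hs : ∀ a ∈ S, a⁻¹ ∈ S) {m : ℕ} {g : Gr}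
    (h : Wd S m g) : Wd S m g⁻¹ := by
  obtain ⟨l, hl, hS, rfl⟩ := h
  refine ⟨(l.map (·⁻¹)).reverse, by simp [hl], fun a ha => ?_, by rw [List.prod_inv_reverse]⟩
  rw [List.mem_reverse] at ha
  obtain ⟨b, hb, rfl⟩ := List.mem_map.1 ha
  exact hs b (hS b hb)

lemma Wd.conj {Gr : Type*} [Group Gr] {S : Set Gr} {x : Gr} (hs : ∀ a ∈ S, x * a * x⁻¹ ∈ S)
    {m : ℕ} {g : Gr} (h : Wd S m g) : Wd S m (x * g * x⁻¹) := by
  obtain ⟨l, hl, hS, rfl⟩ := h
  refine ⟨l.map (MulAut.conj x), by simp [hl], fun a ha => ?_, ?_⟩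
  · obtain ⟨b, hb, rfl⟩ := List.mem_map.1 ha
    exact hs b (hS b hb)
  · rw [← map_list_prod]; rfl

lemma Wd.comp {Gr : Type*} [Group Gr] {S S' : Set Gr} {M : ℕ} (hs : ∀ a ∈ S, Wd S' M a)
    {m : ℕ} {g : Gr} (h : Wd S m g) : Wd S' (m * M) g := by
  obtain ⟨l, hl, hS, rfl⟩ := h
  subst hl
  induction l with
  | nil => simpa using Wd.one S'
  | cons a l ih =>
    rw [List.prod_cons, List.length_cons, add_mul, one_mul, add_comm]
    exact (hs a (hS a (by simp))).mul (ih fun b hb => hS b (by simp [hb]))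

lemma Wd.of_closure {Gr : Type*} [Group Gr] {S : Set Gr} (hs : ∀ a ∈ S, a⁻¹ ∈ S) {g : Gr}
    (h : g ∈ Subgroup.closure S) : ∃ m, Wd S m g := by
  induction h using Subgroup.closure_induction with
  | mem a ha => exact ⟨1, [a], rfl, by simpa using ha, by simp⟩
  | one => exact ⟨0, Wd.one S⟩
  | mul a b _ _ ha hb =>
    obtain ⟨m, ha⟩ := ha
    obtain ⟨m', hb⟩ := hb
    exact ⟨m + m', ha.mul hb⟩
  | inv a _ ha =>
    obtain ⟨m, ha⟩ := ha
    exact ⟨m, ha.inv hs⟩

lemma Sml_inv {s : ℝ} {h0 : 0 < s} {h1 : s ≤ 1} {a : G n} (ha : a ∈ Sml n s h0 h1) :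
    a⁻¹ ∈ Sml n s h0 h1 := by
  obtain ⟨x, b, rfl⟩ := ha
  refine ⟨x, b⁻¹, ?_⟩
  rw [map_inv]; group

lemma Sml_conj {s : ℝ} {h0 : 0 < s} {h1 : s ≤ 1} {a : G n} (ha : a ∈ Sml n s h0 h1)
    (x : G n) : x * a * x⁻¹ ∈ Sml n s h0 h1 := by
  obtain ⟨y, b, rfl⟩ := ha
  exact ⟨x * y, b, by group⟩

lemma UL_of_Wd {s : ℝ} {h0 : 0 < s} {h1 : s ≤ 1} {m : ℕ} {g : G n}
    (h : Wd (Sml n s h0 h1) m g) : UL s h0 h1 m g := by
  obtain ⟨l, rfl, hS, rfl⟩ := h
  choose x b hxb using fun i : Fin l.length => hS (l.get i) (List.get_mem l i)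
  refine ⟨(List.finRange l.length).map fun i => (x i, b i), by simp, ?_⟩
  rw [List.map_map]
  congr 1
  have h2 : (List.finRange l.length).map
      ((fun p : G n × G n => p.1 * (sc n s h0 h1).a p.2 * p.1⁻¹) ∘
        fun i => (x i, b i)) = (List.finRange l.length).map l.get := by
    apply List.map_congr_left
    intro i _
    exact (hxb i).symm
  rw [h2]
  exact (List.map_get_finRange l).symm

/-! ### Perfect groups -/

lemma exists_HT_le (hn : 1 ≤ n) {L : Subgroup (G n)} (hLn : L.Normal) (hL : L ≠ ⊥)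
    (hp : commutator (G n) = ⊤) :
    ∃ s : ℝ, ∃ h0 : 0 < s, ∃ h1 : s ≤ 1, s < 1 ∧ ∀ g : G n, (sc n s h0 h1).a g ∈ L := by
  have S := sys (n := n) hn
  obtain ⟨⟨l, hl⟩, hl1'⟩ := Subgroup.ne_bot_iff_exists_ne_one.1 hL
  have hl1 : l ≠ 1 := fun h => hl1' (Subtype.ext h)
  obtain ⟨x, hx⟩ : ∃ x : E n, l • x ≠ x := by
    by_contra hcon
    push Not at hcon
    apply hl1
    apply ext_smul
    intro y
    rw [hcon y, one_smul]
  have hxB : x ∈ Bl n := by
    by_contra hxB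
    exact hx (off_Bl l x hxB)
  obtain ⟨V, hV, hVB, hxV, hd⟩ := exists_disj hx isOpen_Bl hxB
  obtain ⟨δ, hδ, hδV⟩ := Metric.isOpen_iff.1 hV x hxV
  have hex : en x < 1 := mem_Bl.1 hxB
  have hex0 := en_nonneg x
  set t : ℝ := min (δ / 2) (min ((1 - en x) / 4) (1 / 2)) with ht
  have ht0 : 0 < t := lt_min (by positivity) (lt_min (by linarith) (by norm_num))
  have ht1 : t ≤ δ / 2 := min_le_left _ _
  have ht2 : t ≤ (1 - en x) / 4 := (min_le_right _ _).trans (min_le_left _ _)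
  have ht3 : t ≤ 1 / 2 := (min_le_right _ _).trans (min_le_right _ _)
  set α : HT n := HT.mk' x t ht0.ne' (by rw [abs_of_pos ht0]; linarith) with hα
  have hαV : ∀ g : G n, Off (α.a g) V := by
    intro g
    refine α.a_off (off_Bl g) fun y hy => hδV ?_
    change x + t • y ∈ ball x δ
    rw [mem_ball, dist_eq_norm, add_sub_cancel_left, norm_smul, Real.norm_of_nonneg ht0.le]
    have := (norm_le_en y).trans_lt (mem_Bl.1 hy)
    nlinarith [norm_nonneg y]
  have key : ∀ a b : G n, ⁅α.a a, α.a b⁆ ∈ L := by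
    intro a b
    have h1 : Off (l * (α.a a)⁻¹ * l⁻¹) (l • V) := (hαV a).inv.conj l
    have e := comm_comm (h1.commute (hαV b) hd)
    rw [← e]
    have hc1 : ⁅α.a a, l⁆ ∈ L := by
      rw [commutatorElement_def]
      exact mul_mem (hLn.conj_mem l hl _) (inv_mem hl)
    have e1 : ⁅⁅α.a a, l⁆, α.a b⁆ = ⁅α.a a, l⁆ * (α.a b * ⁅α.a a, l⁆⁻¹ * (α.a b)⁻¹) := by
      rw [commutatorElement_def ⁅α.a a, l⁆ (α.a b)]; group
    rw [e1]
    exact mul_mem hc1 (hLn.conj_mem _ (inv_mem hc1) _)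
  have hαL : ∀ g : G n, α.a g ∈ L := by
    intro g
    have h1 : commutator (G n) ≤ L.comap α.a := by
      rw [commutator_def, Subgroup.commutator_le]
      intro a _ b _
      rw [Subgroup.mem_comap, map_commutatorElement]
      exact key a b
    have h2 : g ∈ commutator (G n) := by rw [hp]; trivial
    exact h1 h2
  -- move the ball to the origin
  set γ : HT n := HT.mk' 0 (-t) (by linarith) (by
    rw [en_zero, abs_neg, abs_of_pos ht0]; linarith) with hγ
  have hhalf : en ((1 / 2 : ℝ) • x) = en x / 2 := by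
    rw [en_smul, abs_of_pos (by norm_num)]; ring
  obtain ⟨τ, -, -, hτx⟩ := halfturn (n := n) ((1 / 2 : ℝ) • x) (ρ1 := en x / 2 + t)
    (ρ2 := en x / 2 + 2 * t) (R := (1 + en x) / 2) (by positivity) (by linarith) (by positivity)
    (by linarith) (by rw [hhalf]; linarith)
  have hγL : ∀ g : G n, γ.a g ∈ L := by
    intro g
    rw [← conj_HT τ α γ (fun y hy => ?_) g]
    · exact hLn.conj_mem _ (hαL g) τ
    · change τ • (x + t • y) = 0 + (-t) • y
      have e2 : x + t • y - (1 / 2 : ℝ) • x = (1 / 2 : ℝ) • x + t • y := by module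
      rw [hτx, e2]
      · module
      · rw [e2]
        refine lt_of_le_of_lt (en_add _ _) ?_
        rw [hhalf, en_smul, abs_of_pos ht0]
        have := mem_Bl.1 hy
        nlinarith
  refine ⟨t, ht0, by linarith, by linarith, fun g => ?_⟩
  have e3 : (γ.a ((nu n).a g)) = (sc n t ht0 (by linarith)).a g := by
    refine HT.a_comp _ _ _ ?_ ?_ g
    · change (0 : E n) = 0 + (-t) • (0 : E n)
      rw [smul_zero, add_zero]
    · change t = -t * (-1)
      ring
  rw [← e3]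
  exact hγL _

lemma sc_inj {s : ℝ} (h0 : 0 < s) (h1 : s ≤ 1) :
    Function.Injective (sc n s h0 h1).a := by
  intro g h e
  apply ext_smul
  intro x
  have h2 := congrArg (fun k : HamBar n => k • (s • x)) e
  simp only [sc_smul] at h2
  rw [inv_smul_smul₀ h0.ne'] at h2
  exact smul_right_injective (E n) h0.ne' h2

/-- Balls can be fragmented: every Hamiltonian homeomorphism is a product of conjugates of
Hamiltonian homeomorphisms of the ball of radius `s`, for every `s < 1`. -/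
def FragBalls (n : ℕ) : Prop :=
  ∀ (s : ℝ) (h0 : 0 < s) (h1 : s < 1), Subgroup.closure (Sml n s h0 h1.le) = ⊤

theorem simple_of_bdd (hn : 1 ≤ n) (hF : FragBalls n) {r s : ℝ} (hs0 : 0 < s) (hsr : s < r)
    (hr1 : r < 1) {m : ℕ} (hU : ∀ f : G n,
      Wd (Sml n s hs0 (hsr.trans hr1).le) m ((sc n r (hs0.trans hsr) hr1.le).a f)) :
    IsSimpleGroup (HamBar n) := by
  obtain ⟨ρ, h0, h1, hρ⟩ := swindle hn hs0 (hsr.trans hr1).le hsr hr1.le
    (fun f => UL_of_Wd (hU f))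
  -- `G` is perfect
  have hp : commutator (G n) = ⊤ := by
    rcases h1.lt_or_eq with h1' | h1'
    · rw [eq_top_iff, ← hF ρ h0 h1', Subgroup.closure_le]
      rintro _ ⟨a, b, rfl⟩
      have : (commutator (G n)).Normal := inferInstance
      exact this.conj_mem _ (hρ b) a
    · rw [eq_top_iff]
      intro g _
      have h2 := hρ g
      have h3 : (sc n ρ h0 h1).a g = g := by
        apply ext_smul
        intro x
        rw [sc_smul]
        rw [h1', inv_one, one_smul ℝ, one_smul ℝ]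
      rwa [h3] at h2
  have S := sys (n := n) hn
  rw [S.simple_iff]
  obtain ⟨t, ht0, ht1', ht1, ht⟩ := exists_HT_le hn S.Mo_normal S.Mo_ne_bot hp
  rw [eq_top_iff, ← hF t ht0 ht1, Subgroup.closure_le]
  rintro _ ⟨a, b, rfl⟩
  exact S.Mo_normal.conj_mem _ (ht b) a

lemma exists_ne_one (hn : 1 ≤ n) : ∃ g : G n, g ≠ 1 := by
  obtain ⟨x, hx⟩ := Subgroup.ne_bot_iff_exists_ne_one.1 (sys (n := n) hn).Mo_ne_bot
  exact ⟨x, fun h => hx (Subtype.ext h)⟩

theorem bdd_of_simple (hn : 1 ≤ n) (hs : IsSimpleGroup (HamBar n)) :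
    FragBalls n ∧ ∃ r : ℝ, ∃ h0 : 0 < r, ∃ h1 : r < 1, ∀ (s : ℝ) (hs0 : 0 < s) (hsr : s < r),
      ∃ m : ℕ, ∀ f : G n, Wd (Sml n s hs0 (hsr.trans h1).le) m ((sc n r h0 h1.le).a f) := by
  obtain ⟨h, hh⟩ := exists_ne_one hn
  have hF : FragBalls n := by
    intro s h0 h1
    rw [closure_Sml]
    refine (hs.eq_bot_or_eq_top_of_normal _ Subgroup.normalClosure_normal).resolve_left ?_
    intro hbot
    have h2 : (sc n s h0 h1.le).a h ∈ Subgroup.normalClosure (range (sc n s h0 h1.le).a) :=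
      Subgroup.subset_normalClosure (mem_range_self h)
    rw [hbot, Subgroup.mem_bot, ← map_one (sc n s h0 h1.le).a] at h2
    exact hh (sc_inj h0 h1.le h2)
  refine ⟨hF, ?_⟩
  have hcl : Subgroup.normalClosure {h} = ⊤ := by
    refine (hs.eq_bot_or_eq_top_of_normal _ Subgroup.normalClosure_normal).resolve_left ?_
    intro hbot
    have h2 : h ∈ Subgroup.normalClosure {h} := Subgroup.subset_normalClosure rfl
    rw [hbot, Subgroup.mem_bot] at h2
    exact hh h2
  have hB := bdd_Conj (T := {h}) (countable_singleton h) (by rw [hcl]; exact countable_top)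
  obtain ⟨N, ε, hε, hN⟩ := hB (1 / 2) (by norm_num) (by norm_num)
  set r : ℝ := min (ε / 4) (1 / 2) with hr
  have hr0 : 0 < r := lt_min (by positivity) (by norm_num)
  have hr1 : r ≤ ε / 4 := min_le_left _ _
  have hr2 : r ≤ 1 / 2 := min_le_right _ _
  refine ⟨r, hr0, by linarith, fun s hs0 hsr => ?_⟩
  have hs1 : s < 1 := by linarith
  obtain ⟨M, hM⟩ := Wd.of_closure (fun a ha => Sml_inv ha)
    (show h ∈ Subgroup.closure (Sml n s hs0 hs1.le) by rw [hF s hs0 hs1]; trivial)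
  refine ⟨N * M, fun f => ?_⟩
  have h1 : (sc n r hr0 (by linarith)).a f ∈ Gn n (1 / 2) := by
    refine HT.a_Gn _ f (by norm_num) ?_
    change en (0 : E n) + |r| ≤ 1 / 2
    rw [en_zero, abs_of_pos hr0, zero_add]; exact hr2
  have h2 : ∀ x : E n, dist ((sc n r hr0 (by linarith)).a f • x) x < ε := by
    intro x
    rw [sc_smul]
    have e : x = r • (r⁻¹ • x) := by rw [smul_inv_smul₀ hr0.ne']
    obtain ⟨y, hy⟩ : ∃ y : E n, y = r⁻¹ • x := ⟨_, rfl⟩
    rw [← hy] at e ⊢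
    rw [e, dist_smul₀, Real.norm_of_nonneg hr0.le]
    have h3 : dist (f • y) y ≤ 2 := by
      by_cases hyB : y ∈ Bl n
      · have h1 := mem_Bl.1 ((off_Bl f).smul_mem hyB)
        have h2 := mem_Bl.1 hyB
        have h3 := norm_le_en (f • y)
        have h4 := norm_le_en y
        rw [dist_eq_norm]
        linarith [norm_sub_le (f • y) y]
      · rw [off_Bl f y hyB, dist_self]; norm_num
    nlinarith
  have h3 : Wd (Conj {h}) N ((sc n r hr0 (by linarith)).a f) := hN _ h1 h2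
  refine h3.comp ?_
  rintro _ ⟨t, ht, a, rfl | rfl⟩
  · rw [mem_singleton_iff] at ht
    subst ht
    exact hM.conj fun b hb => Sml_conj hb a
  · rw [mem_singleton_iff] at ht
    subst ht
    exact (hM.inv fun b hb => Sml_inv hb).conj fun b hb => Sml_conj hb a

/-- smooth version: it suffices to fragment Hamiltonian diffeomorphisms -/
lemma bdd_of_smooth (hF : FragBalls n) {r s : ℝ} (hs0 : 0 < s) (hsr : s < r) (hr1 : r < 1) {m : ℕ}
    (hU : ∀ f : G n, IsHam n (f : E n ≃ₜ E n) →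
      Wd (Sml n s hs0 (hsr.trans hr1).le) m ((sc n r (hs0.trans hsr) hr1.le).a f)) :
    ∃ m' : ℕ, ∀ f : G n,
      Wd (Sml n s hs0 (hsr.trans hr1).le) m' ((sc n r (hs0.trans hsr) hr1.le).a f) := by
  have hs1 : s < 1 := hsr.trans hr1
  have hr0 : 0 < r := hs0.trans hsr
  have hB := bdd_Sml (n := n) hs0 hs1.le (by
    rw [← closure_Sml, hF s hs0 hs1]; exact countable_top)
  obtain ⟨N, ε, hε, hN⟩ := hB r hr0 hr1
  refine ⟨N + m, fun f => ?_⟩
  obtain ⟨K, hK, hKB, hf⟩ := exists_GS f.2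
  obtain ⟨u, hu, huK, hud⟩ := hf.2 ε hε
  set v : HamBar n := ⟨u, big_HamBar.ham u hu⟩ with hv
  have e : (sc n r hr0 hr1.le).a f = (sc n r hr0 hr1.le).a (f * v⁻¹) * (sc n r hr0 hr1.le).a v := by
    rw [← map_mul, inv_mul_cancel_right]
  rw [e]
  refine Wd.mul (hN _ ?_ ?_) (hU v hu)
  · refine HT.a_Gn _ _ hr0.le ?_
    change en (0 : E n) + |r| ≤ r
    rw [en_zero, abs_of_pos hr0, zero_add]
  · intro x
    change dist ((sc n r hr0 hr1.le).a (f * v⁻¹) • x) x < ε
    rw [sc_smul]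
    have e : x = r • (r⁻¹ • x) := by rw [smul_inv_smul₀ hr0.ne']
    obtain ⟨y, hy⟩ : ∃ y : E n, y = v⁻¹ • (r⁻¹ • x) := ⟨_, rfl⟩
    have hy' : r⁻¹ • x = v • y := by rw [hy, smul_inv_smul]
    rw [hy'] at e ⊢
    rw [e, dist_smul₀, Real.norm_of_nonneg hr0.le, mul_smul, inv_smul_smul]
    have h3 : dist (f • y) (v • y) < ε := by
      rw [dist_comm]; exact hud y
    have h4 : 0 ≤ dist (f • y) (v • y) := dist_nonneg
    nlinarith

end Pool.Agent.W_MP_68f289_gt
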