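import Mathlib

/-!
Continuous images of Polish spaces are residual in an open set as soon as they are non-meagre, and
the Pettis lemma for such sets in Baire groups.
-/

open Set Metric Topology Filter
open scoped Pointwise

namespace Pool.Agent.W_MP_68f289_gt

section open_image

variable {P H : Type*} [TopologicalSpace H] [T2Space H]

/-- key case: images of nonempty open sets are never meagre -/
lemma residual_image_aux [MetricSpace P] [CompleteSpace P] [SecondCountableTopology P]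
    [Nonempty P] {f : P → H} (hf : Continuous f)
    (hstar : ∀ V : Set P, IsOpen V → V.Nonempty → ¬ IsMeagre (f '' V)) :
    ∃ O : Set H, IsOpen O ∧ O.Nonempty ∧ IsMeagre (O \ range f) := by
  classical
  set 𝓑 := TopologicalSpace.countableBasis P with h𝓑
  have hB : TopologicalSpace.IsTopologicalBasis 𝓑 := TopologicalSpace.isBasis_countableBasis P
  have hBc : 𝓑.Countable := TopologicalSpace.countable_countableBasis P
  have hBo : ∀ V ∈ 𝓑, IsOpen V := fun V hV => hB.isOpen hV
  have hBn : ∀ V ∈ 𝓑, V.Nonempty := fun V hV =>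
    TopologicalSpace.nonempty_of_mem_countableBasis hV
  set O : Set P → Set H := fun V => interior (closure (f '' V)) with hO
  have hOo : ∀ V, IsOpen (O V) := fun V => isOpen_interior
  have hOn : ∀ V ∈ 𝓑, (O V).Nonempty := by
    intro V hV
    by_contra hcon
    rw [not_nonempty_iff_eq_empty] at hcon
    exact hstar V (hBo V hV) (hBn V hV) (IsNowhereDense.isMeagre hcon)
  set C : Set P → ℕ → Set (Set P) := fun V k =>
    {W | W ∈ 𝓑 ∧ closure W ⊆ V ∧ ∀ x ∈ closure W, ∀ y ∈ closure W, dist x y ≤ 1 / (k + 1)} with hC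
  set D : Set P → ℕ → Set H := fun V k => ⋃ W ∈ C V k, O W with hD
  have hDo : ∀ V k, IsOpen (D V k) := fun V k => isOpen_biUnion fun W _ => hOo W
  -- small basic sets
  have hsmall : ∀ V : Set P, IsOpen V → ∀ V' : Set P, IsOpen V' → (V ∩ V').Nonempty → ∀ k,
      ∃ W ∈ C V k, W ⊆ V' := by
    rintro V hV V' hV' ⟨x, hx, hx'⟩ k
    obtain ⟨r, hr, hrV⟩ := Metric.isOpen_iff.1 (hV.inter hV') x ⟨hx, hx'⟩
    set ρ : ℝ := min (r / 2) (1 / (k + 1) / 2) with hρ
    have hρ0 : 0 < ρ := lt_min (by positivity) (by positivity)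
    obtain ⟨W, hW, hxW, hWr⟩ := hB.exists_subset_of_mem_open (mem_ball_self hρ0) isOpen_ball
    have hcl : closure W ⊆ closedBall x ρ := by
      refine (closure_mono hWr).trans ?_
      exact closure_minimal ball_subset_closedBall isClosed_closedBall
    have hρr : ρ < r := lt_of_le_of_lt (min_le_left _ _) (by linarith)
    refine ⟨W, ⟨hW, fun y hy => (hrV ?_).1, fun y hy z hz => ?_⟩, fun y hy => (hrV ?_).2⟩
    · exact lt_of_le_of_lt (mem_closedBall.1 (hcl hy)) hρr
    · have h1 := mem_closedBall.1 (hcl hy)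
      have h2 := mem_closedBall.1 (hcl hz)
      have h3 : ρ ≤ 1 / (k + 1) / 2 := min_le_right _ _
      calc dist y z ≤ dist y x + dist z x := dist_triangle_right _ _ _
        _ ≤ 1 / (k + 1) / 2 + 1 / (k + 1) / 2 := by linarith
        _ = 1 / (k + 1) := by ring
    · exact lt_of_le_of_lt (mem_closedBall.1 (hcl (subset_closure hy))) hρr
  -- `O V \ D V k` is nowhere dense
  have hnd : ∀ V ∈ 𝓑, ∀ k, IsNowhereDense (O V \ D V k) := by
    intro V hV k
    have claim : ∀ R : Set H, IsOpen R → R ⊆ O V → (R ∩ D V k = ∅) → R = ∅ := by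
      intro R hR hRO hRD
      by_contra hne
      obtain ⟨y, hy⟩ := nonempty_iff_ne_empty.2 hne
      have hycl : y ∈ closure (f '' V) := interior_subset (hRO hy)
      obtain ⟨z, hzR, x, hxV, hxz⟩ := mem_closure_iff.1 hycl R hR hy
      obtain ⟨W, hWC, hWR⟩ := hsmall V (hBo V hV) (f ⁻¹' R) (hR.preimage hf)
        ⟨x, hxV, by change f x ∈ R; rw [hxz]; exact hzR⟩ k
      obtain ⟨y', hy'⟩ := hOn W hWC.1
      have hOW : O W ⊆ closure R := by
        refine interior_subset.trans (closure_mono ?_)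
        rintro _ ⟨w, hw, rfl⟩
        exact hWR hw
      obtain ⟨z', hz'1, hz'2⟩ := mem_closure_iff.1 (hOW hy') (O W) (hOo W) hy'
      have : z' ∈ R ∩ D V k := ⟨hz'2, mem_biUnion hWC hz'1⟩
      rw [hRD] at this
      exact this
    unfold IsNowhereDense
    by_contra hne
    obtain ⟨y, hy⟩ := nonempty_iff_ne_empty.2 hne
    set R := interior (closure (O V \ D V k)) with hR
    have hRsub : R ⊆ (D V k)ᶜ := by
      refine interior_subset.trans ?_
      exact closure_minimal (fun z hz => hz.2) (hDo V k).isClosed_compl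
    have hycl : y ∈ closure (O V \ D V k) := interior_subset hy
    obtain ⟨z, hzR, hzO⟩ := mem_closure_iff.1 hycl R isOpen_interior hy
    have h1 := claim (R ∩ O V) (isOpen_interior.inter (hOo V)) inter_subset_right (by
      rw [eq_empty_iff_forall_notMem]
      rintro w ⟨⟨hw1, _⟩, hw2⟩
      exact hRsub hw1 hw2)
    have : z ∈ R ∩ O V := ⟨hzR, hzO.1⟩
    rw [h1] at this
    exact this
  -- start
  obtain ⟨x₀⟩ := (inferInstance : Nonempty P)
  obtain ⟨V₀, hV₀, _, _⟩ := hB.exists_subset_of_mem_open (mem_univ x₀) isOpen_univ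
  refine ⟨O V₀, hOo V₀, hOn V₀ hV₀, ?_⟩
  have hM : IsMeagre (⋃ V ∈ 𝓑, ⋃ k : ℕ, O V \ D V k) :=
    isMeagre_biUnion hBc fun V hV => isMeagre_iUnion fun k => (hnd V hV k).isMeagre
  refine hM.mono ?_
  rintro y ⟨hyO, hyr⟩
  by_contra hyM
  apply hyr
  have hstep : ∀ V ∈ 𝓑, y ∈ O V → ∀ k, ∃ W ∈ C V k, y ∈ O W := by
    intro V hV hy k
    have : y ∈ D V k := by
      by_contra hcon
      exact hyM (mem_biUnion hV (mem_iUnion.2 ⟨k, hy, hcon⟩))
    obtain ⟨W, hW, hyW⟩ := mem_iUnion₂.1 this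
    exact ⟨W, hW, hyW⟩
  choose! nx hnx1 hnx2 using hstep
  set w : ℕ → Set P := fun k => Nat.rec V₀ (fun k V => nx V k) k with hw
  have hw0 : w 0 = V₀ := rfl
  have hws : ∀ k, w (k + 1) = nx (w k) k := fun k => rfl
  have hwP : ∀ k, w k ∈ 𝓑 ∧ y ∈ O (w k) := by
    intro k
    induction k with
    | zero => exact ⟨hV₀, hyO⟩
    | succ k ih =>
      rw [hws]
      exact ⟨(hnx1 _ ih.1 ih.2 k).1, hnx2 _ ih.1 ih.2 k⟩
  have hwC : ∀ k, w (k + 1) ∈ C (w k) k := fun k => by
    rw [hws]; exact hnx1 _ (hwP k).1 (hwP k).2 k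
  choose x hx using fun k => hBn (w k) (hwP k).1
  have hanti : ∀ k, w (k + 1) ⊆ w k := fun k => subset_closure.trans (hwC k).2.1
  have hanti' : Antitone w := antitone_nat_of_succ_le hanti
  have hdist : ∀ k i j : ℕ, k + 1 ≤ i → k + 1 ≤ j → dist (x i) (x j) ≤ 1 / ((k : ℝ) + 1) := by
    intro k i j hi hj
    exact (hwC k).2.2 _ (subset_closure (hanti' hi (hx i))) _ (subset_closure (hanti' hj (hx j)))
  have hcau : CauchySeq x := by
    rw [Metric.cauchySeq_iff']
    intro ε hε
    obtain ⟨k, hk⟩ := exists_nat_one_div_lt hε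
    exact ⟨k + 1, fun i hi => lt_of_le_of_lt (hdist k i (k + 1) hi le_rfl) hk⟩
  obtain ⟨z, hz⟩ := cauchySeq_tendsto_of_complete hcau
  have hzw : ∀ k, z ∈ closure (w k) := fun k =>
    mem_closure_of_tendsto hz (eventually_atTop.2 ⟨k, fun i hi => hanti' hi (hx i)⟩)
  refine ⟨z, ?_⟩
  by_contra hne
  obtain ⟨U1, U2, hU1, hU2, h1, h2, hd⟩ := t2_separation hne
  obtain ⟨r, hr, hrU⟩ := Metric.isOpen_iff.1 (hU1.preimage hf) z h1
  obtain ⟨k, hk⟩ := exists_nat_one_div_lt hr
  have hsub : w (k + 1) ⊆ f ⁻¹' U1 := by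
    intro p hp
    apply hrU
    rw [mem_ball]
    exact lt_of_le_of_lt ((hwC k).2.2 _ (subset_closure hp) _ (hzw (k + 1))) hk
  have hy : y ∈ closure (f '' (w (k + 1))) := interior_subset (hwP (k + 1)).2
  obtain ⟨q, hq1, p, hp, hpq⟩ := mem_closure_iff.1 hy U2 hU2 h2
  exact disjoint_left.1 hd (hsub hp) (by change f p ∈ U2; rw [hpq]; exact hq1)

/-- a non-meagre continuous image of a Polish space is residual in some nonempty open set -/
theorem residual_image [TopologicalSpace P] [PolishSpace P] {f : P → H} (hf : Continuous f)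
    (hA : ¬ IsMeagre (range f)) :
    ∃ O : Set H, IsOpen O ∧ O.Nonempty ∧ IsMeagre (O \ range f) := by
  classical
  set 𝓑 := TopologicalSpace.countableBasis P with h𝓑
  have hB : TopologicalSpace.IsTopologicalBasis 𝓑 := TopologicalSpace.isBasis_countableBasis P
  have hBc : 𝓑.Countable := TopologicalSpace.countable_countableBasis P
  set P0 : Set P := ⋃ V ∈ {V | V ∈ 𝓑 ∧ IsMeagre (f '' V)}, V with hP0
  have hP0o : IsOpen P0 := isOpen_biUnion fun V hV => hB.isOpen hV.1
  have hP0m : IsMeagre (f '' P0) := by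
    rw [hP0, image_iUnion₂]
    exact isMeagre_biUnion (hBc.mono fun V hV => hV.1) fun V hV => hV.2
  set P' : Set P := P0ᶜ with hP'
  have hP'c : IsClosed P' := hP0o.isClosed_compl
  have : PolishSpace P' := hP'c.polishSpace
  letI := TopologicalSpace.upgradeIsCompletelyMetrizable P'
  have hne : P'.Nonempty := by
    by_contra hcon
    rw [not_nonempty_iff_eq_empty] at hcon
    apply hA
    refine hP0m.mono ?_
    rintro _ ⟨p, rfl⟩
    refine ⟨p, ?_, rfl⟩
    by_contra hp
    have : p ∈ P' := hp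
    rw [hcon] at this
    exact this
  have : Nonempty P' := hne.to_subtype
  obtain ⟨O, hO, hOn, hOm⟩ := residual_image_aux (P := P') (f := fun p => f p)
    (hf.comp continuous_subtype_val) (by
      rintro V hV ⟨p, hp⟩ hm
      obtain ⟨V1, hV1, rfl⟩ := isOpen_induced_iff.1 hV
      obtain ⟨W, hW, hpW, hWV⟩ := hB.exists_subset_of_mem_open (show (p : P) ∈ V1 from hp) hV1
      have h1 : IsMeagre (f '' W) := by
        refine (hm.union hP0m).mono ?_
        rintro _ ⟨q, hq, rfl⟩
        by_cases hq' : q ∈ P0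
        · exact Or.inr ⟨q, hq', rfl⟩
        · exact Or.inl ⟨⟨q, hq'⟩, hWV hq, rfl⟩
      exact p.2 (mem_biUnion (show W ∈ {V | V ∈ 𝓑 ∧ IsMeagre (f '' V)} from ⟨hW, h1⟩) hpW))
  refine ⟨O, hO, hOn, hOm.mono ?_⟩
  rintro y ⟨hy1, hy2⟩
  refine ⟨hy1, fun hy3 => hy2 ?_⟩
  obtain ⟨p, rfl⟩ := hy3
  exact ⟨p, rfl⟩

end open_image

/-- Pettis lemma -/
theorem pettis {P H : Type*} [TopologicalSpace P] [PolishSpace P] [Group H] [TopologicalSpace H]
    [IsTopologicalGroup H] [T2Space H] [BaireSpace H] {f : P → H} (hf : Continuous f)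
    (hA : ¬ IsMeagre (range f)) :
    ∃ U ∈ 𝓝 (1 : H), ∀ u ∈ U, ∃ p q : P, u = f p * (f q)⁻¹ := by
  obtain ⟨O, hO, ⟨y₀, hy₀⟩, hm⟩ := residual_image hf hA
  refine ⟨{u : H | u * y₀ ∈ O}, ?_, ?_⟩
  · have : Continuous (fun u : H => u * y₀) := continuous_mul_const y₀
    apply (hO.preimage this).mem_nhds
    change 1 * y₀ ∈ O
    rwa [one_mul]
  · intro u hu
    have hu' : u * y₀ ∈ O := hu
    -- `O ∩ u • O` is a nonempty open set
    set R : Set H := O ∩ (fun x => u⁻¹ * x) ⁻¹' O with hR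
    have hRo : IsOpen R := hO.inter (hO.preimage (continuous_const_mul u⁻¹))
    have hRn : R.Nonempty := ⟨u * y₀, hu', by change u⁻¹ * (u * y₀) ∈ O; rwa [inv_mul_cancel_left]⟩
    have hm2 : IsMeagre ((fun x => u⁻¹ * x) ⁻¹' (O \ range f)) := by
      have e : (fun x => u⁻¹ * x) ⁻¹' (O \ range f) = (fun x => u * x) '' (O \ range f) := by
        ext x
        constructor
        · intro hx
          exact ⟨u⁻¹ * x, hx, by simp⟩
        · rintro ⟨z, hz, rfl⟩
          change u⁻¹ * (u * z) ∈ (O \ range f)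
          rwa [inv_mul_cancel_left]
      rw [e]
      exact (Homeomorph.mulLeft u).isInducing.isMeagre_image hm
    have hnm : ¬ IsMeagre R := by
      intro hRm
      have h1 : Dense Rᶜ := dense_of_mem_residual hRm
      obtain ⟨z, hz, hz'⟩ := h1.inter_open_nonempty R hRo hRn
      exact hz' hz
    have hex : ∃ x ∈ R, x ∈ range f ∧ u⁻¹ * x ∈ range f := by
      by_contra hcon
      push Not at hcon
      apply hnm
      refine (hm.union hm2).mono ?_
      intro x hx
      by_cases hx1 : x ∈ range f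
      · exact Or.inr ⟨hx.2, hcon x hx hx1⟩
      · exact Or.inl ⟨hx.1, hx1⟩
    obtain ⟨x, _, ⟨p, hp⟩, ⟨q, hq⟩⟩ := hex
    refine ⟨p, q, ?_⟩
    rw [hp, hq, mul_inv_rev, inv_inv, mul_inv_cancel_left]

end Pool.Agent.W_MP_68f289_gt
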