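import Pool.Agent.W_MP_68f289_gt.Inf

/-!
The swindle: bounded fragmentation of a small ball into smaller balls implies that Hamiltonian
homeomorphisms of small balls are products of commutators.
-/

open Set Metric Topology commutatorElement
open scoped NNReal ContDiff

namespace Pool.Agent.W_MP_68f289_gt

variable {n : ℕ}

/-- half turns -/
lemma halfturn (c : E n) {ρ1 ρ2 R : ℝ} (h1 : 0 ≤ ρ1) (h12 : ρ1 < ρ2) (hR0 : 0 ≤ R) (hR1 : R < 1)
    (hc : en c + ρ2 ≤ R) :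
    ∃ τ ∈ Gn n R, Off τ {x : E n | en (x - c) ≤ ρ2} ∧
      ∀ x : E n, en (x - c) < ρ1 → τ • x = c - (x - c) := by
  set s0 : ℝ := ρ1 ^ 2 with hs0
  set s2 : ℝ := ρ2 ^ 2 with hs2
  have h2 : 0 < ρ2 := lt_of_le_of_lt h1 h12
  have hs02 : s0 < s2 := by rw [hs0, hs2]; nlinarith
  have hset : {z : E n | qf (z - c) ≤ s2} = {x : E n | en (x - c) ≤ ρ2} := by
    ext x
    change qf (x - c) ≤ s2 ↔ en (x - c) ≤ ρ2
    rw [en, Real.sqrt_le_left h2.le]
  have hsubR : {x : E n | en (x - c) ≤ ρ2} ⊆ CB n R := by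
    intro x hx
    rw [mem_CB hR0]
    have h3 : en (x - c) ≤ ρ2 := hx
    have h4 := en_add (x - c) c
    rw [sub_add_cancel] at h4
    linarith
  have hg : Continuous (fun s => 2 * deriv (prof s0 s2) s) :=
    continuous_const.mul ((prof_smooth s0 s2).continuous_deriv (by simp))
  have hH := twist_isHam (prof s0 s2) (prof_smooth s0 s2) (fun s hs => prof_zero hs02 hs) c
    (by rw [hset]; exact hsubR.trans (CB_sub hR0 hR1)) hg
  obtain ⟨hG, _⟩ := isHam_mem hH
  have hoff : ∀ z : E n, z ∉ {x : E n | en (x - c) ≤ ρ2} →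
      c + rot (2 * deriv (prof s0 s2) (qf (z - c))) (z - c) = z := by
    intro z hz
    rw [← hset] at hz
    have hz' : s2 < qf (z - c) := not_le.1 hz
    have e : prof s0 s2 =ᶠ[𝓝 (qf (z - c))] fun _ => 0 := by
      filter_upwards [Ioi_mem_nhds hz'] with s hs
      exact prof_zero hs02 hs
    rw [e.deriv_eq, deriv_const, mul_zero, rot_zero, add_sub_cancel]
  refine ⟨⟨_, hG⟩, GS_isHam hH fun z hz => hoff z fun hz' => hz (hsubR hz'), hoff, ?_⟩
  intro x hx
  change c + rot (2 * deriv (prof s0 s2) (qf (x - c))) (x - c) = c - (x - c)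
  have h3 : qf (x - c) < s0 := by
    rw [← en_sq, hs0]
    have := en_nonneg (x - c)
    nlinarith
  rw [prof_deriv hs02 h3]
  have : 2 * (Real.pi / 2) = Real.pi := by ring
  rw [this, rot_pi, ← sub_eq_add_neg]

lemma conj_HT (τ : G n) (β γ : HT n)
    (h : ∀ y ∈ Bl n, τ • (β.c + β.r • y) = γ.c + γ.r • y) (g : G n) :
    τ * β.a g * τ⁻¹ = γ.a g := by
  apply ext_smul
  intro x
  have hgB := off_Bl g
  rw [mul_smul, mul_smul]
  by_cases hx : ∃ y ∈ Bl n, x = γ.c + γ.r • y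
  · obtain ⟨y, hy, rfl⟩ := hx
    have h1 : τ⁻¹ • (γ.c + γ.r • y) = β.c + β.r • y := by
      rw [inv_smul_eq_iff, h y hy]
    rw [h1, HT.a_smul', HT.a_smul', h _ (hgB.smul_mem hy)]
  · have h1 : γ.a g • x = x := by
      refine γ.a_off hgB (A' := {x | ∃ y ∈ Bl n, x = γ.c + γ.r • y}) (fun y hy => ⟨y, hy, rfl⟩) x hx
    have h2 : β.a g • (τ⁻¹ • x) = τ⁻¹ • x := by
      refine β.a_off hgB (A' := {x | ∃ y ∈ Bl n, x = β.c + β.r • y}) (fun y hy => ⟨y, hy, rfl⟩) _ ?_
      rintro ⟨y, hy, hxy⟩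
      apply hx
      refine ⟨y, hy, ?_⟩
      rw [← h y hy, ← hxy, smul_inv_smul]
    rw [h1, h2, smul_inv_smul]

lemma HT.a_comp (α β γ : HT n) (hc : γ.c = α.c + α.r • β.c) (hr : γ.r = α.r * β.r)
    (g : G n) : α.a (β.a g) = γ.a g := by
  apply ext_smul
  intro x
  rw [HT.a_smul, HT.a_smul, HT.a_smul, hc, hr]
  have e : β.r⁻¹ • (α.r⁻¹ • (x - α.c) - β.c) = (α.r * β.r)⁻¹ • (x - (α.c + α.r • β.c)) := by
    have e1 : β.c = α.r⁻¹ • (α.r • β.c) := by rw [inv_smul_smul₀ α.hr]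
    rw [mul_inv, mul_comm, ← smul_smul]
    congr 1
    conv_lhs => rw [e1]
    rw [← smul_sub, sub_sub]
  rw [e, smul_add, smul_smul, add_assoc]

/-- `g` is a product of `m` conjugates of Hamiltonian homeomorphisms of the ball of radius `s` -/
def UL (s : ℝ) (h0 : 0 < s) (h1 : s ≤ 1) (m : ℕ) (g : G n) : Prop :=
  ∃ l : List (G n × G n), l.length = m ∧
    g = (l.map fun p => p.1 * (sc n s h0 h1).a p.2 * p.1⁻¹).prod

/-- reflection -/
def nu (n : ℕ) : HT n := HT.mk' 0 (-1) (by norm_num) (by rw [en_zero]; norm_num)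

section positions

variable (q : ℝ)

/-- positions of the centres -/
noncomputable def ps (k : ℕ) : ℝ := (1 - q ^ k) / 4

/-- radii -/
noncomputable def rd (k : ℕ) : ℝ := q ^ k * (q * (1 - q)) / 12

/-- midpoints -/
noncomputable def md (k : ℕ) : ℝ := (ps q k + ps q (k + 1)) / 2

/-- radii of the big balls -/
noncomputable def bg (k : ℕ) : ℝ := (ps q (k + 1) - ps q k) / 2 + rd q k

end positions

/-- unit vector -/
noncomputable def e1 (hn : 1 ≤ n) : E n := (Pi.single ⟨0, hn⟩ 1, 0)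

lemma en_e1 (hn : 1 ≤ n) : en (e1 hn) = 1 := by
  have h : qf (e1 hn) = 1 := by
    unfold qf e1
    rw [Finset.sum_eq_single ⟨0, hn⟩]
    · simp
    · intro j _ hj
      simp [Pi.single_eq_of_ne hj]
    · simp
  rw [en, h, Real.sqrt_one]

/-- first coordinate -/
def fc (hn : 1 ≤ n) (x : E n) : ℝ := x.1 ⟨0, hn⟩

lemma fc_le (hn : 1 ≤ n) (x : E n) : |fc hn x| ≤ en x := by
  refine le_trans ?_ (norm_le_en x)
  rw [← Real.norm_eq_abs]
  exact (norm_le_pi_norm x.1 _).trans (norm_fst_le x)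

lemma fc_sub (hn : 1 ≤ n) (x : E n) (a : ℝ) : fc hn (x - a • e1 hn) = fc hn x - a := by
  simp [fc, e1]

/-- the big balls -/
def Zb (hn : 1 ≤ n) (q : ℝ) (k : ℕ) : Set (E n) := {x | en (x - md q k • e1 hn) ≤ bg q k}

/-- the small balls -/
def Db (hn : 1 ≤ n) (q : ℝ) (k : ℕ) : Set (E n) := {x | en (x - ps q k • e1 hn) < rd q k}

section est

variable {q : ℝ}

lemma rd_pos (h0 : 0 < q) (h1 : q < 1) (k : ℕ) : 0 < rd q k := by
  have : 0 < 1 - q := by linarith
  unfold rd; positivity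

lemma ps_diff (k : ℕ) : ps q (k + 1) - ps q k = q ^ k * (1 - q) / 4 := by
  unfold ps; rw [pow_succ]; ring

lemma md_eq (k : ℕ) : md q k = 1 / 4 - q ^ k * (1 + q) / 8 := by
  unfold md ps; rw [pow_succ]; ring

lemma bg_eq (k : ℕ) : bg q k = q ^ k * (1 - q) * (1 / 8 + q / 12) := by
  unfold bg; rw [ps_diff]; unfold rd; ring

/-- the balls `Zb k` and `Zb j`, `j ≥ k + 2`, are disjoint -/
lemma Zb_disj (hn : 1 ≤ n) (h0 : 0 < q) (h1 : q < 1) {j k : ℕ} (hjk : k + 2 ≤ j) :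
    Disjoint (Zb (n := n) hn q k) (Zb hn q j) := by
  rw [Set.disjoint_left]
  intro x hx hx'
  have h2 : |fc hn (x - md q k • e1 hn)| ≤ bg q k := (fc_le hn _).trans hx
  have h3 : |fc hn (x - md q j • e1 hn)| ≤ bg q j := (fc_le hn _).trans hx'
  rw [fc_sub, md_eq, bg_eq] at h2 h3
  have h4 := (abs_le.1 h2).2
  have h5 := (abs_le.1 h3).1
  have hj : q ^ j ≤ q ^ (k + 2) := pow_le_pow_of_le_one h0.le h1.le hjk
  rw [pow_add] at hj
  have hk : 0 < q ^ k := pow_pos h0 k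
  set u := q ^ k with hu
  set v := q ^ j with hv
  have h6 : v * ((1 + q) / 8 + (1 - q) * (1 / 8 + q / 12)) ≤
      (u * q ^ 2) * ((1 + q) / 8 + (1 - q) * (1 / 8 + q / 12)) := by
    apply mul_le_mul_of_nonneg_right hj
    have : 0 < 1 - q := by linarith
    positivity
  have h7 : 0 < u * q * ((1 - q) * (2 - q ^ 2)) := by
    have : 0 < 1 - q := by linarith
    have : 0 < 2 - q ^ 2 := by nlinarith
    positivity
  nlinarith

lemma Db_disj (hn : 1 ≤ n) (h0 : 0 < q) (h1 : q < 1) {j k : ℕ} (hjk : k + 1 ≤ j) :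
    Disjoint (Db (n := n) hn q k) (Db hn q j) := by
  rw [Set.disjoint_left]
  intro x hx hx'
  have h2 : |fc hn (x - ps q k • e1 hn)| < rd q k := lt_of_le_of_lt (fc_le hn _) hx
  have h3 : |fc hn (x - ps q j • e1 hn)| < rd q j := lt_of_le_of_lt (fc_le hn _) hx'
  rw [fc_sub] at h2 h3
  have h4 := (abs_lt.1 h2).2
  have h5 := (abs_lt.1 h3).1
  have hj : q ^ j ≤ q ^ (k + 1) := pow_le_pow_of_le_one h0.le h1.le hjk
  rw [pow_succ] at hj
  have hk : 0 < q ^ k := pow_pos h0 k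
  unfold ps rd at h4 h5
  set u := q ^ k with hu
  set v := q ^ j with hv
  have h1q : 0 < 1 - q := by linarith
  have h8 : v ≤ u := by nlinarith
  have h9 : q * (1 - q) ≤ 1 - q := by nlinarith
  have h10 : v * (q * (1 - q)) ≤ u * (1 - q) := mul_le_mul h8 h9 (by positivity) hk.le
  have h11 : u * (q * (1 - q)) ≤ u * (1 - q) := mul_le_mul_of_nonneg_left h9 hk.le
  have h12 : 0 < u * (1 - q) := by positivity
  nlinarith

lemma Db_sub (hn : 1 ≤ n) (h0 : 0 < q) (h1 : q < 1) (k : ℕ) : Db (n := n) hn q k ⊆ Zb hn q k := by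
  intro x hx
  have h2 : en (x - ps q k • e1 hn) < rd q k := hx
  change en (x - md q k • e1 hn) ≤ bg q k
  have e : x - md q k • e1 hn = (x - ps q k • e1 hn) + (ps q k - md q k) • e1 hn := by module
  rw [e]
  refine (en_add _ _).trans ?_
  rw [en_smul, en_e1, mul_one]
  have h3 : ps q k - md q k = -((ps q (k + 1) - ps q k) / 2) := by unfold md; ring
  rw [h3, abs_neg, abs_of_nonneg, bg]
  · linarith
  · rw [ps_diff]
    have : 0 < 1 - q := by linarith
    positivity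

lemma Db_succ_sub (hn : 1 ≤ n) (h0 : 0 < q) (h1 : q < 1) (k : ℕ) :
    Db (n := n) hn q (k + 1) ⊆ Zb hn q k := by
  intro x hx
  have h2 : en (x - ps q (k + 1) • e1 hn) < rd q (k + 1) := hx
  change en (x - md q k • e1 hn) ≤ bg q k
  have e : x - md q k • e1 hn = (x - ps q (k + 1) • e1 hn) + (ps q (k + 1) - md q k) • e1 hn := by
    module
  rw [e]
  refine (en_add _ _).trans ?_
  rw [en_smul, en_e1, mul_one]
  have h3 : ps q (k + 1) - md q k = ((ps q (k + 1) - ps q k) / 2) := by unfold md; ring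
  have h1q : 0 < 1 - q := by linarith
  have hk : 0 < q ^ k := pow_pos h0 k
  have h4 : rd q (k + 1) ≤ rd q k := by
    unfold rd
    rw [pow_succ]
    have : q ^ k * q * (q * (1 - q)) ≤ q ^ k * (q * (1 - q)) := by
      apply mul_le_mul_of_nonneg_right _ (by positivity)
      nlinarith
    linarith
  rw [h3, abs_of_nonneg, bg]
  · linarith
  · rw [ps_diff]
    positivity

lemma Zb_small (hn : 1 ≤ n) (h0 : 0 < q) (h1 : q < 1) {ε : ℝ} (hε : 0 < ε) :
    ∃ N : ℕ, ∀ k, N ≤ k → ∀ x ∈ Zb (n := n) hn q k, ∀ y ∈ Zb hn q k, dist x y < ε := by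
  obtain ⟨N, hN⟩ := exists_pow_lt_of_lt_one hε h1
  refine ⟨N, fun k hk x hx y hy => ?_⟩
  have h2 : en (x - md q k • e1 hn) ≤ bg q k := hx
  have h3 : en (y - md q k • e1 hn) ≤ bg q k := hy
  have h4 := (norm_le_en _).trans h2
  have h5 := (norm_le_en _).trans h3
  have h6 : dist x y ≤ dist x (md q k • e1 hn) + dist y (md q k • e1 hn) :=
    dist_triangle_right _ _ _
  rw [dist_eq_norm x (md q k • e1 hn), dist_eq_norm y (md q k • e1 hn)] at h6
  have h7 : q ^ k ≤ q ^ N := pow_le_pow_of_le_one h0.le h1.le hk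
  have h8 : bg q k ≤ q ^ k / 2 := by
    rw [bg_eq, mul_assoc]
    have h9 : (1 - q) * (1 / 8 + q / 12) ≤ 1 / 2 := by nlinarith
    have := mul_le_mul_of_nonneg_left h9 (pow_pos h0 k).le
    linarith
  linarith

end est

end Pool.Agent.W_MP_68f289_gt
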