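import Pool.Agent.W_MP_68f289_gt.Swindle

/-!
The swindle, main step.
-/

open Set Metric Topology commutatorElement
open scoped NNReal ContDiff

namespace Pool.Agent.W_MP_68f289_gt

variable {n : ℕ}

section main

variable {q : ℝ}

lemma pos_bound (h0 : 0 < q) (h1 : q < 1) (k : ℕ) (hn : 1 ≤ n) :
    en (ps q k • e1 hn) + rd q k ≤ 1 / 2 := by
  rw [en_smul, en_e1, mul_one]
  have hk0 : 0 < q ^ k := pow_pos h0 k
  have hk1 : q ^ k ≤ 1 := pow_le_one₀ h0.le h1.le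
  have h2 : 0 ≤ ps q k := by unfold ps; linarith
  rw [abs_of_nonneg h2]
  unfold ps rd
  have h3 : q * (1 - q) ≤ 1 := by nlinarith
  have h4 : 0 ≤ q * (1 - q) := mul_nonneg h0.le (by linarith)
  have h5 : q ^ k * (q * (1 - q)) ≤ 1 := by nlinarith
  linarith

lemma md_bound (h0 : 0 < q) (h1 : q < 1) (k : ℕ) (hn : 1 ≤ n) :
    en (md q k • e1 hn) + bg q k ≤ 1 / 2 := by
  rw [en_smul, en_e1, mul_one]
  have hk0 : 0 < q ^ k := pow_pos h0 k
  have hk1 : q ^ k ≤ 1 := pow_le_one₀ h0.le h1.le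
  rw [md_eq, bg_eq]
  have h3 : q ^ k * (1 + q) ≤ 2 := by nlinarith
  have h2 : 0 ≤ 1 / 4 - q ^ k * (1 + q) / 8 := by linarith
  rw [abs_of_nonneg h2]
  have h4 : (1 - q) * (1 / 8 + q / 12) ≤ 1 / 4 := by nlinarith
  have h6 : 0 ≤ (1 - q) * (1 / 8 + q / 12) := mul_nonneg (by linarith) (by positivity)
  have h5 : q ^ k * (1 - q) * (1 / 8 + q / 12) ≤ 1 / 4 := by
    rw [mul_assoc]; nlinarith
  have h7 : 0 ≤ q ^ k * (1 + q) := by positivity
  linarith

/-- the homothety onto the `k`-th small ball -/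
noncomputable def al (hn : 1 ≤ n) (h0 : 0 < q) (h1 : q < 1) (k : ℕ) : HT n :=
  HT.mk' (ps q k • e1 hn) (rd q k) (rd_pos h0 h1 k).ne' (by
    rw [abs_of_pos (rd_pos h0 h1 k)]
    linarith [pos_bound h0 h1 k hn])

/-- the homothety onto the `k`-th small ball, followed by a scaling -/
noncomputable def be (hn : 1 ≤ n) (h0 : 0 < q) (h1 : q < 1) (k : ℕ) (s : ℝ) (hs : s ≠ 0)
    (hs1 : |s| ≤ 1) : HT n :=
  HT.mk' (ps q k • e1 hn) (rd q k * s) (mul_ne_zero (rd_pos h0 h1 k).ne' hs) (by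
    rw [abs_mul, abs_of_pos (rd_pos h0 h1 k)]
    have := rd_pos h0 h1 k
    nlinarith [pos_bound h0 h1 k hn])

lemma al_off (hn : 1 ≤ n) (h0 : 0 < q) (h1 : q < 1) (k : ℕ) (g : G n) :
    Off ((al hn h0 h1 k).a g) (Db hn q k) := by
  refine (al hn h0 h1 k).a_off (off_Bl g) fun x hx => ?_
  change en (ps q k • e1 hn + rd q k • x - ps q k • e1 hn) < rd q k
  rw [add_sub_cancel_left, en_smul, abs_of_pos (rd_pos h0 h1 k)]
  have h2 := mem_Bl.1 hx
  have := rd_pos h0 h1 k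
  nlinarith

lemma al_Gn (hn : 1 ≤ n) (h0 : 0 < q) (h1 : q < 1) (k : ℕ) (g : G n) :
    (al hn h0 h1 k).a g ∈ Gn n (1 / 2) := by
  refine (al hn h0 h1 k).a_Gn g (by norm_num) ?_
  change en (ps q k • e1 hn) + |rd q k| ≤ 1 / 2
  rw [abs_of_pos (rd_pos h0 h1 k)]
  exact pos_bound h0 h1 k hn

/-- elements supported in `A` -/
def Gz (R : ℝ) (A : Set (E n)) : Subgroup (G n) where
  carrier := {a | a ∈ Gn n R ∧ Off a A}
  one_mem' := ⟨one_mem _, Off.one _⟩
  mul_mem' ha hb := ⟨mul_mem ha.1 hb.1, ha.2.mul hb.2⟩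
  inv_mem' ha := ⟨inv_mem ha.1, ha.2.inv⟩

/-- the half turn exchanging two consecutive balls -/
lemma exists_tau (hn : 1 ≤ n) {r s : ℝ} (hs0 : 0 < s) (hsr : s < r) (hr1 : r ≤ 1)
    (h0 : 0 < q) (h1 : q < 1) (hq : q = s / r) (k : ℕ) :
    ∃ τ ∈ Gz (1 / 2) (Zb (n := n) hn q k), ∀ g : G n,
      τ * (be hn h0 h1 k s hs0.ne' (by rw [abs_of_pos hs0]; linarith)).a g * τ⁻¹ =
        (be hn h0 h1 (k + 1) (-r) (by linarith) (by rw [abs_neg, abs_of_pos (hs0.trans hsr)]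
                                                    exact hr1)).a g := by
  have hrd := rd_pos h0 h1 k
  have hpd : 0 ≤ ps q (k + 1) - ps q k := by
    rw [ps_diff]
    have : 0 < 1 - q := by linarith
    positivity
  obtain ⟨τ, hτ, hτoff, hτx⟩ := halfturn (md q k • e1 hn)
    (ρ1 := (ps q (k + 1) - ps q k) / 2 + s * rd q k) (ρ2 := bg q k) (R := 1 / 2)
    (by positivity) (by unfold bg; nlinarith) (by norm_num) (by norm_num) (md_bound h0 h1 k hn)
  refine ⟨τ, ⟨hτ, hτoff⟩, fun g => conj_HT τ _ _ (fun y hy => ?_) g⟩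
  change τ • (ps q k • e1 hn + (rd q k * s) • y) =
    ps q (k + 1) • e1 hn + (rd q (k + 1) * (-r)) • y
  have e2 : ps q k • e1 hn + (rd q k * s) • y - md q k • e1 hn =
      (ps q k - md q k) • e1 hn + (rd q k * s) • y := by module
  rw [hτx, e2]
  · have e3 : rd q (k + 1) * (-r) = -(rd q k * s) := by
      have hr0 : r ≠ 0 := (hs0.trans hsr).ne'
      have : s = q * r := by rw [hq]; field_simp
      unfold rd
      rw [this, pow_succ]
      ring
    have e4 : ps q (k + 1) = 2 * md q k - ps q k := by unfold md; ring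
    rw [e3, e4]
    module
  · rw [e2]
    refine lt_of_le_of_lt (en_add _ _) ?_
    rw [en_smul, en_smul, en_e1, mul_one]
    have h3 : ps q k - md q k = -((ps q (k + 1) - ps q k) / 2) := by unfold md; ring
    rw [h3, abs_neg, abs_of_nonneg (by positivity), abs_of_pos (by positivity)]
    have := mem_Bl.1 hy
    have h5 : 0 < rd q k * s := by positivity
    nlinarith

/-- one step of the swindle -/
lemma step (hn : 1 ≤ n) {r s : ℝ} (hs0 : 0 < s) (hs1 : s ≤ 1) (hsr : s < r) (hr1 : r ≤ 1)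
    (h0 : 0 < q) (h1 : q < 1) (hq : q = s / r) {m : ℕ}
    (hU : ∀ f : G n, UL s hs0 hs1 m ((sc n r (hs0.trans hsr) hr1).a f)) (k : ℕ)
    (f : G n) : ∃ f' : G n,
      CW (Gz (1 / 2) (Zb hn q k)) m
        ((al hn h0 h1 k).a ((sc n r (hs0.trans hsr) hr1).a f) *
          ((al hn h0 h1 (k + 1)).a ((sc n r (hs0.trans hsr) hr1).a f'))⁻¹) := by
  obtain ⟨τ, hτ, hτg⟩ := exists_tau hn hs0 hsr hr1 h0 h1 hq k
  obtain ⟨l, hl, e⟩ := hU f
  set r0 : 0 < r := hs0.trans hsr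
  have ea : ∀ g : G n, (al hn h0 h1 k).a ((sc n s hs0 hs1).a g) =
      (be hn h0 h1 k s hs0.ne' (by rw [abs_of_pos hs0]; linarith)).a g := by
    intro g
    refine HT.a_comp _ _ _ ?_ ?_ g
    · change ps q k • e1 hn = ps q k • e1 hn + rd q k • (0 : E n)
      rw [smul_zero, add_zero]
    · rfl
  set δ : HT n := HT.mk' 0 (-r) (by linarith) (by
    rw [en_zero, abs_neg, abs_of_pos r0]; linarith) with hδ
  have eb1 : ∀ g : G n, (sc n r r0 hr1).a ((nu n).a g) = δ.a g := by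
    intro g
    refine HT.a_comp _ _ _ ?_ ?_ g
    · change (0 : E n) = 0 + r • (0 : E n)
      rw [smul_zero, add_zero]
    · change -r = r * (-1)
      ring
  have eb2 : ∀ g : G n, (al hn h0 h1 (k + 1)).a (δ.a g) =
      (be hn h0 h1 (k + 1) (-r) (by linarith) (by rw [abs_neg, abs_of_pos (hs0.trans hsr)]
                                                  exact hr1)).a g := by
    intro g
    refine HT.a_comp _ _ _ ?_ ?_ g
    · change ps q (k + 1) • e1 hn = ps q (k + 1) • e1 hn + rd q (k + 1) • (0 : E n)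
      rw [smul_zero, add_zero]
    · rfl
  set γ := (be hn h0 h1 (k + 1) (-r) (by linarith) (by rw [abs_neg, abs_of_pos (hs0.trans hsr)]
                                                       exact hr1)) with hγ
  refine ⟨(l.map fun p => (nu n).a p.2).prod, ?_⟩
  have ex : (al hn h0 h1 (k + 1)).a ((sc n r r0 hr1).a (l.map fun p => (nu n).a p.2).prod) =
      ((l.map fun p : G n × G n =>
        ((al hn h0 h1 k).a p.1 * τ⁻¹, γ.a p.2)).map fun p => p.2).prod := by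
    rw [map_list_prod, map_list_prod, List.map_map, List.map_map, List.map_map]
    congr 1
    apply List.map_congr_left
    intro p _
    simp only [Function.comp_apply]
    rw [eb1, eb2]
  have ey : (al hn h0 h1 k).a ((sc n r r0 hr1).a f) =
      ((l.map fun p : G n × G n =>
        ((al hn h0 h1 k).a p.1 * τ⁻¹, γ.a p.2)).map fun p => p.1 * p.2 * p.1⁻¹).prod := by
    rw [e, map_list_prod, List.map_map, List.map_map]
    congr 1
    apply List.map_congr_left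
    intro p _
    simp only [Function.comp_apply, map_mul, map_inv]
    rw [ea, ← hτg p.2]
    group
  rw [ex, ey]
  have hlen : m = (l.map fun p : G n × G n =>
        ((al hn h0 h1 k).a p.1 * τ⁻¹, γ.a p.2)).length := by rw [List.length_map, hl]
  rw [hlen]
  apply CW_conjs
  intro p hp
  obtain ⟨p, _, rfl⟩ := List.mem_map.1 hp
  refine ⟨mul_mem ⟨al_Gn _ _ _ _ _, (al_off _ _ _ _ _).mono (Db_sub hn h0 h1 k)⟩
    (inv_mem hτ), ?_⟩
  change γ.a p.2 ∈ _
  rw [← eb2]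
  exact ⟨al_Gn _ _ _ _ _, (al_off _ _ _ _ _).mono (Db_succ_sub hn h0 h1 k)⟩

/-- The swindle. -/
theorem swindle (hn : 1 ≤ n) {r s : ℝ} (hs0 : 0 < s) (hs1 : s ≤ 1) (hsr : s < r) (hr1 : r ≤ 1)
    {m : ℕ} (hU : ∀ f : G n, UL s hs0 hs1 m ((sc n r (hs0.trans hsr) hr1).a f)) :
    ∃ ρ : ℝ, ∃ h0 : 0 < ρ, ∃ h1 : ρ ≤ 1, ∀ f : G n,
      (sc n ρ h0 h1).a f ∈ commutator (G n) := by
  have r0 : 0 < r := hs0.trans hsr
  set q : ℝ := s / r with hq
  have h0 : 0 < q := by positivity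
  have h1 : q < 1 := by rw [hq, div_lt_one r0]; exact hsr
  have hrd := rd_pos h0 h1 0
  have hrd1 : rd q 0 ≤ 1 := by
    have := pos_bound h0 h1 0 hn
    have := en_nonneg (ps q 0 • e1 hn)
    linarith
  refine ⟨rd q 0 * r, by positivity, by nlinarith, fun f => ?_⟩
  -- choose the sequence
  choose nx hnx using step hn hs0 hs1 hsr hr1 h0 h1 hq hU
  set F : ℕ → G n := fun k => Nat.rec f (fun k g => nx k g) k with hF
  set g : ℕ → G n := fun k => (al hn h0 h1 k).a ((sc n r r0 hr1).a (F k)) with hg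
  have hstep : ∀ k, CW (Gz (1 / 2) (Zb hn q k)) m (g k * (g (k + 1))⁻¹) := fun k => hnx k (F k)
  have hgD : ∀ k, g k ∈ Gn n (1 / 2) ∧ Off (g k) (Db hn q k) := fun k =>
    ⟨al_Gn _ _ _ _ _, al_off _ _ _ _ _⟩
  have hR0 : (0 : ℝ) ≤ 1 / 2 := by norm_num
  have hR1 : (1 / 2 : ℝ) < 1 := by norm_num
  -- the families
  have hZ0 : Dis (fun j => Zb (n := n) hn q (2 * j)) := by
    refine ⟨fun j k hjk => ?_, fun ε hε => ?_⟩
    · rcases lt_or_gt_of_ne hjk with h | h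
      · exact Zb_disj hn h0 h1 (by omega)
      · exact (Zb_disj hn h0 h1 (by omega)).symm
    · obtain ⟨N, hN⟩ := Zb_small (n := n) hn h0 h1 hε
      exact ⟨N, fun k hk => hN _ (by omega)⟩
  have hZ1 : Dis (fun j => Zb (n := n) hn q (2 * j + 1)) := by
    refine ⟨fun j k hjk => ?_, fun ε hε => ?_⟩
    · rcases lt_or_gt_of_ne hjk with h | h
      · exact Zb_disj hn h0 h1 (by omega)
      · exact (Zb_disj hn h0 h1 (by omega)).symm
    · obtain ⟨N, hN⟩ := Zb_small (n := n) hn h0 h1 hε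
      exact ⟨N, fun k hk => hN _ (by omega)⟩
  have hDe : Dis (fun j => Db (n := n) hn q (2 * j)) := hZ0.mono fun k => Db_sub hn h0 h1 _
  have hDo : Dis (fun j => Db (n := n) hn q (2 * j + 1)) := hZ1.mono fun k => Db_sub hn h0 h1 _
  -- the sequences
  set u : Sg (fun j => Zb (n := n) hn q (2 * j)) (1 / 2) := ⟨fun j => g (2 * j), fun k =>
    ⟨(hgD _).1, (hgD _).2.mono (Db_sub hn h0 h1 _)⟩⟩ with hu
  set u' : Sg (fun j => Zb (n := n) hn q (2 * j)) (1 / 2) := ⟨fun j => g (2 * j + 1), fun k =>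
    ⟨(hgD _).1, (hgD _).2.mono (Db_succ_sub hn h0 h1 _)⟩⟩ with hu'
  set v : Sg (fun j => Zb (n := n) hn q (2 * j + 1)) (1 / 2) := ⟨fun j => g (2 * j + 1),
    fun k => ⟨(hgD _).1, (hgD _).2.mono (Db_sub hn h0 h1 _)⟩⟩ with hv
  set v' : Sg (fun j => Zb (n := n) hn q (2 * j + 1)) (1 / 2) := ⟨fun j => g (2 * j + 1 + 1),
    fun k => ⟨(hgD _).1, (hgD _).2.mono (Db_succ_sub hn h0 h1 _)⟩⟩ with hv'
  set d : Sg (fun j => Db (n := n) hn q (2 * j)) (1 / 2) := ⟨fun j => g (2 * j), fun k =>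
    hgD _⟩ with hd
  set d1 : Sg (fun j => Db (n := n) hn q (2 * j + 1)) (1 / 2) := ⟨fun j => g (2 * j + 1), fun k =>
    hgD _⟩ with hd1
  set d2 : Sg (fun j => Db (n := n) hn q (2 * (j + 1))) (1 / 2) := ⟨fun j => g (2 * j + 1 + 1),
    fun k => hgD _⟩ with hd2
  have m1 : ip hZ0 hR0 hR1 (u * u'⁻¹) ∈ commutator (G n) := by
    refine ip_comm hZ0 hR0 hR1 _ (m := m) fun k => ?_
    obtain ⟨l, hl, hlH, e⟩ := hstep (2 * k)
    exact ⟨l, hl, fun p hp => hlH p hp, e⟩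
  have m2 : ip hZ1 hR0 hR1 (v * v'⁻¹) ∈ commutator (G n) := by
    refine ip_comm hZ1 hR0 hR1 _ (m := m) fun k => ?_
    obtain ⟨l, hl, hlH, e⟩ := hstep (2 * k + 1)
    exact ⟨l, hl, fun p hp => hlH p hp, e⟩
  have e1' : ip hDe hR0 hR1 d = ip hZ0 hR0 hR1 u :=
    ip_mono hDe hZ0 hR0 hR1 d u rfl fun k => Db_sub hn h0 h1 _
  have e2 : ip hDo hR0 hR1 d1 = ip hZ0 hR0 hR1 u' :=
    ip_mono hDo hZ0 hR0 hR1 d1 u' rfl fun k => Db_succ_sub hn h0 h1 _
  have e3 : ip hDo hR0 hR1 d1 = ip hZ1 hR0 hR1 v :=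
    ip_mono hDo hZ1 hR0 hR1 d1 v rfl fun k => Db_sub hn h0 h1 _
  have e4 : ip hDe.succ hR0 hR1 d2 = ip hZ1 hR0 hR1 v' :=
    ip_mono hDe.succ hZ1 hR0 hR1 d2 v' rfl fun k => Db_succ_sub hn h0 h1 _
  have e5 : ip hDe hR0 hR1 d = g 0 * ip hDe.succ hR0 hR1 d2 :=
    ip_succ hDe hR0 hR1 d d2 fun k => rfl
  have e6 : g 0 = ip hZ0 hR0 hR1 (u * u'⁻¹) * ip hZ1 hR0 hR1 (v * v'⁻¹) := by
    rw [map_mul, map_mul, map_inv, map_inv, ← e1', ← e2, ← e3, ← e4, e5]
    group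
  have e7 : (sc n (rd q 0 * r) (by positivity) (by nlinarith)).a f = g 0 := by
    symm
    refine HT.a_comp _ _ _ ?_ ?_ f
    · change (0 : E n) = ps q 0 • e1 hn + rd q 0 • (0 : E n)
      have : ps q 0 = 0 := by unfold ps; simp
      rw [this, zero_smul, smul_zero, add_zero]
    · rfl
  rw [e7, e6]
  exact mul_mem m1 m2

end main

end Pool.Agent.W_MP_68f289_gt
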