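import Pool.Agent.W_MP_68f289_gt.Frag

/-!
Half turns: explicit Hamiltonian diffeomorphisms, and local transitivity.
-/

open Set Metric Topology
open scoped NNReal ContDiff

namespace Pool.Agent.W_MP_68f289_gt

variable {n : ℕ}

lemma qf_nonneg (w : E n) : 0 ≤ qf w := Finset.sum_nonneg fun i _ => by positivity

lemma qf_smooth : ContDiff ℝ ((⊤ : ℕ∞) : WithTop ℕ∞) (qf : E n → ℝ) := by
  unfold qf
  fun_prop

lemma norm_sq_le_qf (w : E n) : ‖w‖ ^ 2 ≤ qf w := by
  have hq := qf_nonneg w
  have h : ‖w‖ ≤ Real.sqrt (qf w) := by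
    rw [Prod.norm_def]
    apply max_le
    · rw [pi_norm_le_iff_of_nonneg (Real.sqrt_nonneg _)]
      intro i
      apply Real.le_sqrt_of_sq_le
      rw [Real.norm_eq_abs, sq_abs]
      have : (w.1 i) ^ 2 + (w.2 i) ^ 2 ≤ qf w :=
        Finset.single_le_sum (f := fun i => (w.1 i) ^ 2 + (w.2 i) ^ 2)
          (fun j _ => by positivity) (Finset.mem_univ i)
      nlinarith [sq_nonneg (w.2 i)]
    · rw [pi_norm_le_iff_of_nonneg (Real.sqrt_nonneg _)]
      intro i
      apply Real.le_sqrt_of_sq_le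
      rw [Real.norm_eq_abs, sq_abs]
      have : (w.1 i) ^ 2 + (w.2 i) ^ 2 ≤ qf w :=
        Finset.single_le_sum (f := fun i => (w.1 i) ^ 2 + (w.2 i) ^ 2)
          (fun j _ => by positivity) (Finset.mem_univ i)
      nlinarith [sq_nonneg (w.1 i)]
  calc ‖w‖ ^ 2 ≤ (Real.sqrt (qf w)) ^ 2 := pow_le_pow_left₀ (norm_nonneg _) h 2
    _ = qf w := Real.sq_sqrt hq

/-- the complex structure -/
def Jm (w : E n) : E n := (w.2, -w.1)

/-- rotation -/
noncomputable def rot (θ : ℝ) (w : E n) : E n := Real.cos θ • w + Real.sin θ • Jm w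

lemma Jm_rot (θ : ℝ) (w : E n) : Jm (rot θ w) = -Real.sin θ • w + Real.cos θ • Jm w := by
  unfold rot Jm
  ext i <;> simp <;> ring

lemma rot_rot (θ θ' : ℝ) (w : E n) : rot θ (rot θ' w) = rot (θ + θ') w := by
  unfold rot Jm
  rw [Real.cos_add, Real.sin_add]
  ext i <;> simp <;> ring

lemma rot_zero (w : E n) : rot 0 w = w := by
  unfold rot; simp

lemma rot_pi (w : E n) : rot Real.pi w = -w := by
  unfold rot; simp

lemma qf_rot (θ : ℝ) (w : E n) : qf (rot θ w) = qf w := by
  unfold qf rot Jm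
  refine Finset.sum_congr rfl fun i _ => ?_
  simp only [Prod.fst_add, Prod.smul_fst, Pi.add_apply, Pi.smul_apply, smul_eq_mul, Prod.snd_add,
    Prod.smul_snd, Pi.neg_apply]
  have := Real.sin_sq_add_cos_sq θ
  linear_combination ((w.1 i) ^ 2 + (w.2 i) ^ 2) * this

lemma rot_continuous : Continuous (fun p : ℝ × E n => rot p.1 p.2) := by
  unfold rot Jm
  fun_prop

lemma hasDerivAt_rot (g t : ℝ) (w : E n) :
    HasDerivAt (fun s : ℝ => rot (s * g) w) (g • Jm (rot (t * g) w)) t := by
  rw [Jm_rot]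
  unfold rot
  have h0 : HasDerivAt (fun s : ℝ => s * g) g t := by
    simpa using (hasDerivAt_id t).mul_const g
  have h1 : HasDerivAt (fun s : ℝ => Real.cos (s * g) • w) ((-Real.sin (t * g) * g) • w) t :=
    (h0.cos).smul_const w
  have h2 : HasDerivAt (fun s : ℝ => Real.sin (s * g) • Jm w) ((Real.cos (t * g) * g) • Jm w) t :=
    (h0.sin).smul_const (Jm w)
  have h3 := h1.add h2
  have e : (-Real.sin (t * g) * g) • w + (Real.cos (t * g) * g) • Jm w =
      g • (-Real.sin (t * g) • w + Real.cos (t * g) • Jm w) := by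
    rw [smul_add, smul_smul, smul_smul, mul_comm g, mul_comm g]
  exact h3.congr_deriv e

lemma twist_cont (c : E n) (a : E n → ℝ) (ha : Continuous a) :
    Continuous (fun z : E n => c + rot (a z) (z - c)) := by
  unfold rot Jm
  fun_prop

/-- the twist about `c` with angle function `g` -/
noncomputable def twist (c : E n) (g : ℝ → ℝ) (hg : Continuous g) : E n ≃ₜ E n where
  toFun z := c + rot (g (qf (z - c))) (z - c)
  invFun z := c + rot (-g (qf (z - c))) (z - c)
  left_inv z := by
    change c + rot (-g (qf (c + rot (g (qf (z - c))) (z - c) - c)))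
      (c + rot (g (qf (z - c))) (z - c) - c) = z
    rw [add_sub_cancel_left, qf_rot, rot_rot, neg_add_cancel, rot_zero, add_sub_cancel]
  right_inv z := by
    change c + rot (g (qf (c + rot (-g (qf (z - c))) (z - c) - c)))
      (c + rot (-g (qf (z - c))) (z - c) - c) = z
    rw [add_sub_cancel_left, qf_rot, rot_rot, add_neg_cancel, rot_zero, add_sub_cancel]
  continuous_toFun := by
    have h1 : Continuous (fun z : E n => qf (z - c)) :=
      qf_smooth.continuous.comp (continuous_id.sub continuous_const)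
    exact twist_cont c _ (hg.comp h1)
  continuous_invFun := by
    have h1 : Continuous (fun z : E n => qf (z - c)) :=
      qf_smooth.continuous.comp (continuous_id.sub continuous_const)
    exact twist_cont c _ (hg.comp h1).neg

lemma hasFDerivAt_qf (w v : E n) :
    fderiv ℝ (qf : E n → ℝ) w v = ∑ i, (2 * w.1 i * v.1 i + 2 * w.2 i * v.2 i) := by
  have h1 : ∀ i : Fin n, HasFDerivAt (fun w : E n => w.1 i)
      ((ContinuousLinearMap.proj i).comp (ContinuousLinearMap.fst ℝ (Fin n → ℝ) (Fin n → ℝ))) w :=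
    fun i => ((ContinuousLinearMap.proj (R := ℝ) (φ := fun _ : Fin n => ℝ) i).comp
      (ContinuousLinearMap.fst ℝ (Fin n → ℝ) (Fin n → ℝ))).hasFDerivAt
  have h2 : ∀ i : Fin n, HasFDerivAt (fun w : E n => w.2 i)
      ((ContinuousLinearMap.proj i).comp (ContinuousLinearMap.snd ℝ (Fin n → ℝ) (Fin n → ℝ))) w :=
    fun i => ((ContinuousLinearMap.proj (R := ℝ) (φ := fun _ : Fin n => ℝ) i).comp
      (ContinuousLinearMap.snd ℝ (Fin n → ℝ) (Fin n → ℝ))).hasFDerivAt
  have h3 : HasFDerivAt (qf : E n → ℝ) _ w :=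
    HasFDerivAt.fun_sum (u := Finset.univ) fun i _ => ((h1 i).pow 2).add ((h2 i).pow 2)
  rw [h3.fderiv]
  simp only [ContinuousLinearMap.sum_apply]
  refine Finset.sum_congr rfl fun i _ => ?_
  simp

lemma XH_qf (F : ℝ → ℝ) (hF : ContDiff ℝ ((⊤ : ℕ∞) : WithTop ℕ∞) F) (c z : E n) :
    XH (fun z => F (qf (z - c))) z = (2 * deriv F (qf (z - c))) • Jm (z - c) := by
  have hq : DifferentiableAt ℝ (qf : E n → ℝ) (z - c) :=
    qf_smooth.differentiable (by simp) _
  have h1 : HasFDerivAt (fun z : E n => qf (z - c)) (fderiv ℝ (qf : E n → ℝ) (z - c)) z := by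
    have h2 : HasFDerivAt (fun z : E n => z - c) (ContinuousLinearMap.id ℝ (E n)) z :=
      (hasFDerivAt_id z).sub_const c
    exact hq.hasFDerivAt.comp z h2
  have hFd : HasDerivAt F (deriv F (qf (z - c))) (qf (z - c)) :=
    (hF.differentiable (by simp) _).hasDerivAt
  have h3 : HasFDerivAt (fun z : E n => F (qf (z - c)))
      (deriv F (qf (z - c)) • fderiv ℝ (qf : E n → ℝ) (z - c)) z :=
    hFd.comp_hasFDerivAt z h1
  unfold XH dd uv
  rw [h3.fderiv]
  simp only [ContinuousLinearMap.smul_apply, hasFDerivAt_qf, smul_eq_mul]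
  unfold Jm
  ext i
  · simp only [Pi.zero_apply, mul_zero, zero_add, Prod.smul_fst, Pi.smul_apply, smul_eq_mul]
    rw [Finset.sum_eq_single i]
    · rw [Pi.single_eq_same]; ring
    · intro j _ hj
      rw [Pi.single_eq_of_ne hj, mul_zero]
    · simp
  · simp only [Pi.zero_apply, mul_zero, add_zero, Prod.smul_snd, Pi.smul_apply, smul_eq_mul,
      Pi.neg_apply]
    rw [Finset.sum_eq_single i]
    · rw [Pi.single_eq_same]; ring
    · intro j _ hj
      rw [Pi.single_eq_of_ne hj, mul_zero]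
    · simp

/-- twists generated by functions of `qf` are Hamiltonian -/
lemma twist_isHam (F : ℝ → ℝ) (hF : ContDiff ℝ ((⊤ : ℕ∞) : WithTop ℕ∞) F) {s2 : ℝ}
    (hF0 : ∀ s, s2 < s → F s = 0) (c : E n) (hB : {z : E n | qf (z - c) ≤ s2} ⊆ Bl n)
    (hg : Continuous (fun s => 2 * deriv F s)) :
    IsHam n (twist c (fun s => 2 * deriv F s) hg) := by
  have hK : IsCompact {z : E n | qf (z - c) ≤ s2} := by
    have hcl : IsClosed {z : E n | qf (z - c) ≤ s2} :=
      isClosed_le (qf_smooth.continuous.comp (continuous_id.sub continuous_const)) continuous_const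
    refine (isCompact_closedBall c (Real.sqrt |s2|)).of_isClosed_subset hcl ?_
    intro z hz
    rw [mem_closedBall, dist_eq_norm]
    apply Real.le_sqrt_of_sq_le
    exact (norm_sq_le_qf _).trans (le_trans hz (le_abs_self _))
  refine ⟨fun _ z => F (qf (z - c)), fun t z => c + rot (t * (2 * deriv F (qf (z - c)))) (z - c),
    ⟨?_, ⟨{z : E n | qf (z - c) ≤ s2}, hK, hB, ?_⟩, ?_, ?_⟩, ?_⟩
  · exact (hF.comp (qf_smooth.comp (contDiff_id.sub contDiff_const))).comp contDiff_snd
  · intro _ z hz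
    exact hF0 _ (not_le.1 hz)
  · intro z
    change c + rot (0 * (2 * deriv F (qf (z - c)))) (z - c) = z
    rw [zero_mul, rot_zero, add_sub_cancel]
  · intro t z
    have h1 := (hasDerivAt_rot (2 * deriv F (qf (z - c))) t (z - c)).const_add c
    have h2 := XH_qf F hF c (c + rot (t * (2 * deriv F (qf (z - c)))) (z - c))
    rw [add_sub_cancel_left, qf_rot] at h2
    rw [← h2] at h1
    exact h1
  · intro z
    change c + rot (2 * deriv F (qf (z - c))) (z - c) =
      c + rot (1 * (2 * deriv F (qf (z - c)))) (z - c)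
    rw [one_mul]

/-- the profile of a half turn -/
noncomputable def prof (s0 s2 : ℝ) (s : ℝ) : ℝ :=
  (Real.pi / 2) * ((s - s2) * Real.smoothTransition ((s2 - s) / (s2 - s0)))

lemma prof_smooth (s0 s2 : ℝ) : ContDiff ℝ ((⊤ : ℕ∞) : WithTop ℕ∞) (prof s0 s2) := by
  unfold prof
  refine contDiff_const.mul ((contDiff_id.sub contDiff_const).mul ?_)
  exact Real.smoothTransition.contDiff.comp ((contDiff_const.sub contDiff_id).div_const _)

lemma prof_zero {s0 s2 s : ℝ} (h : s0 < s2) (hs : s2 < s) : prof s0 s2 s = 0 := by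
  unfold prof
  rw [Real.smoothTransition.zero_of_nonpos, mul_zero, mul_zero]
  exact div_nonpos_of_nonpos_of_nonneg (by linarith) (by linarith)

lemma prof_deriv {s0 s2 s : ℝ} (h : s0 < s2) (hs : s < s0) :
    deriv (prof s0 s2) s = Real.pi / 2 := by
  have e : prof s0 s2 =ᶠ[𝓝 s] fun s => (Real.pi / 2) * (s - s2) := by
    filter_upwards [Iio_mem_nhds hs] with r hr
    unfold prof
    rw [Real.smoothTransition.one_of_one_le, mul_one]
    rw [one_le_div (by linarith)]
    have : r < s0 := hr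
    linarith
  rw [e.deriv_eq]
  have h1 : HasDerivAt (fun s : ℝ => (Real.pi / 2) * (s - s2)) ((Real.pi / 2) * 1) s :=
    ((hasDerivAt_id s).sub_const s2).const_mul _
  rw [h1.deriv, mul_one]

lemma isOpen_Bl : IsOpen (Bl n) := isOpen_lt qf_smooth.continuous continuous_const

/-- local transitivity -/
lemma lt_Bl {L : Subgroup (E n ≃ₜ E n)} (hL : Big L) (V : Set (E n)) (hV : IsOpen V)
    (hVB : V ⊆ Bl n) (p : E n) (hp : p ∈ V) :
    ∃ W ∈ 𝓝 p, ∀ q ∈ W, ∃ h ∈ Fc L (Bl n), Off h V ∧ h • p = q := by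
  obtain ⟨r, hr, hrV⟩ := Metric.isOpen_iff.1 hV p hp
  set s2 : ℝ := (r / 2) ^ 2 with hs2
  set s0 : ℝ := s2 / 2 with hs0
  have hs2p : 0 < s2 := by positivity
  have hs02 : s0 < s2 := by rw [hs0]; linarith
  have hcont0 : Continuous (fun q : E n => (1 / 2 : ℝ) • (p - q)) := by fun_prop
  have hcont : Continuous (fun q : E n => qf ((1 / 2 : ℝ) • (p - q))) :=
    qf_smooth.continuous.comp hcont0
  have h0 : qf ((1 / 2 : ℝ) • (p - p)) < s0 := by
    rw [sub_self, smul_zero]
    have : qf (0 : E n) = 0 := by simp [qf]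
    rw [this, hs0]; positivity
  refine ⟨{q | qf ((1 / 2 : ℝ) • (p - q)) < s0} ∩ ball p r, Filter.inter_mem
    ((isOpen_lt hcont continuous_const).mem_nhds h0) (ball_mem_nhds p hr), ?_⟩
  rintro q ⟨hq1, hq2⟩
  set c : E n := (1 / 2 : ℝ) • (p + q) with hc
  have hpc : p - c = (1 / 2 : ℝ) • (p - q) := by
    rw [hc]; module
  have hcp : dist c p < r / 2 := by
    have e : c - p = (1 / 2 : ℝ) • (q - p) := by rw [hc]; module
    rw [dist_eq_norm, e, norm_smul]
    rw [mem_ball, dist_eq_norm] at hq2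
    rw [Real.norm_of_nonneg (by norm_num)]
    linarith
  have hKV : {z : E n | qf (z - c) ≤ s2} ⊆ V := by
    intro z hz
    apply hrV
    have h1 : ‖z - c‖ ≤ r / 2 := by
      have h2 : ‖z - c‖ ^ 2 ≤ (r / 2) ^ 2 := (norm_sq_le_qf _).trans hz
      exact (pow_le_pow_iff_left₀ (norm_nonneg _) (by positivity) two_ne_zero).1 h2
    rw [mem_ball]
    calc dist z p ≤ dist z c + dist c p := dist_triangle _ _ _
      _ < r / 2 + r / 2 := by rw [dist_eq_norm z c]; linarith
      _ = r := by ring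
  have hg : Continuous (fun s => 2 * deriv (prof s0 s2) s) :=
    continuous_const.mul ((prof_smooth s0 s2).continuous_deriv (by simp))
  have hH := twist_isHam (prof s0 s2) (prof_smooth s0 s2) (fun s hs => prof_zero hs02 hs) c
    (hKV.trans hVB) hg
  refine ⟨⟨_, hL.ham _ hH⟩, isHam_memL hL hH, ?_, ?_⟩
  · intro z hz
    have hz' : s2 < qf (z - c) := by
      by_contra hcon
      exact hz (hKV (not_lt.1 hcon))
    change c + rot (2 * deriv (prof s0 s2) (qf (z - c))) (z - c) = z
    have e : prof s0 s2 =ᶠ[𝓝 (qf (z - c))] fun _ => 0 := by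
      filter_upwards [Ioi_mem_nhds hz'] with s hs
      exact prof_zero hs02 hs
    rw [e.deriv_eq, deriv_const, mul_zero, rot_zero, add_sub_cancel]
  · change c + rot (2 * deriv (prof s0 s2) (qf (p - c))) (p - c) = q
    rw [prof_deriv hs02 (by rw [hpc]; exact hq1)]
    have : 2 * (Real.pi / 2) = Real.pi := by ring
    rw [this, rot_pi, hpc, hc]
    module

lemma conn_Bl : IsPreconnected (Bl n) := by
  have h : StarConvex ℝ (0 : E n) (Bl n) := by
    rw [starConvex_zero_iff]
    intro x hx a ha0 ha1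
    change qf (a • x) < 1
    have e : qf (a • x) = a ^ 2 * qf x := by
      unfold qf
      rw [Finset.mul_sum]
      refine Finset.sum_congr rfl fun i _ => ?_
      simp only [Prod.smul_fst, Pi.smul_apply, smul_eq_mul, Prod.smul_snd]
      ring
    rw [e]
    have h1 : qf x < 1 := hx
    have h2 := qf_nonneg x
    have h3 : a ^ 2 ≤ 1 := pow_le_one₀ ha0 ha1
    nlinarith
  have h0 : (0 : E n) ∈ Bl n := by change qf (0 : E n) < 1; simp [qf]
  exact (h.isPathConnected h0).isConnected.isPreconnected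

lemma nonempty_Bl : (Bl n).Nonempty := ⟨0, by change qf (0 : E n) < 1; simp [qf]⟩

/-- big groups satisfy the assumptions of the abstract part -/
lemma sysL (hn : 1 ≤ n) {L : Subgroup (E n ≃ₜ E n)} (hL : Big L) : Sys L (Bl n) where
  openB := isOpen_Bl
  connB := conn_Bl
  neB := nonempty_Bl
  nc := by
    intro K hK hKB
    by_contra hcon
    rw [not_nonempty_iff_eq_empty, sdiff_eq_empty] at hcon
    have e : K = Bl n := hKB.antisymm hcon
    have hcl : IsClosed (Bl n) := e ▸ hK.isClosed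
    have huniv : Bl n = univ := IsClopen.eq_univ ⟨hcl, isOpen_Bl⟩ nonempty_Bl
    have h1 : (fun _ => (1 : ℝ), (0 : Fin n → ℝ)) ∈ Bl n := by rw [huniv]; trivial
    have h2 : qf ((fun _ => (1 : ℝ), (0 : Fin n → ℝ)) : E n) < 1 := h1
    unfold qf at h2
    simp at h2
    have : (1 : ℝ) ≤ n := by exact_mod_cast hn
    linarith
  perf := by
    intro p _ V hV
    have : (𝓝[≠] p).NeBot := by
      have : Nontrivial (E n) := by
        have : Nonempty (Fin n) := ⟨⟨0, hn⟩⟩
        infer_instance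
      exact Module.punctured_nhds_neBot ℝ (E n) p
    obtain ⟨q, hq⟩ := (this.nonempty_of_mem (inter_mem_nhdsWithin {p}ᶜ hV))
    exact ⟨q, hq.2, hq.1⟩
  supp g := hL.supp g g.2
  lt := lt_Bl hL

lemma sys (hn : 1 ≤ n) : Sys (HamBar n) (Bl n) := sysL hn big_HamBar

end Pool.Agent.W_MP_68f289_gt
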